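import Pool.Agent.K3h14.TV.Stop

/-!
Total variation distance between two parameters on the sigma-field of a stopping set.
-/

set_option autoImplicit false

namespace K3h14.TV

open H974 Finset

variable {E : Type*} [DecidableEq E] {S : Finset E} {K : Finset E → Finset E}

/-- Likelihood ratio with respect to `1/2`. -/
noncomputable def lr (K : Finset E → Finset E) (p : ℝ) (F : Finset E) : ℝ :=
  wt K (2 * p) (2 * (1 - p)) F

/-- Its square root. -/
noncomputable def sl (K : Finset E → Finset E) (p : ℝ) (F : Finset E) : ℝ :=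
  wt K (√(2 * p)) (√(2 * (1 - p))) F

/-- Affinity. -/
noncomputable def aff (S : Finset E) (K : Finset E → Finset E) (p : ℝ) : ℝ :=
  Ex (fun _ => (1/2 : ℝ)) S (sl K p)

/-- Total variation distance. -/
noncomputable def dd (S : Finset E) (K : Finset E → Finset E) (p : ℝ) : ℝ :=
  Ex (fun _ => (1/2 : ℝ)) S (fun F => max (lr K p F - 1) 0)

theorem lr_pos {p : ℝ} (h0 : 0 < p) (h1 : p < 1) (F : Finset E) : 0 < lr K p F :=
  wt_pos K (by linarith) (by linarith) F

theorem sl_pos {p : ℝ} (h0 : 0 < p) (h1 : p < 1) (F : Finset E) : 0 < sl K p F :=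
  wt_pos K (Real.sqrt_pos.mpr (by linarith)) (Real.sqrt_pos.mpr (by linarith)) F

theorem sl_sq {p : ℝ} (h0 : 0 < p) (h1 : p < 1) (F : Finset E) : (sl K p F) ^ 2 = lr K p F := by
  unfold sl lr
  rw [sq, wt_mul, Real.mul_self_sqrt (by linarith), Real.mul_self_sqrt (by linarith)]

theorem ex_lr (h : Stp S K) {p : ℝ} (h0 : 0 < p) (h1 : p < 1) :
    Ex (fun _ => (1/2 : ℝ)) S (lr K p) = 1 :=
  wt_total h (by linarith) (by linarith) (by ring)

theorem chg_lr (h : Stp S K) {g : Finset E → ℝ} (hg : Mes S K g) (p : ℝ) :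
    Ex (fun _ => p) S g = Ex (fun _ => (1/2 : ℝ)) S (fun F => lr K p F * g F) := by
  rw [chg h hg p (r := 1/2) (by norm_num) (by norm_num)]
  apply Ex_congr
  intro F _
  unfold lr
  congr 2
  · ring
  · ring

theorem ex_max_neg (h : Stp S K) {p : ℝ} (h0 : 0 < p) (h1 : p < 1) :
    Ex (fun _ => (1/2 : ℝ)) S (fun F => max (1 - lr K p F) 0) = dd S K p := by
  unfold dd
  have e : Ex (fun _ => (1/2 : ℝ)) S (fun F => max (lr K p F - 1) 0 - max (1 - lr K p F) 0) =
      Ex (fun _ => (1/2 : ℝ)) S (fun F => lr K p F - 1) := by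
    apply Ex_congr
    intro F _
    rcases le_total (lr K p F) 1 with h2 | h2
    · rw [max_eq_right (by linarith), max_eq_left (by linarith)]; ring
    · rw [max_eq_left (by linarith), max_eq_right (by linarith)]; ring
  rw [Ex_sub, Ex_sub, Ex_const, ex_lr h h0 h1] at e
  linarith

/-- Every event of the stopping set. -/
theorem tv_event (h : Stp S K) {p : ℝ} (h0 : 0 < p) (h1 : p < 1) {B : Finset E → Prop}
    (hB : Mes S K B) :
    |Pr (fun _ => p) S B - Pr (fun _ => (1/2 : ℝ)) S B| ≤ dd S K p := by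
  unfold Pr
  rw [chg_lr h hB.ind p, abs_le]
  constructor
  · rw [← ex_max_neg h h0 h1, neg_le, neg_sub, ← Ex_sub]
    apply Ex_mono ok_half
    intro F _
    by_cases hF : B F
    · rw [ind_of hF]
      simp only [mul_one]
      exact le_max_left _ _
    · rw [ind_not_of hF]
      simp only [mul_zero, sub_self]
      exact le_max_right _ _
  · rw [← Ex_sub]
    apply Ex_mono ok_half
    intro F _
    by_cases hF : B F
    · rw [ind_of hF]
      simp only [mul_one]
      exact le_max_left _ _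
    · rw [ind_not_of hF]
      simp only [mul_zero, sub_self]
      exact le_max_right _ _

theorem mes_lr (h : Stp S K) (p : ℝ) : Mes S K (lr K p) := h.mes_wt _ _

/-- The optimal event. -/
theorem tv_opt (h : Stp S K) (p : ℝ) :
    Pr (fun _ => p) S (fun F => 1 < lr K p F) -
      Pr (fun _ => (1/2 : ℝ)) S (fun F => 1 < lr K p F) = dd S K p := by
  have hB : Mes S K (fun F => 1 < lr K p F) := by
    intro F F' hF hF' he
    beta_reduce
    rw [mes_lr h p F F' hF hF' he]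
  unfold Pr
  rw [chg_lr h hB.ind p, ← Ex_sub]
  unfold dd
  apply Ex_congr
  intro F _
  by_cases hF : 1 < lr K p F
  · rw [ind_of hF, max_eq_left (by linarith)]
    ring
  · rw [ind_not_of hF, max_eq_right (by linarith)]
    ring

theorem dd_nonneg (S : Finset E) (K : Finset E → Finset E) (p : ℝ) : 0 ≤ dd S K p :=
  Ex_nonneg ok_half (fun _ _ => le_max_right _ _)

theorem dd_min (h : Stp S K) {p : ℝ} (h0 : 0 < p) (h1 : p < 1) :
    Ex (fun _ => (1/2 : ℝ)) S (fun F => min (lr K p F) 1) = 1 - dd S K p := by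
  unfold dd
  have e : Ex (fun _ => (1/2 : ℝ)) S (fun F => min (lr K p F) 1 + max (lr K p F - 1) 0) =
      Ex (fun _ => (1/2 : ℝ)) S (lr K p) := by
    apply Ex_congr
    intro F _
    rcases le_total (lr K p F) 1 with h2 | h2
    · rw [max_eq_right (by linarith), min_eq_left h2]; ring
    · rw [max_eq_left (by linarith), min_eq_right h2]; ring
  rw [Ex_add, ex_lr h h0 h1] at e
  linarith

theorem aff_nonneg {p : ℝ} (h0 : 0 < p) (h1 : p < 1) : 0 ≤ aff S K p :=
  Ex_nonneg ok_half (fun F _ => (sl_pos h0 h1 F).le)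

theorem dd_ge (h : Stp S K) {p : ℝ} (h0 : 0 < p) (h1 : p < 1) : 1 - aff S K p ≤ dd S K p := by
  have e : Ex (fun _ => (1/2 : ℝ)) S (fun F => min (lr K p F) 1) ≤ aff S K p := by
    apply Ex_mono ok_half
    intro F _
    have h2 := sl_pos (K := K) h0 h1 F
    rw [← sl_sq h0 h1]
    rcases le_total (sl K p F) 1 with h3 | h3
    · refine (min_le_left _ _).trans ?_
      nlinarith
    · exact (min_le_right _ _).trans h3
  rw [dd_min h h0 h1] at e
  linarith

theorem aff_le_one (h : Stp S K) {p : ℝ} (h0 : 0 < p) (h1 : p < 1) : aff S K p ≤ 1 := by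
  have e := Ex_mono (p := fun _ : E => (1/2 : ℝ)) ok_half (S := S)
    (f := fun F => 2 * sl K p F) (g := fun F => lr K p F + 1) (by
      intro F _
      beta_reduce
      rw [← sl_sq h0 h1]
      nlinarith [sq_nonneg (sl K p F - 1)])
  rw [Ex_mul_left, Ex_add, Ex_const, ex_lr h h0 h1] at e
  unfold aff
  linarith

theorem dd_le_aff (h : Stp S K) {p : ℝ} (h0 : 0 < p) (h1 : p < 1) :
    (dd S K p) ^ 2 ≤ 2 * (1 - aff S K p) := by
  have hA1 := aff_le_one (S := S) h h0 h1
  have e1 : 2 * dd S K p =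
      Ex (fun _ => (1/2 : ℝ)) S (fun F => |sl K p F - 1| * (sl K p F + 1)) := by
    have h2 := ex_max_neg h h0 h1
    have h3 : Ex (fun _ => (1/2 : ℝ)) S (fun F => max (lr K p F - 1) 0 + max (1 - lr K p F) 0) =
        Ex (fun _ => (1/2 : ℝ)) S (fun F => |sl K p F - 1| * (sl K p F + 1)) := by
      apply Ex_congr
      intro F _
      have h4 := sl_pos (K := K) h0 h1 F
      rw [← sl_sq h0 h1]
      rcases le_total (sl K p F) 1 with h5 | h5
      · rw [max_eq_right (by nlinarith), max_eq_left (by nlinarith), abs_of_nonpos (by linarith)]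
        ring
      · rw [max_eq_left (by nlinarith), max_eq_right (by nlinarith), abs_of_nonneg (by linarith)]
        ring
    rw [Ex_add, h2] at h3
    rw [← h3]
    unfold dd
    ring
  have e2 := Ex_cs (p := fun _ : E => (1/2 : ℝ)) ok_half S (fun F => |sl K p F - 1|)
    (fun F => sl K p F + 1)
  rw [← e1] at e2
  have e3 : Ex (fun _ => (1/2 : ℝ)) S (fun F => |sl K p F - 1| ^ 2) = 2 - 2 * aff S K p := by
    have : Ex (fun _ => (1/2 : ℝ)) S (fun F => |sl K p F - 1| ^ 2) =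
        Ex (fun _ => (1/2 : ℝ)) S (fun F => (lr K p F + 1) - 2 * sl K p F) := by
      apply Ex_congr
      intro F _
      rw [sq_abs, ← sl_sq h0 h1]
      ring
    rw [this, Ex_sub, Ex_add, Ex_const, ex_lr h h0 h1, Ex_mul_left]
    unfold aff
    ring
  have e4 : Ex (fun _ => (1/2 : ℝ)) S (fun F => (sl K p F + 1) ^ 2) = 2 + 2 * aff S K p := by
    have : Ex (fun _ => (1/2 : ℝ)) S (fun F => (sl K p F + 1) ^ 2) =
        Ex (fun _ => (1/2 : ℝ)) S (fun F => (lr K p F + 1) + 2 * sl K p F) := by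
      apply Ex_congr
      intro F _
      rw [← sl_sq h0 h1]
      ring
    rw [this, Ex_add, Ex_add, Ex_const, ex_lr h h0 h1, Ex_mul_left]
    unfold aff
    ring
  rw [e3, e4] at e2
  nlinarith

theorem dd_aff_sq (h : Stp S K) {p : ℝ} (h0 : 0 < p) (h1 : p < 1) :
    (aff S K p) ^ 2 ≤ 2 * (1 - dd S K p) := by
  have e1 : aff S K p = Ex (fun _ => (1/2 : ℝ)) S
      (fun F => √(min (lr K p F) 1) * √(max (lr K p F) 1)) := by
    unfold aff
    apply Ex_congr
    intro F _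
    have h2 := sl_pos (K := K) h0 h1 F
    have h3 : √(lr K p F) = sl K p F := by
      rw [← sl_sq h0 h1, Real.sqrt_sq h2.le]
    rcases le_total (lr K p F) 1 with h4 | h4
    · rw [min_eq_left h4, max_eq_right h4, h3, Real.sqrt_one, mul_one]
    · rw [min_eq_right h4, max_eq_left h4, h3, Real.sqrt_one, one_mul]
  have e2 := Ex_cs (p := fun _ : E => (1/2 : ℝ)) ok_half S (fun F => √(min (lr K p F) 1))
    (fun F => √(max (lr K p F) 1))
  rw [← e1] at e2
  have e3 : Ex (fun _ => (1/2 : ℝ)) S (fun F => √(min (lr K p F) 1) ^ 2) = 1 - dd S K p := by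
    rw [← dd_min h h0 h1]
    apply Ex_congr
    intro F _
    have h2 := lr_pos (K := K) h0 h1 F
    rw [Real.sq_sqrt]
    exact le_min h2.le zero_le_one
  have e4 : Ex (fun _ => (1/2 : ℝ)) S (fun F => √(max (lr K p F) 1) ^ 2) ≤ 2 := by
    have h5 : Ex (fun _ => (1/2 : ℝ)) S (fun F => √(max (lr K p F) 1) ^ 2) ≤
        Ex (fun _ => (1/2 : ℝ)) S (fun F => lr K p F + 1) := by
      apply Ex_mono ok_half
      intro F _
      have h2 := lr_pos (K := K) h0 h1 F
      rw [Real.sq_sqrt (le_max_of_le_right zero_le_one)]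
      exact max_le (by linarith) (by linarith)
    rw [Ex_add, Ex_const, ex_lr h h0 h1] at h5
    linarith
  rw [e3] at e2
  have h6 : 0 ≤ 1 - dd S K p := by
    rw [← dd_min h h0 h1]
    exact Ex_nonneg ok_half (fun F _ => le_min (lr_pos h0 h1 F).le zero_le_one)
  nlinarith

/-! ### bounds for the affinity -/

theorem rho_le {p : ℝ} (h0 : 0 < p) (h1 : p < 1) :
    (√(2 * p) + √(2 * (1 - p))) / 2 ≤ Real.exp (-((p - 1/2) ^ 2 / 2)) := by
  have a0 := Real.sqrt_nonneg (2 * p)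
  have b0 := Real.sqrt_nonneg (2 * (1 - p))
  have a1 := Real.sq_sqrt (show (0:ℝ) ≤ 2 * p by linarith)
  have b1 := Real.sq_sqrt (show (0:ℝ) ≤ 2 * (1 - p) by linarith)
  have hab : (√(2 * p) * √(2 * (1 - p))) ≤ 1 - 2 * (p - 1/2) ^ 2 := by
    have h2 : 0 ≤ 1 - 2 * (p - 1/2) ^ 2 := by nlinarith
    rw [← Real.sqrt_mul (by linarith)]
    apply Real.sqrt_le_iff.mpr
    refine ⟨h2, ?_⟩
    nlinarith [sq_nonneg ((p - 1/2) ^ 2)]
  have h3 : ((√(2 * p) + √(2 * (1 - p))) / 2) ^ 2 ≤ 1 - (p - 1/2) ^ 2 := by nlinarith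
  have h4 : 1 - (p - 1/2) ^ 2 ≤ Real.exp (-((p - 1/2) ^ 2 / 2)) ^ 2 := by
    rw [← Real.exp_nat_mul]
    have := Real.add_one_le_exp (((2:ℕ):ℝ) * -((p - 1/2) ^ 2 / 2))
    push_cast at this ⊢
    linarith
  exact le_of_sq_le_sq (h3.trans h4) (Real.exp_pos _).le

theorem ok_of {p : ℝ} (h0 : 0 < p) (h1 : p < 1) : Ok (fun _ : E => p) := fun _ => ⟨h0.le, h1.le⟩

/-- Upper bound: either few elements are explored or the affinity is small. -/
theorem aff_up (h : Stp S K) {p : ℝ} (h0 : 0 < p) (h1 : p < 1) (k : ℕ) :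
    aff S K p ≤ Real.exp (-((p - 1/2) ^ 2 * k / 2)) +
      √(Pr (fun _ => (1/2 : ℝ)) S (fun F => (K F).card < k)) := by
  have hm : Mes S K (fun F => (K F).card < k) := by
    intro F F' hF hF' he
    beta_reduce
    rw [h.stop F F' hF hF' he]
  have hm2 : Mes S K (fun F => ¬ (K F).card < k) := by
    intro F F' hF hF' he
    beta_reduce
    rw [h.stop F F' hF hF' he]
  have e1 : aff S K p = Ex (fun _ => (1/2 : ℝ)) S (fun F => sl K p F * ind (¬ (K F).card < k)) +
      Ex (fun _ => (1/2 : ℝ)) S (fun F => sl K p F * ind ((K F).card < k)) := by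
    unfold aff
    rw [← Ex_add]
    apply Ex_congr
    intro F _
    rw [ind_not]
    ring
  rw [e1]
  apply add_le_add
  · apply wt_le h hm2 (Real.sqrt_pos.mpr (by linarith)) (Real.sqrt_pos.mpr (by linarith))
      (Real.exp_pos _).le
    intro F _ hF
    have hρ := rho_le h0 h1
    have hρ0 : 0 ≤ (√(2 * p) + √(2 * (1 - p))) / 2 := by positivity
    have h3 : ((√(2 * p) + √(2 * (1 - p))) / 2) ^ (K F).card ≤
        Real.exp (-((p - 1/2) ^ 2 / 2)) ^ (K F).card := pow_le_pow_left₀ hρ0 hρ _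
    refine h3.trans ?_
    rw [← Real.exp_nat_mul]
    apply Real.exp_le_exp.mpr
    have h4 : (k:ℝ) ≤ (K F).card := by exact_mod_cast not_lt.mp hF
    nlinarith [sq_nonneg (p - 1/2)]
  · apply Real.le_sqrt_of_sq_le
    have e2 := Ex_cs (p := fun _ : E => (1/2 : ℝ)) ok_half S (fun F => sl K p F)
      (fun F => ind ((K F).card < k))
    refine e2.trans ?_
    have e3 : Ex (fun _ => (1/2 : ℝ)) S (fun F => sl K p F ^ 2) = 1 := by
      have e4 : Ex (fun _ => (1/2 : ℝ)) S (fun F => sl K p F ^ 2) =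
          Ex (fun _ => (1/2 : ℝ)) S (lr K p) := Ex_congr (fun F _ => sl_sq h0 h1 F)
      rw [e4, ex_lr h h0 h1]
    rw [e3, one_mul]
    unfold Pr
    apply le_of_eq
    apply Ex_congr
    intro F _
    rw [sq, ind_sq]

theorem rho_inv {p : ℝ} (h0 : 1/4 ≤ p) (h1 : p ≤ 3/4) :
    (1 / √(2 * p) + 1 / √(2 * (1 - p))) / 2 ≤ Real.exp (4 * (p - 1/2) ^ 2) := by
  have a0 : 0 < √(2 * p) := Real.sqrt_pos.mpr (by linarith)
  have b0 : 0 < √(2 * (1 - p)) := Real.sqrt_pos.mpr (by linarith)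
  have a1 := Real.sq_sqrt (show (0:ℝ) ≤ 2 * p by linarith)
  have b1 := Real.sq_sqrt (show (0:ℝ) ≤ 2 * (1 - p) by linarith)
  have hsum : (√(2 * p) + √(2 * (1 - p))) ≤ 2 := by
    nlinarith [sq_nonneg (√(2 * p) - √(2 * (1 - p)))]
  have e1 : (1 / √(2 * p) + 1 / √(2 * (1 - p))) / 2 =
      (√(2 * p) + √(2 * (1 - p))) / (2 * (√(2 * p) * √(2 * (1 - p)))) := by
    field_simp
    ring
  have hprod : (√(2 * p) * √(2 * (1 - p))) ^ 2 = 1 - 4 * (p - 1/2) ^ 2 := by
    rw [mul_pow, a1, b1]; ring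
  have h2 : (p - 1/2) ^ 2 ≤ 1/16 := by nlinarith
  -- `1 ≤ prod * exp (4 h^2)`
  have h3 : 1 ≤ (√(2 * p) * √(2 * (1 - p))) * Real.exp (4 * (p - 1/2) ^ 2) := by
    have h4 : 1 ≤ ((√(2 * p) * √(2 * (1 - p))) * Real.exp (4 * (p - 1/2) ^ 2)) ^ 2 := by
      rw [mul_pow, hprod, ← Real.exp_nat_mul]
      have h5 := Real.add_one_le_exp (((2:ℕ):ℝ) * (4 * (p - 1/2) ^ 2))
      push_cast at h5 ⊢
      have h6 : 0 ≤ 1 - 4 * (p - 1/2) ^ 2 := by linarith
      have h7 := mul_le_mul_of_nonneg_left h5 h6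
      nlinarith [sq_nonneg (p - 1/2)]
    have h8 : 0 ≤ (√(2 * p) * √(2 * (1 - p))) * Real.exp (4 * (p - 1/2) ^ 2) := by positivity
    nlinarith
  rw [e1, div_le_iff₀ (by positivity)]
  nlinarith

/-- Lower bound from an event with few explored elements. -/
theorem aff_low (h : Stp S K) {p : ℝ} (h0 : 1/4 ≤ p) (h1 : p ≤ 3/4) {k : ℕ}
    {G : Finset E → Prop} (hG : Mes S K G) (hk : ∀ F, F ⊆ S → G F → (K F).card ≤ k) :
    (Pr (fun _ => (1/2 : ℝ)) S G) ^ 2 * Real.exp (-(4 * (p - 1/2) ^ 2 * k)) ≤ aff S K p := by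
  have p0 : 0 < p := by linarith
  have p1 : p < 1 := by linarith
  have e1 : Pr (fun _ => (1/2 : ℝ)) S G = Ex (fun _ => (1/2 : ℝ)) S
      (fun F => (√(sl K p F) * ind (G F)) * (√((sl K p F)⁻¹) * ind (G F))) := by
    unfold Pr
    apply Ex_congr
    intro F _
    have h2 := sl_pos (K := K) p0 p1 F
    have h3 : √(sl K p F) * √((sl K p F)⁻¹) = 1 := by
      rw [← Real.sqrt_mul h2.le, mul_inv_cancel₀ h2.ne', Real.sqrt_one]
    calc ind (G F) = (√(sl K p F) * √((sl K p F)⁻¹)) * (ind (G F) * ind (G F)) := by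
          rw [h3, ind_sq, one_mul]
      _ = _ := by ring
  have e2 := Ex_cs (p := fun _ : E => (1/2 : ℝ)) ok_half S
    (fun F => √(sl K p F) * ind (G F)) (fun F => √((sl K p F)⁻¹) * ind (G F))
  rw [← e1] at e2
  have e3 : Ex (fun _ => (1/2 : ℝ)) S (fun F => (√(sl K p F) * ind (G F)) ^ 2) ≤ aff S K p := by
    unfold aff
    apply Ex_mono ok_half
    intro F _
    have h2 := sl_pos (K := K) p0 p1 F
    rw [mul_pow, Real.sq_sqrt h2.le, sq, ind_sq]
    have := mul_le_mul_of_nonneg_left (ind_le_one (G F)) h2.le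
    linarith
  have e4 : Ex (fun _ => (1/2 : ℝ)) S (fun F => (√((sl K p F)⁻¹) * ind (G F)) ^ 2) ≤
      Real.exp (4 * (p - 1/2) ^ 2 * k) := by
    have a0 : 0 < √(2 * p) := Real.sqrt_pos.mpr (by linarith)
    have b0 : 0 < √(2 * (1 - p)) := Real.sqrt_pos.mpr (by linarith)
    have e5 : Ex (fun _ => (1/2 : ℝ)) S (fun F => (√((sl K p F)⁻¹) * ind (G F)) ^ 2) =
        Ex (fun _ => (1/2 : ℝ)) S
          (fun F => wt K (1 / √(2 * p)) (1 / √(2 * (1 - p))) F * ind (G F)) := by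
      apply Ex_congr
      intro F _
      have h2 := sl_pos (K := K) p0 p1 F
      rw [mul_pow, Real.sq_sqrt (inv_nonneg.mpr h2.le), sq, ind_sq]
      congr 1
      rw [inv_eq_iff_eq_inv, ← one_div, eq_div_iff (wt_pos K (by positivity) (by positivity) F).ne']
      unfold sl
      rw [wt_mul, mul_one_div_cancel a0.ne', mul_one_div_cancel b0.ne', wt_one]
    rw [e5]
    apply wt_le h hG (by positivity) (by positivity) (Real.exp_pos _).le
    intro F hF hGF
    have hρ := rho_inv h0 h1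
    have hρ0 : 0 ≤ (1 / √(2 * p) + 1 / √(2 * (1 - p))) / 2 := by positivity
    refine (pow_le_pow_left₀ hρ0 hρ _).trans ?_
    rw [← Real.exp_nat_mul]
    apply Real.exp_le_exp.mpr
    have h4 : ((K F).card : ℝ) ≤ k := by exact_mod_cast hk F hF hGF
    nlinarith [sq_nonneg (p - 1/2)]
  have hA0 := aff_nonneg (S := S) (K := K) p0 p1
  have e6 : (Pr (fun _ => (1/2 : ℝ)) S G) ^ 2 ≤
      aff S K p * Real.exp (4 * (p - 1/2) ^ 2 * k) := by
    refine e2.trans (mul_le_mul e3 e4 ?_ hA0)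
    exact Ex_nonneg ok_half (fun F _ => sq_nonneg _)
  calc (Pr (fun _ => (1/2 : ℝ)) S G) ^ 2 * Real.exp (-(4 * (p - 1/2) ^ 2 * k)) ≤
        aff S K p * Real.exp (4 * (p - 1/2) ^ 2 * k) * Real.exp (-(4 * (p - 1/2) ^ 2 * k)) :=
        mul_le_mul_of_nonneg_right e6 (Real.exp_pos _).le
    _ = aff S K p := by
        rw [mul_assoc, ← Real.exp_add]
        simp

/-- The affinity is near one if few elements are explored in the mean. -/
theorem aff_one (h : Stp S K) {p : ℝ} (h0 : 1/4 ≤ p) (h1 : p ≤ 3/4) :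
    1 - aff S K p ≤ 2 * (p - 1/2) ^ 2 * Ex (fun _ => (1/2 : ℝ)) S (fun F => ((K F).card : ℝ)) := by
  have p0 : 0 < p := by linarith
  have p1 : p < 1 := by linarith
  obtain ⟨N, hN⟩ : ∃ N, N = Ex (fun _ => (1/2 : ℝ)) S (fun F => ((K F).card : ℝ)) := ⟨_, rfl⟩
  have hw := wald h (1/2)
  rw [← hN] at hw ⊢
  have e1 : Ex (fun _ => (1/2 : ℝ)) S (fun F => 1 + (((F ∩ K F).card : ℝ) *
      (Real.log (2 * p) / 2 - Real.log (2 * (1 - p)) / 2) +
      (((K F).card : ℝ)) * (Real.log (2 * (1 - p)) / 2))) ≤ aff S K p := by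
    unfold aff
    apply Ex_mono ok_half
    intro F _
    have h2 : sl K p F = Real.exp (((F ∩ K F).card : ℝ) * (Real.log (2 * p) / 2) +
        ((K F \ F).card : ℝ) * (Real.log (2 * (1 - p)) / 2)) := by
      unfold sl wt
      rw [Real.exp_add, Real.exp_nat_mul, Real.exp_nat_mul, Real.sqrt_eq_rpow,
        Real.sqrt_eq_rpow, Real.rpow_def_of_pos (by linarith), Real.rpow_def_of_pos (by linarith)]
      congr 3
      · ring_nf
      · ring_nf
    rw [h2]
    have h3 : (((K F).card : ℝ)) = ((F ∩ K F).card : ℝ) + ((K F \ F).card : ℝ) := by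
      rw [← card_split K F]; push_cast; ring
    rw [h3]
    have h4 := Real.add_one_le_exp (((F ∩ K F).card : ℝ) * (Real.log (2 * p) / 2) +
        ((K F \ F).card : ℝ) * (Real.log (2 * (1 - p)) / 2))
    linarith
  rw [Ex_add, Ex_const, Ex_add, Ex_mul_right, Ex_mul_right, hw, ← hN] at e1
  have hlog : -(4 * (p - 1/2) ^ 2) * 2 ≤ Real.log (2 * p) + Real.log (2 * (1 - p)) := by
    rw [← Real.log_mul (by linarith) (by linarith)]
    have e2 : 2 * p * (2 * (1 - p)) = 1 - 4 * (p - 1/2) ^ 2 := by ring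
    rw [e2]
    have h2 : (p - 1/2) ^ 2 ≤ 1/16 := by nlinarith
    have h3 := Real.one_sub_inv_le_log_of_pos (show 0 < 1 - 4 * (p - 1/2) ^ 2 by linarith)
    have h4 : (1 - 4 * (p - 1/2) ^ 2)⁻¹ ≤ 1 + 8 * (p - 1/2) ^ 2 := by
      rw [inv_le_comm₀ (by linarith) (by positivity), inv_le_iff_one_le_mul₀ (by positivity)]
      nlinarith [sq_nonneg (p - 1/2), mul_nonneg (sq_nonneg (p - 1/2)) (sub_nonneg.mpr h2)]
    linarith
  have hN0 : 0 ≤ N := by rw [hN]; exact Ex_nonneg ok_half (fun F _ => by positivity)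
  nlinarith

end K3h14.TV
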