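import Pool.Agent.K3h14.TV.Mesh

/-!
Total variation distance of the laws of the path at `p` and at `1/2`.
-/

set_option autoImplicit false

namespace K3h14.TV

open H974 Finset H342P H984P H984N TH992.T MeasureTheory

/-- Probability that the path and its natural time are in `G` if the edges are open with
probability `p`. -/
noncomputable def prG (R : Rect) (p δ : ℝ) (G : Set X) : ℝ :=
  Pr (fun _ => p) (R.dm δ).edges (fun F => (R.curve δ F, R.time δ F) ∈ G)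

/-- Total variation distance of the laws at `p` and at `1/2`. -/
noncomputable def tvd (R : Rect) (p δ : ℝ) : ℝ :=
  sSup {x : ℝ | ∃ G : Set X, MeasurableSet G ∧ x = |prG R p δ G - prG R (1/2) δ G|}

/-- The whole explored part. -/
noncomputable abbrev Ki (D : Dm) : Finset Edg → Finset Edg := Kw D (mx D)

theorem Kw_sub_Ki {D : Dm} {m : ℕ} {F : Finset Edg} (hF : F ⊆ D.edges) : Kw D m F ⊆ Ki D F := by
  intro e he
  rw [mem_Kw] at he ⊢
  refine ⟨Exm_mono ?_ he.1, he.2⟩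
  rw [nn_mx hF]
  exact min_le_right _ _

theorem mes_mx {D : Dm} {m : ℕ} {β : Type*}
    {g : Finset Edg → β} (hg : Mes D.edges (Kw D m) g) : Mes D.edges (Ki D) g := by
  intro F F' hF hF' he
  apply hg F F' hF hF'
  have h1 := Kw_sub_Ki (m := m) hF
  have : ∀ G : Finset Edg, G ∩ Kw D m F = (G ∩ Ki D F) ∩ Kw D m F := by
    intro G
    rw [Finset.inter_assoc, Finset.inter_eq_right.mpr h1]
  rw [this F, this F', he]

/-- The total variation distance is the one of the explored parts. -/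
theorem tvd_eq {R : Rect} {p δ : ℝ} (hδ : 0 < δ) (hD : (R.dm δ).Ok) (h0 : 0 < p) (h1 : p < 1) :
    tvd R p δ = dd (R.dm δ).edges (Ki (R.dm δ)) p := by
  classical
  have hst := stp hD (mx (R.dm δ))
  apply IsGreatest.csSup_eq
  constructor
  · obtain ⟨G, hG⟩ : ∃ G : Set X, G = (fun F => ((R.curve δ F, R.time δ F) : X)) ''
      (↑((R.dm δ).edges.powerset.filter (fun F => 1 < lr (Ki (R.dm δ)) p F)) :
        Set (Finset Edg)) := ⟨_, rfl⟩
    have hfin : G.Finite := by rw [hG]; exact (Finset.finite_toSet _).image _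
    refine ⟨G, hfin.measurableSet, ?_⟩
    have hmem : ∀ F, F ⊆ (R.dm δ).edges →
        ((R.curve δ F, R.time δ F) ∈ G ↔ 1 < lr (Ki (R.dm δ)) p F) := by
      intro F hF
      rw [hG]
      constructor
      · rintro ⟨F', hF', he⟩
        rw [Finset.mem_coe, Finset.mem_filter, Finset.mem_powerset] at hF'
        simp only [Prod.mk.injEq] at he
        have h2 := ct_det hδ hF hF'.1 he.1 he.2
        have h3 := mes_lr hst p F F' hF hF'.1 h2
        rw [← h3]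
        exact hF'.2
      · intro h
        refine ⟨F, ?_, rfl⟩
        rw [Finset.mem_coe, Finset.mem_filter, Finset.mem_powerset]
        exact ⟨hF, h⟩
    have e1 : ∀ q : ℝ, prG R q δ G =
        Pr (fun _ => q) (R.dm δ).edges (fun F => 1 < lr (Ki (R.dm δ)) p F) := by
      intro q
      unfold prG Pr
      exact Ex_congr (fun F hF => ind_congr (hmem F hF))
    rw [e1, e1, tv_opt hst p, abs_of_nonneg (dd_nonneg _ _ _)]
  · rintro x ⟨G, -, rfl⟩
    apply tv_event hst h0 h1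
    intro F F' hF hF' he
    have h2 := mes_ct hD F F' hF hF' he
    simp only at h2 ⊢
    rw [h2]

theorem dd_mono {D : Dm} (hD : D.Ok) {p : ℝ} (h0 : 0 < p) (h1 : p < 1) (m : ℕ) :
    dd D.edges (Kw D m) p ≤ dd D.edges (Ki D) p := by
  have k1 := tv_opt (stp hD m) p
  have k2 := tv_event (stp hD (mx D)) h0 h1 (B := fun F => 1 < lr (Kw D m) p F) (by
    apply mes_mx (m := m)
    intro F F' hF hF' he
    beta_reduce
    rw [mes_lr (stp hD m) p F F' hF hF' he])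
  rw [← k1]
  exact (le_abs_self _).trans k2

/-- Few examined edges: the path is short. -/
theorem few {R : Rect} {κ S δ s : ℝ} (hS : 0 < S) (hδ : 0 < δ) (hδS : δ ≤ S)
    (hsh : (R.dm δ).Shape κ (S / δ)) (hs : 64 * S * δ ^ (3/4 : ℝ) ≤ s)
    {k : ℕ} (hk : (k:ℝ) ≤ s * δ ^ (-(7/4) : ℝ) / 8 + 1) {F : Finset Edg}
    (hF : F ⊆ (R.dm δ).edges) (hK : (Ki (R.dm δ) F).card < k) : R.time δ F ≤ s := by
  have h1 := nn_le hsh.ok (m := mx (R.dm δ)) hF
  rw [nn_mx hF] at h1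
  have h2 : ((Ki (R.dm δ) F).card : ℝ) + 1 ≤ k := by exact_mod_cast hK
  have h3 := hsh.w_le
  have h4 := hsh.h_le
  push_cast at h3
  have h5 : 1 ≤ S / δ := by rw [le_div_iff₀ hδ]; linarith
  have h6 : ((R.dm δ).len F : ℝ) ≤ s * δ ^ (-(7/4) : ℝ) / 4 + 32 * (S / δ) := by
    have : ((Ki (R.dm δ) F).card : ℝ) = ((Kw (R.dm δ) (mx (R.dm δ)) F).card : ℝ) := rfl
    linarith
  unfold Rect.time
  have hδ74 : 0 < δ ^ (7/4 : ℝ) := Real.rpow_pos_of_pos hδ _
  have e1 : δ ^ (7/4 : ℝ) * δ ^ (-(7/4) : ℝ) = 1 := by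
    rw [← Real.rpow_add hδ]; norm_num
  have e2 : δ ^ (7/4 : ℝ) * (S / δ) = S * δ ^ (3/4 : ℝ) := by
    have : δ ^ (7/4 : ℝ) = δ ^ (3/4 : ℝ) * δ := by
      rw [show (7/4 : ℝ) = 3/4 + 1 by norm_num, Real.rpow_add hδ, Real.rpow_one]
    rw [this]
    field_simp
  have hδ34 : 0 < δ ^ (3/4 : ℝ) := Real.rpow_pos_of_pos hδ _
  have hs0 : 0 < s := lt_of_lt_of_le (by positivity) hs
  calc δ ^ (7/4 : ℝ) * ((R.dm δ).len F : ℝ) ≤
        δ ^ (7/4 : ℝ) * (s * δ ^ (-(7/4) : ℝ) / 4 + 32 * (S / δ)) :=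
        mul_le_mul_of_nonneg_left h6 hδ74.le
    _ = s / 4 * (δ ^ (7/4 : ℝ) * δ ^ (-(7/4) : ℝ)) + 32 * (δ ^ (7/4 : ℝ) * (S / δ)) := by ring
    _ = s / 4 + 32 * (S * δ ^ (3/4 : ℝ)) := by rw [e1, e2, mul_one]
    _ ≤ s := by linarith

/-- Upper bound of order `x`. -/
theorem b_one {R : Rect} {C1 p δ : ℝ} (hC1 : 0 < C1) (hδ : 0 < δ) (hD : (R.dm δ).Ok)
    (hE : Ex (fun _ => (1/2:ℝ)) (R.dm δ).edges (fun F => ((R.dm δ).len F : ℝ)) ≤
      C1 * δ ^ (-(7/4) : ℝ)) (h0 : 1/4 ≤ p) (h1 : p ≤ 3/4) :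
    dd (R.dm δ).edges (Ki (R.dm δ)) p ≤ 2 * √C1 * (|p - 1/2| * δ ^ (-(7/8) : ℝ)) := by
  have p0 : 0 < p := by linarith
  have p1 : p < 1 := by linarith
  have hst := stp hD (mx (R.dm δ))
  have k1 := dd_le_aff hst p0 p1
  have k2 := aff_one hst h0 h1
  have k3 : Ex (fun _ => (1/2:ℝ)) (R.dm δ).edges (fun F => ((Ki (R.dm δ) F).card : ℝ)) ≤
      C1 * δ ^ (-(7/4) : ℝ) := by
    refine le_trans (Ex_mono two_ok fun F _ => ?_) hE
    have := card_Kw_len (R.dm δ) (mx (R.dm δ)) F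
    exact_mod_cast this
  have hx2 : (|p - 1/2| * δ ^ (-(7/8) : ℝ)) ^ 2 = (p - 1/2) ^ 2 * δ ^ (-(7/4) : ℝ) := by
    rw [mul_pow, sq_abs, ← Real.rpow_natCast (δ ^ (-(7/8) : ℝ)) 2, ← Real.rpow_mul hδ.le]
    norm_num
  have k4 : (dd (R.dm δ).edges (Ki (R.dm δ)) p) ^ 2 ≤
      (2 * √C1 * (|p - 1/2| * δ ^ (-(7/8) : ℝ))) ^ 2 := by
    rw [mul_pow (2 * √C1), hx2, mul_pow, Real.sq_sqrt hC1.le]
    have : 2 * (p - 1/2) ^ 2 * Ex (fun _ => (1/2:ℝ)) (R.dm δ).edges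
        (fun F => ((Ki (R.dm δ) F).card : ℝ)) ≤ 2 * (p - 1/2) ^ 2 * (C1 * δ ^ (-(7/4) : ℝ)) :=
      mul_le_mul_of_nonneg_left k3 (by positivity)
    linarith
  have hδ0 : 0 < δ ^ (-(7/8) : ℝ) := Real.rpow_pos_of_pos hδ _
  exact le_of_sq_le_sq k4 (by positivity)

end K3h14.TV
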