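import Pool.Agent.K3h14.TV.Asm

/-!
Total variation distance: exponential bounds and the linear lower bound.
-/

set_option autoImplicit false

namespace K3h14.TV

open H974 Finset H342P H984P H984N TH992.T MeasureTheory

theorem x_sq {p δ : ℝ} (hδ : 0 < δ) : (|p - 1/2| * δ ^ (-(7/8) : ℝ)) ^ 2 =
    (p - 1/2) ^ 2 * δ ^ (-(7/4) : ℝ) := by
  rw [mul_pow, sq_abs, ← Real.rpow_natCast (δ ^ (-(7/8) : ℝ)) 2, ← Real.rpow_mul hδ.le]
  norm_num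

theorem s_pow {x : ℝ} (hx : 0 < x) : (x ^ (-(6/7) : ℝ)) ^ (-(4/3) : ℝ) = x ^ (8/7 : ℝ) := by
  rw [← Real.rpow_mul hx.le]; norm_num

theorem s_sq {x : ℝ} (hx : 0 < x) : x ^ 2 * x ^ (-(6/7) : ℝ) = x ^ (8/7 : ℝ) := by
  rw [← Real.rpow_natCast x 2, ← Real.rpow_add hx]; norm_num

theorem s_ge {x h0 δ A : ℝ} (hx : 0 < x) (hh : 0 < h0) (hδ : 0 < δ)
    (h : x ≤ h0 * δ ^ (-(7/8) : ℝ)) (hA : A ≤ h0 ^ (-(6/7) : ℝ)) :
    A * δ ^ (3/4 : ℝ) ≤ x ^ (-(6/7) : ℝ) := by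
  have hδ0 : 0 < δ ^ (-(7/8) : ℝ) := Real.rpow_pos_of_pos hδ _
  have h1 : (h0 * δ ^ (-(7/8) : ℝ)) ^ (-(6/7) : ℝ) ≤ x ^ (-(6/7) : ℝ) :=
    Real.rpow_le_rpow_of_nonpos hx h (by norm_num)
  rw [Real.mul_rpow hh.le hδ0.le, ← Real.rpow_mul hδ.le] at h1
  have e : (-(7/8) * -(6/7) : ℝ) = 3/4 := by norm_num
  rw [e] at h1
  exact (mul_le_mul_of_nonneg_right hA (Real.rpow_nonneg hδ.le _)).trans h1

theorem sqrt_exp {C y : ℝ} (hC : 0 ≤ C) : √(C * Real.exp (-y)) = √C * Real.exp (-(y / 2)) := by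
  rw [Real.sqrt_mul hC]
  congr 1
  rw [show -y = -(y/2) + -(y/2) by ring, Real.exp_add]
  exact Real.sqrt_mul_self (Real.exp_pos _).le

/-- Upper bound for `1 - tv`. -/
theorem b_two {R : Rect} {κ S c C δ p x : ℝ} (hS : 0 < S) (hc : 0 < c) (hC : 0 < C)
    (hδ : 0 < δ) (hδS : δ ≤ S) (hsh : (R.dm δ).Shape κ (S / δ))
    (hup : ∀ s : ℝ, C * δ ^ (3/4 : ℝ) ≤ s →
      Pr (fun _ => (1/2:ℝ)) (R.dm δ).edges (fun F => R.time δ F ≤ s) ≤
        C * Real.exp (-(c * s ^ (-(4/3) : ℝ))))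
    (h0 : 0 < p) (h1 : p < 1) (hx : x = |p - 1/2| * δ ^ (-(7/8) : ℝ)) (hx1 : 1 ≤ x)
    (hs1 : 64 * S * δ ^ (3/4 : ℝ) ≤ x ^ (-(6/7) : ℝ))
    (hs2 : C * δ ^ (3/4 : ℝ) ≤ x ^ (-(6/7) : ℝ)) :
    1 - dd (R.dm δ).edges (Ki (R.dm δ)) p ≤
      (1 + √C) * Real.exp (-(min (1/16) (c/2) * x ^ (8/7 : ℝ))) := by
  have hx0 : 0 < x := by linarith
  have hst := stp hsh.ok (mx (R.dm δ))
  obtain ⟨s, hs⟩ : ∃ s, s = x ^ (-(6/7) : ℝ) := ⟨_, rfl⟩
  rw [← hs] at hs1 hs2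
  have hs0 : 0 < s := by rw [hs]; exact Real.rpow_pos_of_pos hx0 _
  have hδ74 : 0 < δ ^ (-(7/4) : ℝ) := Real.rpow_pos_of_pos hδ _
  obtain ⟨k, hk⟩ : ∃ k : ℕ, k = ⌈s * δ ^ (-(7/4) : ℝ) / 8⌉₊ := ⟨_, rfl⟩
  have k1 : s * δ ^ (-(7/4) : ℝ) / 8 ≤ k := by rw [hk]; exact Nat.le_ceil _
  have k2 : (k:ℝ) ≤ s * δ ^ (-(7/4) : ℝ) / 8 + 1 := by
    rw [hk]; exact (Nat.ceil_lt_add_one (by positivity)).le
  have a1 := dd_ge hst h0 h1
  have a2 := aff_up hst h0 h1 k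
  have hx8 : 0 < x ^ (8/7 : ℝ) := Real.rpow_pos_of_pos hx0 _
  have a3 : Real.exp (-((p - 1/2) ^ 2 * k / 2)) ≤ Real.exp (-(1/16 * x ^ (8/7 : ℝ))) := by
    apply Real.exp_le_exp.mpr
    apply neg_le_neg
    have e1 : x ^ 2 * s = x ^ (8/7 : ℝ) := by rw [hs]; exact s_sq hx0
    have e2 : x ^ 2 = (p - 1/2) ^ 2 * δ ^ (-(7/4) : ℝ) := by rw [hx]; exact x_sq hδ
    rw [← e1, e2]
    have := mul_le_mul_of_nonneg_left k1 (sq_nonneg (p - 1/2))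
    calc 1/16 * ((p - 1/2) ^ 2 * δ ^ (-(7/4) : ℝ) * s) =
          ((p - 1/2) ^ 2 * (s * δ ^ (-(7/4) : ℝ) / 8)) / 2 := by ring
      _ ≤ _ := by linarith
  have a4 : Pr (fun _ => (1/2:ℝ)) (R.dm δ).edges (fun F => (Ki (R.dm δ) F).card < k) ≤
      C * Real.exp (-(c * x ^ (8/7 : ℝ))) := by
    have e1 : s ^ (-(4/3) : ℝ) = x ^ (8/7 : ℝ) := by rw [hs]; exact s_pow hx0
    rw [← e1]
    refine le_trans (Pr_mono two_ok fun F hF hK => ?_) (hup s hs2)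
    exact few hS hδ hδS hsh hs1 k2 hF hK
  have a5 : √(Pr (fun _ => (1/2:ℝ)) (R.dm δ).edges (fun F => (Ki (R.dm δ) F).card < k)) ≤
      √C * Real.exp (-(c * x ^ (8/7 : ℝ) / 2)) := by
    rw [← sqrt_exp hC.le]
    exact Real.sqrt_le_sqrt a4
  have a6 : Real.exp (-(1/16 * x ^ (8/7 : ℝ))) ≤
      Real.exp (-(min (1/16) (c/2) * x ^ (8/7 : ℝ))) := by
    apply Real.exp_le_exp.mpr
    apply neg_le_neg
    exact mul_le_mul_of_nonneg_right (min_le_left _ _) hx8.le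
  have a7 : Real.exp (-(c * x ^ (8/7 : ℝ) / 2)) ≤
      Real.exp (-(min (1/16) (c/2) * x ^ (8/7 : ℝ))) := by
    apply Real.exp_le_exp.mpr
    apply neg_le_neg
    have := mul_le_mul_of_nonneg_right (min_le_right (1/16) (c/2)) hx8.le
    linarith
  have a8 := mul_le_mul_of_nonneg_left a7 (Real.sqrt_nonneg C)
  calc 1 - dd (R.dm δ).edges (Ki (R.dm δ)) p ≤ aff (R.dm δ).edges (Ki (R.dm δ)) p := by linarith
    _ ≤ Real.exp (-(min (1/16) (c/2) * x ^ (8/7 : ℝ))) +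
        √C * Real.exp (-(min (1/16) (c/2) * x ^ (8/7 : ℝ))) := by
        refine a2.trans (add_le_add (a3.trans a6) (a5.trans a8))
    _ = _ := by ring

/-- Lower bound for `1 - tv`. -/
theorem b_three {R : Rect} {C δ p x y : ℝ} (hC : 0 < C) (hδ : 0 < δ) (hD : (R.dm δ).Ok)
    (hlow : ∀ s : ℝ, C * δ ^ (3/4 : ℝ) ≤ s → s ≤ 1 → Real.exp (-(C * s ^ (-(4/3) : ℝ))) ≤
        Pr (fun _ => (1/2:ℝ)) (R.dm δ).edges (fun F => R.time δ F ≤ s))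
    (h0 : 1/4 ≤ p) (h1 : p ≤ 3/4) (hy : y = |p - 1/2| * δ ^ (-(7/8) : ℝ)) (hyx : y ≤ x)
    (hx1 : 1 ≤ x) (hs2 : C * δ ^ (3/4 : ℝ) ≤ x ^ (-(6/7) : ℝ)) :
    Real.exp (-((4 * C + 9) * x ^ (8/7 : ℝ))) ≤ 1 - dd (R.dm δ).edges (Ki (R.dm δ)) p := by
  have hx0 : 0 < x := by linarith
  have p0 : 0 < p := by linarith
  have p1 : p < 1 := by linarith
  have hst := stp hD (mx (R.dm δ))
  obtain ⟨s, hs⟩ : ∃ s, s = x ^ (-(6/7) : ℝ) := ⟨_, rfl⟩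
  rw [← hs] at hs2
  have hs0 : 0 < s := by rw [hs]; exact Real.rpow_pos_of_pos hx0 _
  have hs1 : s ≤ 1 := by
    rw [hs]; exact Real.rpow_le_one_of_one_le_of_nonpos hx1 (by norm_num)
  have hδ74 : 0 < δ ^ (-(7/4) : ℝ) := Real.rpow_pos_of_pos hδ _
  obtain ⟨k, hk⟩ : ∃ k : ℕ, k = ⌊s * δ ^ (-(7/4) : ℝ)⌋₊ := ⟨_, rfl⟩
  have k1 : (k:ℝ) ≤ s * δ ^ (-(7/4) : ℝ) := by rw [hk]; exact Nat.floor_le (by positivity)
  have hG : Mes (R.dm δ).edges (Ki (R.dm δ)) (fun F => R.time δ F ≤ s) := by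
    intro F F' hF hF' he
    have h2 := mes_ct hD F F' hF hF' he
    simp only [Prod.mk.injEq] at h2 ⊢
    rw [h2.2]
  have hkG : ∀ F, F ⊆ (R.dm δ).edges → R.time δ F ≤ s → (Ki (R.dm δ) F).card ≤ k := by
    intro F hF ht
    refine (card_Kw_len (R.dm δ) (mx (R.dm δ)) F).trans ?_
    rw [hk]
    apply Nat.le_floor
    unfold Rect.time at ht
    have e1 : δ ^ (7/4 : ℝ) * δ ^ (-(7/4) : ℝ) = 1 := by
      rw [← Real.rpow_add hδ]; norm_num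
    calc ((R.dm δ).len F : ℝ) = (δ ^ (7/4 : ℝ) * ((R.dm δ).len F : ℝ)) * δ ^ (-(7/4) : ℝ) := by
          rw [mul_right_comm, e1, one_mul]
      _ ≤ s * δ ^ (-(7/4) : ℝ) := mul_le_mul_of_nonneg_right ht hδ74.le
  have a1 := dd_aff_sq hst p0 p1
  have a2 := aff_low hst h0 h1 hG hkG
  have hx8 : 1 ≤ x ^ (8/7 : ℝ) := Real.one_le_rpow hx1 (by norm_num)
  have e0 : s ^ (-(4/3) : ℝ) = x ^ (8/7 : ℝ) := by rw [hs]; exact s_pow hx0
  have a3 : Real.exp (-(C * x ^ (8/7 : ℝ))) ≤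
      Pr (fun _ => (1/2:ℝ)) (R.dm δ).edges (fun F => R.time δ F ≤ s) := by
    rw [← e0]; exact hlow s hs2 hs1
  have a4 : Real.exp (-(4 * x ^ (8/7 : ℝ))) ≤ Real.exp (-(4 * (p - 1/2) ^ 2 * k)) := by
    apply Real.exp_le_exp.mpr
    apply neg_le_neg
    have e1 : x ^ 2 * s = x ^ (8/7 : ℝ) := by rw [hs]; exact s_sq hx0
    have e2 : y ^ 2 = (p - 1/2) ^ 2 * δ ^ (-(7/4) : ℝ) := by rw [hy]; exact x_sq hδ
    have hy0 : 0 ≤ y := by
      rw [hy]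
      exact mul_nonneg (abs_nonneg _) (Real.rpow_nonneg hδ.le _)
    have e3 : y ^ 2 ≤ x ^ 2 := pow_le_pow_left₀ hy0 hyx 2
    rw [← e1]
    have := mul_le_mul_of_nonneg_left k1 (sq_nonneg (p - 1/2))
    calc 4 * (p - 1/2) ^ 2 * k = 4 * ((p - 1/2) ^ 2 * k) := by ring
      _ ≤ 4 * ((p - 1/2) ^ 2 * (s * δ ^ (-(7/4) : ℝ))) := by linarith
      _ = 4 * (y ^ 2 * s) := by rw [e2]; ring
      _ ≤ 4 * (x ^ 2 * s) := by
          apply mul_le_mul_of_nonneg_left _ (by norm_num)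
          exact mul_le_mul_of_nonneg_right e3 hs0.le
  have a5 : Real.exp (-((2 * C + 4) * x ^ (8/7 : ℝ))) ≤
      aff (R.dm δ).edges (Ki (R.dm δ)) p := by
    refine le_trans ?_ a2
    have e1 : Real.exp (-((2 * C + 4) * x ^ (8/7 : ℝ))) =
        (Real.exp (-(C * x ^ (8/7 : ℝ)))) ^ 2 * Real.exp (-(4 * x ^ (8/7 : ℝ))) := by
      rw [← Real.exp_nat_mul, ← Real.exp_add]
      congr 1
      push_cast
      ring
    rw [e1]
    apply mul_le_mul _ a4 (Real.exp_pos _).le (by positivity)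
    exact pow_le_pow_left₀ (Real.exp_pos _).le a3 2
  have a6 : (Real.exp (-((2 * C + 4) * x ^ (8/7 : ℝ)))) ^ 2 ≤
      (aff (R.dm δ).edges (Ki (R.dm δ)) p) ^ 2 :=
    pow_le_pow_left₀ (Real.exp_pos _).le a5 2
  have a7 : Real.exp (-((4 * C + 9) * x ^ (8/7 : ℝ))) ≤
      (Real.exp (-((2 * C + 4) * x ^ (8/7 : ℝ)))) ^ 2 * (1/2) := by
    have e1 : Real.exp (-((4 * C + 9) * x ^ (8/7 : ℝ))) =
        (Real.exp (-((2 * C + 4) * x ^ (8/7 : ℝ)))) ^ 2 * Real.exp (-(x ^ (8/7 : ℝ))) := by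
      rw [← Real.exp_nat_mul, ← Real.exp_add]
      congr 1
      push_cast
      ring
    rw [e1]
    apply mul_le_mul_of_nonneg_left _ (by positivity)
    have h11 : Real.exp (-(x ^ (8/7 : ℝ))) ≤ Real.exp (-1) := Real.exp_le_exp.mpr (by linarith)
    have h12 := Real.exp_neg_one_lt_d9
    linarith
  linarith

/-- Lower bound of order `x` for `x ≤ 1`. -/
theorem b_four {R : Rect} {κ S δ p x η : ℝ} (hS : 0 < S)
    (hδ : 0 < δ) (hδS : δ ≤ S) (hsh : (R.dm δ).Shape κ (S / δ)) (hη : 0 < η) (hη1 : η ≤ 1/4)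
    (hPr : Pr (fun _ => (1/2:ℝ)) (R.dm δ).edges (fun F => R.time δ F ≤ η) ≤ 1/16)
    (hδη : 128 * S * δ ^ (3/4 : ℝ) ≤ η) (hδη2 : 2 ≤ η * δ ^ (-(7/4) : ℝ))
    (h0 : 0 < p) (h1 : p < 1) (hx : x = |p - 1/2| * δ ^ (-(7/8) : ℝ)) (hx1 : x ≤ 1) :
    √(η / 2) / 4000 * x ≤ dd (R.dm δ).edges (Ki (R.dm δ)) p := by
  have hD := hsh.ok
  have hδ74 : 0 < δ ^ (-(7/4) : ℝ) := Real.rpow_pos_of_pos hδ _
  have hδ78 : 0 < δ ^ (-(7/8) : ℝ) := Real.rpow_pos_of_pos hδ _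
  have hx0 : 0 ≤ x := by rw [hx]; positivity
  obtain ⟨m, hm⟩ : ∃ m : ℕ, m = ⌊η * δ ^ (-(7/4) : ℝ)⌋₊ := ⟨_, rfl⟩
  have m1 : (m:ℝ) ≤ η * δ ^ (-(7/4) : ℝ) := by rw [hm]; exact Nat.floor_le (by positivity)
  have m2 : η * δ ^ (-(7/4) : ℝ) < m + 1 := by rw [hm]; exact Nat.lt_floor_add_one _
  have m3 : 1 ≤ m := by
    rw [hm]; exact (Nat.one_le_floor_iff _).mpr (by linarith)
  have m3r : (1:ℝ) ≤ m := by exact_mod_cast m3
  have m4 : η / 2 * δ ^ (-(7/4) : ℝ) ≤ m := by linarith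
  have hst := stp hD m
  have hm' : ∀ F, F ⊆ (R.dm δ).edges → (Kw (R.dm δ) m F).card ≤ m :=
    fun F _ => card_Kw_le _ _ _
  have hx2 : x ^ 2 = (p - 1/2) ^ 2 * δ ^ (-(7/4) : ℝ) := by rw [hx]; exact x_sq hδ
  have hp : 4 * (p - 1/2) ^ 2 * m ≤ 1 := by
    have e1 : (p - 1/2) ^ 2 * m ≤ (p - 1/2) ^ 2 * (η * δ ^ (-(7/4) : ℝ)) :=
      mul_le_mul_of_nonneg_left m1 (sq_nonneg _)
    have e2 : (p - 1/2) ^ 2 * (η * δ ^ (-(7/4) : ℝ)) = η * x ^ 2 := by rw [hx2]; ring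
    have e3 : x ^ 2 ≤ 1 := pow_le_one₀ hx0 hx1
    nlinarith
  -- the probability of a short path at `p`
  have hshort : Pr (fun _ => p) (R.dm δ).edges (fun F => (R.dm δ).len F < m) ≤ 1/2 := by
    have hmes := mes_short hD m
    have e1 : Pr (fun _ => p) (R.dm δ).edges (fun F => (R.dm δ).len F < m) =
        Ex (fun _ => (1/2:ℝ)) (R.dm δ).edges (fun F => lr (Kw (R.dm δ) m) p F *
          ind ((R.dm δ).len F < m)) := chg_lr hst hmes.ind p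
    have e2 := Ex_cs (p := fun _ : Edg => (1/2 : ℝ)) ok_half (R.dm δ).edges
      (lr (Kw (R.dm δ) m) p) (fun F => ind ((R.dm δ).len F < m))
    have e3 := ex_lr_sq hst h0 h1 hm'
    have e4 : Real.exp (4 * (p - 1/2) ^ 2 * m) ≤ 3 := by
      have : Real.exp (4 * (p - 1/2) ^ 2 * m) ≤ Real.exp 1 := Real.exp_le_exp.mpr hp
      have := Real.exp_one_lt_d9
      linarith
    have e5 : Ex (fun _ => (1/2:ℝ)) (R.dm δ).edges
        (fun F => ind ((R.dm δ).len F < m) ^ 2) ≤ 1/16 := by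
      refine le_trans (Ex_mono two_ok fun F hF => ?_) hPr
      beta_reduce
      by_cases hl : (R.dm δ).len F < m
      · have ht : R.time δ F ≤ η := by
          unfold Rect.time
          have hδ7 : 0 < δ ^ (7/4 : ℝ) := Real.rpow_pos_of_pos hδ _
          have e1 : δ ^ (7/4 : ℝ) * δ ^ (-(7/4) : ℝ) = 1 := by
            rw [← Real.rpow_add hδ]; norm_num
          have e2 : ((R.dm δ).len F : ℝ) ≤ m := by exact_mod_cast hl.le
          calc δ ^ (7/4 : ℝ) * ((R.dm δ).len F : ℝ) ≤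
                δ ^ (7/4 : ℝ) * (η * δ ^ (-(7/4) : ℝ)) :=
                mul_le_mul_of_nonneg_left (e2.trans m1) hδ7.le
            _ = η * (δ ^ (7/4 : ℝ) * δ ^ (-(7/4) : ℝ)) := by ring
            _ = η := by rw [e1, mul_one]
        rw [ind_of hl, ind_of ht]
        norm_num
      · rw [ind_not_of hl]
        have := ind_nonneg (R.time δ F ≤ η)
        simpa using this
    rw [e1]
    have e6 : (Ex (fun _ => (1/2:ℝ)) (R.dm δ).edges (fun F => lr (Kw (R.dm δ) m) p F *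
          ind ((R.dm δ).len F < m))) ^ 2 ≤ (1/2) ^ 2 := by
      have e7 := mul_le_mul (e3.trans e4) e5
        (Ex_nonneg (S := (R.dm δ).edges) (f := fun F => ind ((R.dm δ).len F < m) ^ 2)
          two_ok (fun F _ => sq_nonneg _)) (by norm_num)
      refine (e2.trans e7).trans ?_
      norm_num
    exact le_of_sq_le_sq e6 (by norm_num)
  have hE : (m:ℝ) / 8 ≤ Ex (fun _ => p) (R.dm δ).edges
      (fun F => ((Kw (R.dm δ) m F).card : ℝ)) := by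
    have ok : Ok (fun _ : Edg => p) := ok_of h0 h1
    have e1 : Ex (fun _ => p) (R.dm δ).edges (fun F => (m:ℝ) / 4 *
        (1 - ind ((R.dm δ).len F < m))) ≤ Ex (fun _ => p) (R.dm δ).edges
        (fun F => ((Kw (R.dm δ) m F).card : ℝ)) := by
      apply Ex_mono ok
      intro F hF
      beta_reduce
      by_cases hl : (R.dm δ).len F < m
      · rw [ind_of hl, sub_self, mul_zero]
        positivity
      · rw [ind_not_of hl, sub_zero, mul_one]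
        have e2 := nn_le hD (m := m) hF
        have e3 : nn (R.dm δ) m F = m := min_eq_left (by omega)
        rw [e3] at e2
        have h3 := hsh.w_le
        have h4 := hsh.h_le
        push_cast at h3
        have h5 : 1 ≤ S / δ := by rw [le_div_iff₀ hδ]; linarith
        have h6 : 32 * (S / δ) ≤ m / 2 := by
          have e4 : S / δ = S * δ ^ (3/4 : ℝ) * δ ^ (-(7/4) : ℝ) := by
            rw [mul_assoc, ← Real.rpow_add hδ, show (3/4 + -(7/4) : ℝ) = -1 by norm_num,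
              Real.rpow_neg_one, div_eq_mul_inv]
          have e5 : 128 * S * δ ^ (3/4 : ℝ) * δ ^ (-(7/4) : ℝ) ≤ η * δ ^ (-(7/4) : ℝ) :=
            mul_le_mul_of_nonneg_right hδη hδ74.le
          rw [e4]
          linarith
        linarith
    rw [Ex_mul_left, Ex_sub, Ex_const] at e1
    have e2 : Ex (fun _ => p) (R.dm δ).edges (fun F => ind ((R.dm δ).len F < m)) ≤ 1/2 := hshort
    have e3 : (m:ℝ) / 4 * (1/2) ≤ (m:ℝ) / 4 *
        (1 - Ex (fun _ => p) (R.dm δ).edges (fun F => ind ((R.dm δ).len F < m))) := by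
      apply mul_le_mul_of_nonneg_left _ (by positivity)
      linarith
    linarith
  have key := dd_lin hst h0 h1 m3 hm' hp hE
  have hmono := dd_mono hD h0 h1 m
  refine le_trans ?_ (key.trans hmono)
  have e1 : √(η / 2) * δ ^ (-(7/8) : ℝ) ≤ √m := by
    have e2 : √(η / 2) * δ ^ (-(7/8) : ℝ) = √(η / 2 * δ ^ (-(7/4) : ℝ)) := by
      rw [Real.sqrt_mul (by positivity)]
      congr 1
      rw [Real.sqrt_eq_rpow, ← Real.rpow_mul hδ.le]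
      norm_num
    rw [e2]
    exact Real.sqrt_le_sqrt m4
  rw [hx]
  have e3 := mul_le_mul_of_nonneg_left e1 (abs_nonneg (p - 1/2))
  calc √(η / 2) / 4000 * (|p - 1/2| * δ ^ (-(7/8) : ℝ)) =
        |p - 1/2| * (√(η / 2) * δ ^ (-(7/8) : ℝ)) / 4000 := by ring
    _ ≤ _ := by linarith

/-- Lower bound for `x ≥ 1`. -/
theorem b_five {R : Rect} {κ S δ p x η : ℝ} (hS : 0 < S)
    (hδ : 0 < δ) (hδS : δ ≤ S) (hsh : (R.dm δ).Shape κ (S / δ)) (hη : 0 < η) (hη1 : η ≤ 1/4)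
    (hPr : Pr (fun _ => (1/2:ℝ)) (R.dm δ).edges (fun F => R.time δ F ≤ η) ≤ (η / 64) ^ 2)
    (hδη : 64 * S * δ ^ (3/4 : ℝ) ≤ η)
    (h0 : 0 < p) (h1 : p < 1) (hx : x = |p - 1/2| * δ ^ (-(7/8) : ℝ)) (hx1 : 1 ≤ x) :
    η / 64 ≤ dd (R.dm δ).edges (Ki (R.dm δ)) p := by
  have hst := stp hsh.ok (mx (R.dm δ))
  have hδ74 : 0 < δ ^ (-(7/4) : ℝ) := Real.rpow_pos_of_pos hδ _
  obtain ⟨k, hk⟩ : ∃ k : ℕ, k = ⌈η * δ ^ (-(7/4) : ℝ) / 8⌉₊ := ⟨_, rfl⟩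
  have k1 : η * δ ^ (-(7/4) : ℝ) / 8 ≤ k := by rw [hk]; exact Nat.le_ceil _
  have k2 : (k:ℝ) ≤ η * δ ^ (-(7/4) : ℝ) / 8 + 1 := by
    rw [hk]; exact (Nat.ceil_lt_add_one (by positivity)).le
  have a1 := dd_ge hst h0 h1
  have a2 := aff_up hst h0 h1 k
  have a3 : Real.exp (-((p - 1/2) ^ 2 * k / 2)) ≤ 1 - η / 32 := by
    have e2 : x ^ 2 = (p - 1/2) ^ 2 * δ ^ (-(7/4) : ℝ) := by rw [hx]; exact x_sq hδ
    have e3 := mul_le_mul_of_nonneg_left k1 (sq_nonneg (p - 1/2))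
    have e4 : η / 16 ≤ (p - 1/2) ^ 2 * k / 2 := by
      have e5 : (p - 1/2) ^ 2 * (η * δ ^ (-(7/4) : ℝ) / 8) = η / 8 * x ^ 2 := by rw [e2]; ring
      have e6 : 1 ≤ x ^ 2 := one_le_pow₀ hx1
      nlinarith
    have e5 : Real.exp (-((p - 1/2) ^ 2 * k / 2)) ≤ Real.exp (-(η / 16)) :=
      Real.exp_le_exp.mpr (by linarith)
    refine e5.trans ?_
    have e6 : Real.exp (-(η / 16)) * (1 + η / 16) ≤ 1 := by
      calc Real.exp (-(η / 16)) * (1 + η / 16) ≤ Real.exp (-(η / 16)) * Real.exp (η / 16) := by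
            apply mul_le_mul_of_nonneg_left _ (Real.exp_pos _).le
            linarith [Real.add_one_le_exp (η / 16)]
        _ = 1 := by rw [← Real.exp_add]; simp
    have e7 := Real.exp_pos (-(η / 16))
    by_contra hc
    rw [not_le] at hc
    have e8 : (1 - η / 32) * (1 + η / 16) < Real.exp (-(η / 16)) * (1 + η / 16) :=
      mul_lt_mul_of_pos_right hc (by linarith)
    nlinarith
  have a4 : Pr (fun _ => (1/2:ℝ)) (R.dm δ).edges (fun F => (Ki (R.dm δ) F).card < k) ≤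
      (η / 64) ^ 2 := by
    refine le_trans (Pr_mono two_ok fun F hF hK => ?_) hPr
    exact few hS hδ hδS hsh hδη k2 hF hK
  have a5 : √(Pr (fun _ => (1/2:ℝ)) (R.dm δ).edges (fun F => (Ki (R.dm δ) F).card < k)) ≤
      η / 64 := by
    rw [← Real.sqrt_sq (show 0 ≤ η / 64 by positivity)]
    exact Real.sqrt_le_sqrt a4
  linarith

end K3h14.TV
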