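import Pool.Agent.K3h14.TV.Path
import Pool.Agent.H984R4.NP.Moments

/-!
The number of examined edges is comparable with the number of steps.
-/

set_option autoImplicit false

namespace K3h14.TV

open H974 Finset H342P H984P H984N

theorem card_Kw_le_nn (D : Dm) (m : ℕ) (F : Finset Edg) : (Kw D m F).card ≤ nn D m F := by
  classical
  have h1 : Kw D m F ⊆ Exm (D.cfg F) D.start (nn D m F) := fun e he => (mem_Kw.mp he).1
  refine (Finset.card_le_card h1).trans ?_
  unfold Exm
  exact Finset.card_image_le.trans (by rw [Finset.card_range])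

theorem card_Kw_le (D : Dm) (m : ℕ) (F : Finset Edg) : (Kw D m F).card ≤ m :=
  (card_Kw_le_nn D m F).trans (min_le_left _ _)

theorem card_Kw_len (D : Dm) (m : ℕ) (F : Finset Edg) : (Kw D m F).card ≤ D.len F :=
  (card_Kw_le_nn D m F).trans (min_le_right _ _)

/-- The boundary states. -/
noncomputable def bst (D : Dm) : Finset St :=
  ((({D.l, D.r} : Finset ℤ) ×ˢ Finset.Icc 0 D.h) ∪
    (Finset.Icc D.l D.r ×ˢ ({0, D.h} : Finset ℤ))) ×ˢ (Finset.univ : Finset Q4)

theorem bst_card {D : Dm} (hD : D.Ok) :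
    ((bst D).card : ℝ) ≤ 8 * (((D.h : ℝ) + 1) + ((D.r : ℝ) - D.l + 1)) := by
  obtain ⟨h1, h2, h3, h4, h5⟩ := hD
  have e1 : (({D.l, D.r} : Finset ℤ) ×ˢ Finset.Icc 0 D.h).card ≤ 2 * (D.h + 1).toNat := by
    rw [Finset.card_product, Int.card_Icc]
    have : ({D.l, D.r} : Finset ℤ).card ≤ 2 := Finset.card_le_two
    have e : (D.h + 1 - 0).toNat = (D.h + 1).toNat := by rw [sub_zero]
    rw [e]
    exact Nat.mul_le_mul_right _ this
  have e2 : (Finset.Icc D.l D.r ×ˢ ({0, D.h} : Finset ℤ)).card ≤ 2 * (D.r + 1 - D.l).toNat := by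
    rw [Finset.card_product, Int.card_Icc, mul_comm]
    have : ({0, D.h} : Finset ℤ).card ≤ 2 := Finset.card_le_two
    exact Nat.mul_le_mul_right _ this
  have e3 : (bst D).card ≤ (2 * (D.h + 1).toNat + 2 * (D.r + 1 - D.l).toNat) * 4 := by
    unfold bst
    rw [Finset.card_product, Finset.card_univ, Moments_card]
    exact Nat.mul_le_mul_right _ ((Finset.card_union_le _ _).trans (add_le_add e1 e2))
  have e4 : ((D.h + 1).toNat : ℝ) = (D.h : ℝ) + 1 := by
    have : (((D.h + 1).toNat : ℕ) : ℤ) = D.h + 1 := Int.toNat_of_nonneg (by omega)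
    exact_mod_cast this
  have e5 : ((D.r + 1 - D.l).toNat : ℝ) = (D.r : ℝ) - D.l + 1 := by
    have : (((D.r + 1 - D.l).toNat : ℕ) : ℤ) = D.r - D.l + 1 := by
      rw [Int.toNat_of_nonneg (by omega)]; ring
    exact_mod_cast this
  have e6 : ((bst D).card : ℝ) ≤
      (((2 * (D.h + 1).toNat + 2 * (D.r + 1 - D.l).toNat) * 4 : ℕ) : ℝ) := by exact_mod_cast e3
  push_cast at e6
  rw [e4, e5] at e6
  linarith

/-- A state of the rectangle which examines a fixed edge is a boundary state. -/
theorem bst_of {D : Dm} (hD : D.Ok) {σ : St} (hσ : inR D.l D.r 0 D.h σ.1)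
    (h : ¬ (ae σ ∈ D.edges ∧ ae σ ∉ D.wir)) : σ ∈ bst D := by
  obtain ⟨h1, h2, h3, h4, h5⟩ := hD
  obtain ⟨⟨x, y⟩, q⟩ := σ
  unfold inR at hσ
  simp only at hσ
  have key : x = D.l ∨ x = D.r ∨ y = 0 ∨ y = D.h := by
    by_contra hc
    push Not at hc
    apply h
    unfold Dm.edges Dm.wir
    cases q
    · simp only [ae_ne, mem_RE_true, Set.mem_ofPred_eq]
      refine ⟨by omega, ?_⟩
      simp only [Bool.true_eq_false, false_and, false_or, true_and]
      omega
    · simp only [ae_nw, mem_RE_false, Set.mem_ofPred_eq]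
      refine ⟨by omega, ?_⟩
      simp only [Bool.false_eq_true, false_and, false_or, or_false, true_and]
      omega
    · simp only [ae_sw, mem_RE_true, Set.mem_ofPred_eq]
      refine ⟨by omega, ?_⟩
      simp only [Bool.true_eq_false, false_and, false_or, true_and]
      omega
    · simp only [ae_se, mem_RE_false, Set.mem_ofPred_eq]
      refine ⟨by omega, ?_⟩
      simp only [Bool.false_eq_true, false_and, false_or, or_false, true_and]
      omega
  unfold bst
  simp only [Finset.mem_product, Finset.mem_union, Finset.mem_insert, Finset.mem_singleton,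
    Finset.mem_Icc, Finset.mem_univ, and_true]
  omega

theorem fiber_le (A : Finset St) (e : Edg) : (A.filter (fun σ => ae σ = e)).card ≤ 2 := by
  classical
  obtain ⟨x, y, b⟩ := e
  cases b
  · have : A.filter (fun σ => ae σ = (x, y, false)) ⊆
        ({((x, y), .nw), ((x, y + 1), .se)} : Finset St) := by
      rintro ⟨⟨a, c⟩, q⟩ h
      rw [Finset.mem_filter] at h
      have h2 := h.2
      rw [Finset.mem_insert, Finset.mem_singleton]
      cases q <;> simp at h2 ⊢ <;> omega
    exact (Finset.card_le_card this).trans Finset.card_le_two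
  · have : A.filter (fun σ => ae σ = (x, y, true)) ⊆
        ({((x, y), .ne), ((x + 1, y), .sw)} : Finset St) := by
      rintro ⟨⟨a, c⟩, q⟩ h
      rw [Finset.mem_filter] at h
      have h2 := h.2
      rw [Finset.mem_insert, Finset.mem_singleton]
      cases q <;> simp at h2 ⊢ <;> omega
    exact (Finset.card_le_card this).trans Finset.card_le_two

/-- The number of steps is at most twice the number of examined edges, up to the boundary. -/
theorem nn_le {D : Dm} (hD : D.Ok) {m : ℕ} {F : Finset Edg} (hF : F ⊆ D.edges) :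
    (nn D m F : ℝ) ≤ 2 * (Kw D m F).card + 8 * (((D.h : ℝ) + 1) + ((D.r : ℝ) - D.l + 1)) := by
  classical
  obtain ⟨A, hA⟩ : ∃ A : Finset St, A = (Finset.range (nn D m F)).image (D.walk F) := ⟨_, rfl⟩
  have hcard : A.card = nn D m F := by
    rw [hA, Finset.card_image_of_injOn, Finset.card_range]
    intro i hi j hj h
    rw [Finset.coe_range, Set.mem_Iio] at hi hj
    have hlen : nn D m F ≤ D.len F := min_le_right _ _
    beta_reduce at h
    rcases lt_trichotomy i j with h1 | h1 | h1
    · exact absurd h (walk_inj hD hF h1 (by omega))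
    · exact h1
    · exact absurd h.symm (walk_inj hD hF h1 (by omega))
  have hsplit : A.card = (A.filter (fun σ => ae σ ∈ D.edges ∧ ae σ ∉ D.wir)).card +
      (A.filter (fun σ => ¬ (ae σ ∈ D.edges ∧ ae σ ∉ D.wir))).card :=
    (Finset.card_filter_add_card_filter_not _).symm
  have h1 : (A.filter (fun σ => ae σ ∈ D.edges ∧ ae σ ∉ D.wir)).card ≤
      2 * (Kw D m F).card := by
    have h2 := Finset.card_le_mul_card_image
      (s := A.filter (fun σ => ae σ ∈ D.edges ∧ ae σ ∉ D.wir)) (f := ae) 2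
      (fun e _ => fiber_le _ e)
    refine h2.trans (Nat.mul_le_mul_left _ (Finset.card_le_card ?_))
    intro e he
    rw [Finset.mem_image] at he
    obtain ⟨σ, hσ, rfl⟩ := he
    rw [Finset.mem_filter, hA, Finset.mem_image] at hσ
    obtain ⟨⟨s, hs, rfl⟩, hσ2⟩ := hσ
    rw [mem_Kw, mem_Exm]
    exact ⟨⟨s, Finset.mem_range.mp hs, rfl⟩, hσ2⟩
  have h3 : (A.filter (fun σ => ¬ (ae σ ∈ D.edges ∧ ae σ ∉ D.wir))).card ≤ (bst D).card := by
    apply Finset.card_le_card
    intro σ hσ
    rw [Finset.mem_filter, hA, Finset.mem_image] at hσ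
    obtain ⟨⟨s, hs, rfl⟩, hσ2⟩ := hσ
    exact bst_of hD (walk_in hD hF s) hσ2
  have h4 : nn D m F ≤ 2 * (Kw D m F).card + (bst D).card := by omega
  have h5 : (nn D m F : ℝ) ≤ 2 * (Kw D m F).card + (bst D).card := by exact_mod_cast h4
  have := bst_card hD
  linarith

end K3h14.TV
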