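import Pool.Agent.K3h14.TV.Asm2

/-!
Total variation distance of the laws of the path at `p` and at `1/2`: final form.
-/

set_option autoImplicit false

namespace K3h14.TV

open H974 Finset H342P H984P H984N TH992.T MeasureTheory Filter Topology

/-- The small time. -/
theorem small_eta {c C : ℝ} (hc : 0 < c) (hC : 0 < C) : ∃ η : ℝ, 0 < η ∧ η ≤ 1/4 ∧
    C * Real.exp (-(c * η ^ (-(4/3) : ℝ))) ≤ (η / 64) ^ 2 := by
  obtain ⟨η, hη⟩ : ∃ η, η = min (1/4) (c ^ 3 / (24576 * C)) := ⟨_, rfl⟩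
  have hη0 : 0 < η := by rw [hη]; exact lt_min (by norm_num) (by positivity)
  have h1 : η ≤ 1/4 := by rw [hη]; exact min_le_left _ _
  have h2 : η ≤ c ^ 3 / (24576 * C) := by rw [hη]; exact min_le_right _ _
  refine ⟨η, hη0, h1, ?_⟩
  obtain ⟨y, hy⟩ : ∃ y, y = c * η ^ (-(4/3) : ℝ) := ⟨_, rfl⟩
  have hη43 : 0 < η ^ (-(4/3) : ℝ) := Real.rpow_pos_of_pos hη0 _
  have hy0 : 0 < y := by rw [hy]; positivity
  have h3 : y ^ 3 / 6 ≤ Real.exp y := by
    have h := Real.sum_le_exp_of_nonneg hy0.le 4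
    simp only [Finset.sum_range_succ, Finset.sum_range_zero, Nat.factorial] at h
    norm_num at h
    nlinarith [sq_nonneg y]
  have h4 : y ^ 3 = c ^ 3 * (η ^ 4)⁻¹ := by
    rw [hy, mul_pow]
    congr 1
    rw [← Real.rpow_natCast (η ^ (-(4/3) : ℝ)) 3, ← Real.rpow_mul hη0.le,
      show (-(4/3) * ((3:ℕ) : ℝ) : ℝ) = -((4:ℕ):ℝ) by norm_num, Real.rpow_neg hη0.le,
      Real.rpow_natCast]
  rw [← hy]
  have h5 : Real.exp (-y) ≤ 6 * η ^ 4 / c ^ 3 := by
    rw [Real.exp_neg]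
    have h6 : 0 < y ^ 3 / 6 := by positivity
    calc (Real.exp y)⁻¹ ≤ (y ^ 3 / 6)⁻¹ := inv_anti₀ h6 h3
      _ = 6 * η ^ 4 / c ^ 3 := by rw [h4]; field_simp
  have h6 : C * (6 * η ^ 4 / c ^ 3) ≤ (η / 64) ^ 2 := by
    have h7 : η ^ 2 ≤ c ^ 3 / (24576 * C) := by nlinarith
    rw [le_div_iff₀ (by positivity)] at h7
    have e1 : C * (6 * η ^ 4 / c ^ 3) = (η ^ 2 * (24576 * C)) * (η ^ 2 / (4096 * c ^ 3)) := by
      field_simp
      ring
    rw [e1]
    calc (η ^ 2 * (24576 * C)) * (η ^ 2 / (4096 * c ^ 3)) ≤ c ^ 3 * (η ^ 2 / (4096 * c ^ 3)) :=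
          mul_le_mul_of_nonneg_right h7 (by positivity)
      _ = (η / 64) ^ 2 := by field_simp; ring
  exact (mul_le_mul_of_nonneg_left h5 hC.le).trans h6

theorem tv_main (R : Rect) : ∃ c C h0 δ0 : ℝ, 0 < c ∧ 0 < C ∧ 0 < h0 ∧ 0 < δ0 ∧
    ∀ δ : ℝ, 0 < δ → δ ≤ δ0 → ∀ p : ℝ, |p - 1/2| ≤ h0 →
      (c * min 1 (|p - 1/2| * δ ^ (-(7/8) : ℝ)) ≤ tvd R p δ ∧
        tvd R p δ ≤ C * (|p - 1/2| * δ ^ (-(7/8) : ℝ))) ∧
      c * Real.exp (-(C * (|p - 1/2| * δ ^ (-(7/8) : ℝ)) ^ (8/7 : ℝ))) ≤ 1 - tvd R p δ ∧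
        1 - tvd R p δ ≤ C * Real.exp (-(c * (|p - 1/2| * δ ^ (-(7/8) : ℝ)) ^ (8/7 : ℝ))) := by
  obtain ⟨Cl, δl, hCl, hδl, hlow⟩ := low_len R
  obtain ⟨cu, Cu, δu, hcu, hCu, hδu, hup⟩ := up_len R
  obtain ⟨Cm, δm, hCm, hδm, hmean⟩ := mean_len R
  obtain ⟨κ, S, δs, hκ, hS, hδs, -, hshape⟩ := R.shape
  obtain ⟨η, hη, hη1, hηP⟩ := small_eta hcu hCu
  obtain ⟨A, hA⟩ : ∃ A, A = 128 * S + Cu + Cl := ⟨_, rfl⟩
  have hA0 : 0 < A := by rw [hA]; positivity
  obtain ⟨δ0, hδ0⟩ : ∃ δ0, δ0 = min (min (min δl δu) (min δm δs))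
    (min S (min ((η / A) ^ (4/3 : ℝ)) ((η / 2) ^ (4/7 : ℝ)))) := ⟨_, rfl⟩
  have hδ00 : 0 < δ0 := by
    rw [hδ0]
    exact lt_min (lt_min (lt_min hδl hδu) (lt_min hδm hδs))
      (lt_min hS (lt_min (by positivity) (by positivity)))
  obtain ⟨h0, hh0⟩ : ∃ h0, h0 = min (1/4) (A ^ (-(7/6) : ℝ)) := ⟨_, rfl⟩
  have hh00 : 0 < h0 := by
    rw [hh0]; exact lt_min (by norm_num) (Real.rpow_pos_of_pos hA0 _)
  have hh04 : h0 ≤ 1/4 := by rw [hh0]; exact min_le_left _ _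
  have hh0A : A ≤ h0 ^ (-(6/7) : ℝ) := by
    have h1 : h0 ≤ A ^ (-(7/6) : ℝ) := by rw [hh0]; exact min_le_right _ _
    have h2 := Real.rpow_le_rpow_of_nonpos hh00 h1 (show (-(6/7) : ℝ) ≤ 0 by norm_num)
    rw [← Real.rpow_mul hA0.le, show (-(7/6) * -(6/7) : ℝ) = 1 by norm_num, Real.rpow_one] at h2
    exact h2
  obtain ⟨c, hc⟩ : ∃ c, c = min (min (√(η / 2) / 4000) (η / 64))
    (min (min (1/16) (cu/2)) (Real.exp (-(4 * Cl + 9)))) := ⟨_, rfl⟩
  have hc0 : 0 < c := by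
    rw [hc]
    exact lt_min (lt_min (by positivity) (by positivity))
      (lt_min (lt_min (by norm_num) (by positivity)) (Real.exp_pos _))
  have c1 : c ≤ √(η / 2) / 4000 := by
    rw [hc]; exact (min_le_left _ _).trans (min_le_left _ _)
  have c2 : c ≤ η / 64 := by rw [hc]; exact (min_le_left _ _).trans (min_le_right _ _)
  have c3 : c ≤ min (1/16) (cu/2) := by
    rw [hc]; exact (min_le_right _ _).trans (min_le_left _ _)
  have c4 : c ≤ Real.exp (-(4 * Cl + 9)) := by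
    rw [hc]; exact (min_le_right _ _).trans (min_le_right _ _)
  obtain ⟨C, hC⟩ : ∃ C, C = 2 * √Cm + (1 + √Cu) + (4 * Cl + 9) + Real.exp c := ⟨_, rfl⟩
  have hsCm := Real.sqrt_nonneg Cm
  have hsCu := Real.sqrt_nonneg Cu
  have hec := Real.exp_pos c
  have C1 : 2 * √Cm ≤ C := by rw [hC]; linarith
  have C2 : 1 + √Cu ≤ C := by rw [hC]; linarith
  have C3 : 4 * Cl + 9 ≤ C := by rw [hC]; linarith
  have C4 : Real.exp c ≤ C := by rw [hC]; linarith
  have hC0 : 0 < C := by linarith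
  refine ⟨c, C, h0, δ0, hc0, hC0, hh00, hδ00, ?_⟩
  intro δ hδ hδδ p hp
  have d1 : δ ≤ δl := hδδ.trans (by
    rw [hδ0]; exact (min_le_left _ _).trans ((min_le_left _ _).trans (min_le_left _ _)))
  have d2 : δ ≤ δu := hδδ.trans (by
    rw [hδ0]; exact (min_le_left _ _).trans ((min_le_left _ _).trans (min_le_right _ _)))
  have d3 : δ ≤ δm := hδδ.trans (by
    rw [hδ0]; exact (min_le_left _ _).trans ((min_le_right _ _).trans (min_le_left _ _)))
  have d4 : δ ≤ δs := hδδ.trans (by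
    rw [hδ0]; exact (min_le_left _ _).trans ((min_le_right _ _).trans (min_le_right _ _)))
  have d5 : δ ≤ S := hδδ.trans (by rw [hδ0]; exact (min_le_right _ _).trans (min_le_left _ _))
  have d6 : δ ≤ (η / A) ^ (4/3 : ℝ) := hδδ.trans (by
    rw [hδ0]; exact (min_le_right _ _).trans ((min_le_right _ _).trans (min_le_left _ _)))
  have d7 : δ ≤ (η / 2) ^ (4/7 : ℝ) := hδδ.trans (by
    rw [hδ0]; exact (min_le_right _ _).trans ((min_le_right _ _).trans (min_le_right _ _)))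
  have hsh := hshape δ hδ d4
  have hD := hsh.ok
  have hδ34 : 0 < δ ^ (3/4 : ℝ) := Real.rpow_pos_of_pos hδ _
  have hAδ : A * δ ^ (3/4 : ℝ) ≤ η := by
    have h1 := Real.rpow_le_rpow hδ.le d6 (show (0:ℝ) ≤ 3/4 by norm_num)
    rw [pow_cancel (by positivity)] at h1
    rw [le_div_iff₀ hA0] at h1
    linarith
  have hη2 : 2 ≤ η * δ ^ (-(7/4) : ℝ) := by
    have h1 := Real.rpow_le_rpow hδ.le d7 (show (0:ℝ) ≤ 7/4 by norm_num)
    rw [← Real.rpow_mul (by positivity), show (4/7 * (7/4) : ℝ) = 1 by norm_num,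
      Real.rpow_one] at h1
    have hδ74 : 0 < δ ^ (7/4 : ℝ) := Real.rpow_pos_of_pos hδ _
    rw [Real.rpow_neg hδ.le, ← div_eq_mul_inv, le_div_iff₀ hδ74]
    linarith
  have hp' := abs_le.mp (hp.trans hh04)
  have p1 : 1/4 ≤ p := by linarith [hp'.1]
  have p2 : p ≤ 3/4 := by linarith [hp'.2]
  have p3 : 0 < p := by linarith
  have p4 : p < 1 := by linarith
  obtain ⟨x, hx⟩ : ∃ x, x = |p - 1/2| * δ ^ (-(7/8) : ℝ) := ⟨_, rfl⟩
  rw [← hx, tvd_eq hδ hD p3 p4]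
  have hδ78 : 0 < δ ^ (-(7/8) : ℝ) := Real.rpow_pos_of_pos hδ _
  have hx0 : 0 ≤ x := by rw [hx]; positivity
  have hxh : x ≤ h0 * δ ^ (-(7/8) : ℝ) := by
    rw [hx]; exact mul_le_mul_of_nonneg_right hp hδ78.le
  have i1 : 64 * S * δ ^ (3/4 : ℝ) ≤ A * δ ^ (3/4 : ℝ) := by
    apply mul_le_mul_of_nonneg_right _ hδ34.le
    rw [hA]; linarith
  have i2 : Cu * δ ^ (3/4 : ℝ) ≤ A * δ ^ (3/4 : ℝ) := by
    apply mul_le_mul_of_nonneg_right _ hδ34.le
    rw [hA]; linarith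
  have i3 : Cl * δ ^ (3/4 : ℝ) ≤ A * δ ^ (3/4 : ℝ) := by
    apply mul_le_mul_of_nonneg_right _ hδ34.le
    rw [hA]; linarith
  have i4 : 128 * S * δ ^ (3/4 : ℝ) ≤ A * δ ^ (3/4 : ℝ) := by
    apply mul_le_mul_of_nonneg_right _ hδ34.le
    rw [hA]; linarith
  have hPη : Pr (fun _ => (1/2:ℝ)) (R.dm δ).edges (fun F => R.time δ F ≤ η) ≤ (η / 64) ^ 2 :=
    (hup δ hδ d2 η (i2.trans hAδ)).trans hηP
  have hup' := hup δ hδ d2
  have hlow' := hlow δ hδ d1
  have hx87 : 0 ≤ x ^ (8/7 : ℝ) := Real.rpow_nonneg hx0 _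
  have hbig : 1 ≤ x → A * δ ^ (3/4 : ℝ) ≤ x ^ (-(6/7) : ℝ) := fun h =>
    s_ge (by linarith) hh00 hδ hxh hh0A
  refine ⟨⟨?_, ?_⟩, ?_, ?_⟩
  · rcases le_total x 1 with h | h
    · rw [min_eq_right h]
      refine le_trans (mul_le_mul_of_nonneg_right c1 hx0) ?_
      exact b_four hS hδ d5 hsh hη hη1 (hPη.trans (by nlinarith)) (i4.trans hAδ) hη2 p3 p4 hx h
    · rw [min_eq_left h, mul_one]
      exact c2.trans (b_five hS hδ d5 hsh hη hη1 hPη (i1.trans hAδ) p3 p4 hx h)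
  · have := b_one hCm hδ hD (hmean δ hδ d3) p1 p2
    rw [← hx] at this
    exact this.trans (mul_le_mul_of_nonneg_right C1 hx0)
  · have key : Real.exp (-((4 * Cl + 9) * (max 1 x) ^ (8/7 : ℝ))) ≤
        1 - dd (R.dm δ).edges (Ki (R.dm δ)) p := by
      apply b_three hCl hδ hD hlow' p1 p2 hx (le_max_right _ _) (le_max_left _ _)
      rcases le_total x 1 with h | h
      · rw [max_eq_left h, Real.one_rpow]
        linarith
      · rw [max_eq_right h]
        exact i3.trans (hbig h)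
    refine le_trans ?_ key
    have e1 : (max 1 x) ^ (8/7 : ℝ) ≤ 1 + x ^ (8/7 : ℝ) := by
      rcases le_total x 1 with h | h
      · rw [max_eq_left h, Real.one_rpow]; linarith
      · rw [max_eq_right h]; linarith
    calc c * Real.exp (-(C * x ^ (8/7 : ℝ))) ≤
          Real.exp (-(4 * Cl + 9)) * Real.exp (-((4 * Cl + 9) * x ^ (8/7 : ℝ))) := by
          apply mul_le_mul c4 _ (Real.exp_pos _).le (Real.exp_pos _).le
          apply Real.exp_le_exp.mpr
          apply neg_le_neg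
          exact mul_le_mul_of_nonneg_right C3 hx87
      _ = Real.exp (-((4 * Cl + 9) * (1 + x ^ (8/7 : ℝ)))) := by
          rw [← Real.exp_add]
          congr 1
          ring
      _ ≤ _ := by
          apply Real.exp_le_exp.mpr
          apply neg_le_neg
          exact mul_le_mul_of_nonneg_left e1 (by linarith)
  · rcases le_total x 1 with h | h
    · have h1 := dd_nonneg (R.dm δ).edges (Ki (R.dm δ)) p
      have h2 : x ^ (8/7 : ℝ) ≤ 1 := Real.rpow_le_one hx0 h (by norm_num)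
      calc 1 - dd (R.dm δ).edges (Ki (R.dm δ)) p ≤ Real.exp c * Real.exp (-c) := by
            rw [← Real.exp_add, add_neg_cancel, Real.exp_zero]; linarith
        _ ≤ C * Real.exp (-(c * x ^ (8/7 : ℝ))) := by
            apply mul_le_mul C4 _ (Real.exp_pos _).le hC0.le
            apply Real.exp_le_exp.mpr
            apply neg_le_neg
            calc c * x ^ (8/7 : ℝ) ≤ c * 1 := mul_le_mul_of_nonneg_left h2 hc0.le
              _ = c := mul_one c
    · have h1 := b_two hS hcu hCu hδ d5 hsh hup' p3 p4 hx h (i1.trans (hbig h))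
        (i2.trans (hbig h))
      refine h1.trans ?_
      apply mul_le_mul C2 _ (Real.exp_pos _).le hC0.le
      apply Real.exp_le_exp.mpr
      apply neg_le_neg
      exact mul_le_mul_of_nonneg_right c3 hx87

theorem tvd_nonneg' {R : Rect} {p δ : ℝ} (hδ : 0 < δ) (hD : (R.dm δ).Ok) (h0 : 0 < p)
    (h1 : p < 1) : 0 ≤ tvd R p δ := by
  rw [tvd_eq hδ hD h0 h1]
  exact dd_nonneg _ _ _

/-- The thresholds. -/
theorem tv_seq {c C : ℝ} (hc : 0 < c) (hC : 0 < C) {x t : ℕ → ℝ} (hx : ∀ i, 0 ≤ x i)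
    (h1 : ∀ᶠ i in atTop, (c * min 1 (x i) ≤ t i ∧ t i ≤ C * x i) ∧
      c * Real.exp (-(C * (x i) ^ (8/7 : ℝ))) ≤ 1 - t i ∧
      1 - t i ≤ C * Real.exp (-(c * (x i) ^ (8/7 : ℝ)))) :
    (Tendsto t atTop (𝓝 0) ↔ Tendsto x atTop (𝓝 0)) ∧
      (Tendsto t atTop (𝓝 1) ↔ Tendsto x atTop atTop) := by
  refine ⟨⟨fun h => ?_, fun h => ?_⟩, ⟨fun h => ?_, fun h => ?_⟩⟩
  · rw [Metric.tendsto_atTop] at h ⊢
    intro ε hε
    obtain ⟨N1, hN1⟩ := h (c * min (1/2) (ε / 2)) (by positivity)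
    obtain ⟨N2, hN2⟩ := eventually_atTop.mp h1
    refine ⟨max N1 N2, fun i hi => ?_⟩
    have k1 := hN1 i (le_of_max_le_left hi)
    have k2 := (hN2 i (le_of_max_le_right hi)).1.1
    rw [Real.dist_eq, sub_zero] at k1 ⊢
    have k3 : c * min 1 (x i) < c * min (1/2) (ε / 2) :=
      k2.trans_lt ((le_abs_self _).trans_lt k1)
    have k4 := lt_of_mul_lt_mul_left k3 hc.le
    rw [abs_of_nonneg (hx i)]
    have k5 : min 1 (x i) < 1/2 := k4.trans_le (min_le_left _ _)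
    have k6 : min 1 (x i) < ε / 2 := k4.trans_le (min_le_right _ _)
    rcases le_total (x i) 1 with h5 | h5
    · rw [min_eq_right h5] at k6; linarith
    · rw [min_eq_left h5] at k5; linarith
  · have h2 : Tendsto (fun i => C * x i) atTop (𝓝 0) := by
      have := h.const_mul C
      rwa [mul_zero] at this
    refine squeeze_zero' ?_ ?_ h2
    · filter_upwards [h1] with i hi
      have := hx i
      have : 0 ≤ c * min 1 (x i) := by positivity
      exact this.trans hi.1.1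
    · filter_upwards [h1] with i hi
      exact hi.1.2
  · rw [tendsto_atTop]
    intro b
    obtain ⟨B, hB⟩ : ∃ B, B = max b 0 := ⟨_, rfl⟩
    have hB0 : 0 ≤ B := by rw [hB]; exact le_max_right _ _
    have hpos : 0 < c * Real.exp (-(C * B ^ (8/7 : ℝ))) := by positivity
    have h2 : ∀ᶠ i in atTop, 1 - c * Real.exp (-(C * B ^ (8/7 : ℝ))) < t i :=
      h.eventually (lt_mem_nhds (by linarith))
    filter_upwards [h1, h2] with i hi hi2
    by_contra hcon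
    rw [not_le] at hcon
    have h3 : x i ≤ B := hcon.le.trans (by rw [hB]; exact le_max_left _ _)
    have h4 : (x i) ^ (8/7 : ℝ) ≤ B ^ (8/7 : ℝ) := Real.rpow_le_rpow (hx i) h3 (by norm_num)
    have h5 : Real.exp (-(C * B ^ (8/7 : ℝ))) ≤ Real.exp (-(C * (x i) ^ (8/7 : ℝ))) := by
      apply Real.exp_le_exp.mpr
      apply neg_le_neg
      exact mul_le_mul_of_nonneg_left h4 hC.le
    have h6 := mul_le_mul_of_nonneg_left h5 hc.le
    linarith [hi.2.1]
  · have h2 : Tendsto (fun i => C * Real.exp (-(c * (x i) ^ (8/7 : ℝ)))) atTop (𝓝 0) := by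
      have h3 : Tendsto (fun i => c * (x i) ^ (8/7 : ℝ)) atTop atTop :=
        (((tendsto_rpow_atTop (show (0:ℝ) < 8/7 by norm_num)).comp h)).const_mul_atTop hc
      have h4 := (Real.tendsto_exp_neg_atTop_nhds_zero.comp h3).const_mul C
      rw [mul_zero] at h4
      exact h4
    have h5 : Tendsto (fun i => 1 - t i) atTop (𝓝 0) := by
      refine squeeze_zero' ?_ ?_ h2
      · filter_upwards [h1] with i hi
        have : 0 ≤ c * Real.exp (-(C * (x i) ^ (8/7 : ℝ))) := by positivity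
        exact this.trans hi.2.1
      · filter_upwards [h1] with i hi
        exact hi.2.2
    have h6 := h5.const_sub 1
    rw [sub_zero] at h6
    refine h6.congr (fun i => by ring)

end K3h14.TV
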