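import Pool.Agent.K3h14.TV.Aff

/-!
Linear lower bound for the total variation distance.
-/

set_option autoImplicit false

namespace K3h14.TV

open H974 Finset

variable {E : Type*} [DecidableEq E] {S : Finset E} {K : Finset E → Finset E}

/-- Number of open minus number of closed explored elements. -/
noncomputable def zz (K : Finset E → Finset E) (F : Finset E) : ℝ :=
  2 * ((F ∩ K F).card : ℝ) - ((K F).card : ℝ)

theorem ex_zz (h : Stp S K) (p : ℝ) : Ex (fun _ => p) S (zz K) =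
    (2 * p - 1) * Ex (fun _ => p) S (fun F => ((K F).card : ℝ)) := by
  unfold zz
  rw [Ex_sub, Ex_mul_left, wald h p]
  ring

theorem mes_zz (h : Stp S K) : Mes S K (zz K) := by
  intro F F' hF hF' he
  unfold zz
  rw [h.stop F F' hF hF' he, he]

theorem exp_zz (K : Finset E → Finset E) (l : ℝ) (F : Finset E) :
    Real.exp (l * zz K F) = wt K (Real.exp l) (Real.exp (-l)) F := by
  unfold zz wt
  rw [← Real.exp_nat_mul, ← Real.exp_nat_mul, ← Real.exp_add]
  congr 1
  have h3 : (((K F).card : ℝ)) = ((F ∩ K F).card : ℝ) + ((K F \ F).card : ℝ) := by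
    rw [← card_split K F]; push_cast; ring
  rw [h3]
  ring

theorem cosh_pow {m k : ℕ} (hk : k ≤ m) {l : ℝ} :
    ((Real.exp l + Real.exp (-l)) / 2) ^ k ≤ Real.exp (l ^ 2 / 2 * m) := by
  rw [← Real.cosh_eq]
  have h1 := Real.one_le_cosh l
  have h2 := Real.cosh_le_exp_half_sq l
  calc Real.cosh l ^ k ≤ Real.cosh l ^ m := pow_le_pow_right₀ h1 hk
    _ ≤ Real.exp (l ^ 2 / 2) ^ m := pow_le_pow_left₀ (by linarith) h2 m
    _ = Real.exp (l ^ 2 / 2 * m) := by rw [← Real.exp_nat_mul]; ring_nf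

theorem ex_exp (h : Stp S K) {m : ℕ} (hm : ∀ F, F ⊆ S → (K F).card ≤ m) (l : ℝ) :
    Ex (fun _ => (1/2 : ℝ)) S (fun F => Real.exp (l * zz K F)) ≤ Real.exp (l ^ 2 / 2 * m) := by
  have h1 := wt_le h (A := fun _ => True) (fun _ _ _ _ _ => rfl) (Real.exp_pos l)
    (Real.exp_pos (-l)) (M := Real.exp (l ^ 2 / 2 * m)) (Real.exp_pos _).le
    (fun F hF _ => cosh_pow (hm F hF))
  refine le_trans (le_of_eq ?_) h1
  apply Ex_congr
  intro F _
  rw [exp_zz, ind_of trivial, mul_one]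

theorem pow_four_le (z : ℝ) : z ^ 4 ≤ 24 * (Real.exp z + Real.exp (-z)) := by
  have key : ∀ y : ℝ, 0 ≤ y → y ^ 4 ≤ 24 * Real.exp y - 24 * y - 24 - 12 * y ^ 2 - 4 * y ^ 3 := by
    intro y hy
    have h := Real.sum_le_exp_of_nonneg hy 5
    simp only [Finset.sum_range_succ, Finset.sum_range_zero, Nat.factorial] at h
    norm_num at h
    nlinarith
  have key2 : ∀ y : ℝ, 0 ≤ y → 24 * (1 - y + y^2/2 - y^3/6) ≤ 24 * Real.exp (-y) := by
    intro y hy
    have h : ∀ x : ℝ, 0 ≤ x → 0 ≤ Real.exp (-x) - (1 - x + x^2/2 - x^3/6) := by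
      have hmono : MonotoneOn (fun x : ℝ => Real.exp (-x) - (1 - x + x^2/2 - x^3/6)) (Set.Ici 0) := by
        have h3 : ∀ x : ℝ, 0 ≤ x → 0 ≤ (1 - x + x^2/2) - Real.exp (-x) := by
          intro x hx
          have h4 := Real.quadratic_le_exp_of_nonneg hx
          have h5 : Real.exp x * Real.exp (-x) = 1 := by rw [← Real.exp_add]; simp
          have h6 := Real.exp_pos (-x)
          have h7 : Real.exp (-x) * (1 + x + x ^ 2 / 2) ≤ 1 := by
            calc Real.exp (-x) * (1 + x + x ^ 2 / 2) ≤ Real.exp (-x) * Real.exp x :=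
                  mul_le_mul_of_nonneg_left h4 h6.le
              _ = 1 := by rw [mul_comm]; exact h5
          by_contra hc
          push Not at hc
          have h8 : (1 - x + x^2/2) * (1 + x + x ^ 2 / 2) < 1 := by
            calc (1 - x + x^2/2) * (1 + x + x ^ 2 / 2) <
                  Real.exp (-x) * (1 + x + x ^ 2 / 2) := by
                    apply mul_lt_mul_of_pos_right _ (by positivity)
                    linarith
              _ ≤ 1 := h7
          nlinarith [sq_nonneg (x^2)]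
        apply monotoneOn_of_deriv_nonneg (convex_Ici 0)
        · fun_prop
        · fun_prop
        · intro x hx
          rw [interior_Ici, Set.mem_Ioi] at hx
          have h9 : HasDerivAt (fun x : ℝ => Real.exp (-x) - (1 - x + x^2/2 - x^3/6))
              (Real.exp (-x) * (-1) - (0 - 1 + (2 * x)/2 - (3 * x^2)/6)) x := by
            have a1 : HasDerivAt (fun x : ℝ => Real.exp (-x)) (Real.exp (-x) * (-1)) x :=
              (hasDerivAt_neg x).exp
            have a2 : HasDerivAt (fun x : ℝ => x^2/2) ((2 * x)/2) x := by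
              have := (hasDerivAt_pow 2 x).div_const 2
              simpa using this
            have a3 : HasDerivAt (fun x : ℝ => x^3/6) ((3 * x^2)/6) x := by
              have := (hasDerivAt_pow 3 x).div_const 6
              simpa using this
            exact a1.sub ((((hasDerivAt_const x (1:ℝ)).sub (hasDerivAt_id x)).add a2).sub a3)
          rw [h9.deriv]
          have := h3 x hx.le
          nlinarith
      intro x hx
      have := hmono (Set.mem_Ici.mpr le_rfl) (Set.mem_Ici.mpr hx) hx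
      simp only at this
      norm_num at this
      linarith
    have := h y hy
    linarith
  have key3 : ∀ y : ℝ, 0 ≤ y → y ^ 4 ≤ 24 * (Real.exp y + Real.exp (-y)) := by
    intro y hy
    have h1 := key y hy
    have h2 := key2 y hy
    nlinarith
  rcases le_total 0 z with hz | hz
  · exact key3 z hz
  · have := key3 (-z) (by linarith)
    rw [neg_neg] at this
    calc z ^ 4 = (-z) ^ 4 := by ring
      _ ≤ _ := this
      _ = _ := by ring

theorem exp_half_lt : Real.exp (1/2) ≤ 5/3 := by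
  have h := Real.exp_one_lt_d9
  have h2 : Real.exp (1/2) ^ 2 = Real.exp 1 := by
    rw [← Real.exp_nat_mul]; norm_num
  have h3 := Real.exp_pos (1/2 : ℝ)
  nlinarith

theorem ex_four (h : Stp S K) {m : ℕ} (hm1 : 1 ≤ m) (hm : ∀ F, F ⊆ S → (K F).card ≤ m) :
    Ex (fun _ => (1/2 : ℝ)) S (fun F => (zz K F) ^ 4) ≤ 80 * (m:ℝ) ^ 2 := by
  have m0 : (0:ℝ) < m := by exact_mod_cast hm1
  obtain ⟨l, hl⟩ : ∃ l : ℝ, l = 1 / √m := ⟨_, rfl⟩
  have hs : 0 < √(m:ℝ) := Real.sqrt_pos.mpr m0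
  have hl2 : l ^ 2 * m = 1 := by
    rw [hl, div_pow, Real.sq_sqrt m0.le]
    field_simp
  have hl0 : 0 < l := by rw [hl]; positivity
  have e1 : Ex (fun _ => (1/2 : ℝ)) S (fun F => l ^ 4 * (zz K F) ^ 4) ≤
      Ex (fun _ => (1/2 : ℝ)) S (fun F => 24 * (Real.exp (l * zz K F) +
        Real.exp ((-l) * zz K F))) := by
    apply Ex_mono ok_half
    intro F _
    have := pow_four_le (l * zz K F)
    rw [mul_pow] at this
    rw [neg_mul]
    exact this
  rw [Ex_mul_left, Ex_mul_left, Ex_add] at e1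
  have e2 := ex_exp h hm l
  have e3 := ex_exp h hm (-l)
  have e4 : l ^ 2 / 2 * m = 1/2 := by linarith
  have e5 : (-l) ^ 2 / 2 * m = 1/2 := by rw [neg_sq]; exact e4
  rw [e4] at e2
  rw [e5] at e3
  have e6 := exp_half_lt
  have e7 : l ^ 4 * Ex (fun _ => (1/2 : ℝ)) S (fun F => (zz K F) ^ 4) ≤ 80 := by linarith
  have e8 : l ^ 4 * (m:ℝ) ^ 2 = 1 := by
    calc l ^ 4 * (m:ℝ) ^ 2 = (l ^ 2 * m) ^ 2 := by ring
      _ = 1 := by rw [hl2]; norm_num
  have hm2 : (0:ℝ) < (m:ℝ) ^ 2 := by positivity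
  calc Ex (fun _ => (1/2 : ℝ)) S (fun F => (zz K F) ^ 4) =
        (l ^ 4 * (m:ℝ) ^ 2) * Ex (fun _ => (1/2 : ℝ)) S (fun F => (zz K F) ^ 4) := by
        rw [e8, one_mul]
    _ = (m:ℝ) ^ 2 * (l ^ 4 * Ex (fun _ => (1/2 : ℝ)) S (fun F => (zz K F) ^ 4)) := by ring
    _ ≤ (m:ℝ) ^ 2 * 80 := mul_le_mul_of_nonneg_left e7 hm2.le
    _ = _ := by ring

/-- The second moment of the likelihood ratio. -/
theorem ex_lr_sq (h : Stp S K) {p : ℝ} (h0 : 0 < p) (h1 : p < 1) {m : ℕ}
    (hm : ∀ F, F ⊆ S → (K F).card ≤ m) :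
    Ex (fun _ => (1/2 : ℝ)) S (fun F => (lr K p F) ^ 2) ≤ Real.exp (4 * (p - 1/2) ^ 2 * m) := by
  have h2 := wt_le h (A := fun _ => True) (fun _ _ _ _ _ => rfl) (a := (2 * p) * (2 * p))
    (b := (2 * (1 - p)) * (2 * (1 - p))) (by positivity)
    (by have : 0 < 1 - p := by linarith
        positivity)
    (M := Real.exp (4 * (p - 1/2) ^ 2 * m)) (Real.exp_pos _).le (by
      intro F hF _
      have e1 : ((2 * p) * (2 * p) + (2 * (1 - p)) * (2 * (1 - p))) / 2 =
          1 + 4 * (p - 1/2) ^ 2 := by ring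
      rw [e1]
      have e2 := Real.add_one_le_exp (4 * (p - 1/2) ^ 2)
      calc (1 + 4 * (p - 1/2) ^ 2) ^ (K F).card ≤ (1 + 4 * (p - 1/2) ^ 2) ^ m :=
            pow_le_pow_right₀ (by nlinarith [sq_nonneg (p - 1/2)]) (hm F hF)
        _ ≤ (Real.exp (4 * (p - 1/2) ^ 2)) ^ m :=
            pow_le_pow_left₀ (by positivity) (by linarith) m
        _ = _ := by rw [← Real.exp_nat_mul]; ring_nf)
  refine le_trans (le_of_eq ?_) h2
  apply Ex_congr
  intro F _
  unfold lr
  rw [sq, wt_mul, ind_of trivial, mul_one]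

theorem ex_lr_sq1 (h : Stp S K) {p : ℝ} (h0 : 0 < p) (h1 : p < 1) {m : ℕ}
    (hm : ∀ F, F ⊆ S → (K F).card ≤ m) (hp : 4 * (p - 1/2) ^ 2 * m ≤ 1) :
    Ex (fun _ => (1/2 : ℝ)) S (fun F => (lr K p F - 1) ^ 2) ≤ 8 * (p - 1/2) ^ 2 * m := by
  have e1 : Ex (fun _ => (1/2 : ℝ)) S (fun F => (lr K p F - 1) ^ 2) =
      Ex (fun _ => (1/2 : ℝ)) S (fun F => ((lr K p F) ^ 2 + 1) - 2 * lr K p F) := by
    apply Ex_congr
    intro F _
    ring
  rw [e1, Ex_sub, Ex_add, Ex_const, Ex_mul_left, ex_lr h h0 h1]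
  have e2 := ex_lr_sq h h0 h1 hm
  obtain ⟨u, hu⟩ : ∃ u, u = 4 * (p - 1/2) ^ 2 * m := ⟨_, rfl⟩
  rw [← hu] at e2 hp
  have hu0 : 0 ≤ u := by rw [hu]; positivity
  have e3 : Real.exp u ≤ 1 + 2 * u := by
    have h3 := Real.exp_bound' hu0 hp (n := 2) (by norm_num)
    norm_num [Finset.sum_range_succ, Nat.factorial] at h3
    nlinarith
  have e4 : 8 * (p - 1/2) ^ 2 * m = 2 * u := by rw [hu]; ring
  rw [e4]
  linarith

/-- Linear lower bound. -/
theorem dd_lin (h : Stp S K) {p : ℝ} (h0 : 0 < p) (h1 : p < 1) {m : ℕ} (hm1 : 1 ≤ m)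
    (hm : ∀ F, F ⊆ S → (K F).card ≤ m) (hp : 4 * (p - 1/2) ^ 2 * m ≤ 1)
    (hE : (m:ℝ) / 8 ≤ Ex (fun _ => p) S (fun F => ((K F).card : ℝ))) :
    |p - 1/2| * √m / 4000 ≤ dd S K p := by
  have m0 : (0:ℝ) < m := by exact_mod_cast hm1
  have hs : 0 < √(m:ℝ) := Real.sqrt_pos.mpr m0
  have hs2 : √(m:ℝ) ^ 2 = m := Real.sq_sqrt m0.le
  obtain ⟨a, ha⟩ : ∃ a, a = |p - 1/2| := ⟨_, rfl⟩
  have ha0 : 0 ≤ a := by rw [ha]; exact abs_nonneg _
  have ha2 : a ^ 2 = (p - 1/2) ^ 2 := by rw [ha, sq_abs]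
  -- the covariance
  have e1 : Ex (fun _ => (1/2 : ℝ)) S (fun F => (lr K p F - 1) * zz K F) =
      2 * (p - 1/2) * Ex (fun _ => p) S (fun F => ((K F).card : ℝ)) := by
    have e2 : Ex (fun _ => (1/2 : ℝ)) S (fun F => (lr K p F - 1) * zz K F) =
        Ex (fun _ => (1/2 : ℝ)) S (fun F => lr K p F * zz K F - zz K F) := by
      apply Ex_congr
      intro F _
      ring
    have e3 := ex_zz h (1/2)
    have e3' : Ex (fun _ => (1/2 : ℝ)) S (fun F => zz K F) = 0 := by
      have : Ex (fun _ => (1/2 : ℝ)) S (fun F => zz K F) = Ex (fun _ => (1/2 : ℝ)) S (zz K) := rfl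
      rw [this, e3]
      norm_num
    rw [e2, Ex_sub, ← chg_lr h (mes_zz h) p, e3']
    have e4 := ex_zz h p
    rw [sub_zero]
    calc Ex (fun _ => p) S (zz K) = _ := e4
      _ = _ := by ring
  obtain ⟨N, hN⟩ : ∃ N, N = Ex (fun _ => p) S (fun F => ((K F).card : ℝ)) := ⟨_, rfl⟩
  rw [← hN] at e1 hE
  have hN0 : 0 ≤ N := by linarith [show (0:ℝ) ≤ m / 8 by positivity]
  -- upper bound of the covariance
  have e5 : 2 * a * N ≤ Ex (fun _ => (1/2 : ℝ)) S (fun F => |lr K p F - 1| * |zz K F|) := by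
    have h2 : |2 * (p - 1/2) * N| = 2 * a * N := by
      rw [abs_mul, abs_mul, abs_of_nonneg hN0, ← ha]; norm_num
    rw [← h2, ← e1, abs_le]
    constructor
    · have h3 := Ex_mono (p := fun _ : E => (1/2 : ℝ)) ok_half (S := S)
        (f := fun F => (-1) * (|lr K p F - 1| * |zz K F|))
        (g := fun F => (lr K p F - 1) * zz K F) (by
          intro F _
          beta_reduce
          rw [← abs_mul]
          linarith [neg_abs_le ((lr K p F - 1) * zz K F)])
      rw [Ex_mul_left] at h3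
      linarith
    · apply Ex_mono ok_half
      intro F _
      rw [← abs_mul]
      exact le_abs_self _
  obtain ⟨M, hM⟩ : ∃ M : ℝ, M = 250 * √(m:ℝ) := ⟨_, rfl⟩
  have hM0 : 0 < M := by rw [hM]; positivity
  have e6 : Ex (fun _ => (1/2 : ℝ)) S (fun F => |lr K p F - 1| * |zz K F|) ≤
      M * (2 * dd S K p) + 1 / M * Ex (fun _ => (1/2 : ℝ)) S
        (fun F => |lr K p F - 1| * (zz K F) ^ 2) := by
    have e7 : Ex (fun _ => (1/2 : ℝ)) S (fun F => |lr K p F - 1|) = 2 * dd S K p := by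
      have h2 := ex_max_neg h h0 h1
      have h3 : Ex (fun _ => (1/2 : ℝ)) S
          (fun F => max (lr K p F - 1) 0 + max (1 - lr K p F) 0) =
          Ex (fun _ => (1/2 : ℝ)) S (fun F => |lr K p F - 1|) := by
        apply Ex_congr
        intro F _
        rcases le_total (lr K p F) 1 with h5 | h5
        · rw [max_eq_right (by linarith), max_eq_left (by linarith), abs_of_nonpos (by linarith)]
          ring
        · rw [max_eq_left (by linarith), max_eq_right (by linarith), abs_of_nonneg (by linarith)]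
          ring
      rw [Ex_add, h2] at h3
      rw [← h3]
      unfold dd
      ring
    rw [← e7, ← Ex_mul_left, ← Ex_mul_left, ← Ex_add]
    apply Ex_mono ok_half
    intro F _
    have h2 : |zz K F| ≤ M + 1 / M * (zz K F) ^ 2 := by
      rw [← sq_abs (zz K F)]
      obtain ⟨y, hy⟩ : ∃ y, y = |zz K F| := ⟨_, rfl⟩
      have hy0 : 0 ≤ y := by rw [hy]; exact abs_nonneg _
      rw [← hy]
      rcases le_total y M with h3 | h3
      · have : 0 ≤ 1 / M * y ^ 2 := by positivity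
        linarith
      · have h4 : y ≤ 1 / M * y ^ 2 := by
          rw [one_div, inv_mul_eq_div, le_div_iff₀ hM0]
          nlinarith
        linarith
    have h3 := mul_le_mul_of_nonneg_left h2 (abs_nonneg (lr K p F - 1))
    linarith
  have e8 : Ex (fun _ => (1/2 : ℝ)) S (fun F => |lr K p F - 1| * (zz K F) ^ 2) ≤
      26 * a * (m:ℝ) * √(m:ℝ) := by
    have h2 := Ex_cs (p := fun _ : E => (1/2 : ℝ)) ok_half S (fun F => |lr K p F - 1|)
      (fun F => (zz K F) ^ 2)
    have h3 : Ex (fun _ => (1/2 : ℝ)) S (fun F => |lr K p F - 1| ^ 2) ≤ 8 * a ^ 2 * m := by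
      rw [ha2]
      refine le_trans (le_of_eq ?_) (ex_lr_sq1 h h0 h1 hm hp)
      apply Ex_congr
      intro F _
      rw [sq_abs]
    have h4 : Ex (fun _ => (1/2 : ℝ)) S (fun F => ((zz K F) ^ 2) ^ 2) ≤ 80 * (m:ℝ) ^ 2 := by
      refine le_trans (le_of_eq ?_) (ex_four h hm1 hm)
      apply Ex_congr
      intro F _
      ring
    have h5 : (Ex (fun _ => (1/2 : ℝ)) S (fun F => |lr K p F - 1| * (zz K F) ^ 2)) ^ 2 ≤
        (26 * a * (m:ℝ) * √(m:ℝ)) ^ 2 := by
      refine h2.trans ?_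
      calc _ ≤ (8 * a ^ 2 * m) * (80 * (m:ℝ) ^ 2) := by
            apply mul_le_mul h3 h4 _ (by positivity)
            exact Ex_nonneg ok_half (fun F _ => sq_nonneg _)
        _ = 640 * a ^ 2 * (m:ℝ) ^ 3 := by ring
        _ ≤ 676 * a ^ 2 * (m:ℝ) ^ 3 := by
            have : 0 ≤ a ^ 2 * (m:ℝ) ^ 3 := by positivity
            linarith
        _ = (26 * a * (m:ℝ)) ^ 2 * √(m:ℝ) ^ 2 := by rw [hs2]; ring
        _ = _ := by ring
    exact le_of_sq_le_sq h5 (by positivity)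
  -- conclusion
  have e9 : 2 * a * ((m:ℝ) / 8) ≤ M * (2 * dd S K p) + 1 / M * (26 * a * (m:ℝ) * √(m:ℝ)) := by
    have h2 : 2 * a * ((m:ℝ) / 8) ≤ 2 * a * N := mul_le_mul_of_nonneg_left hE (by positivity)
    have h3 : 1 / M * Ex (fun _ => (1/2 : ℝ)) S (fun F => |lr K p F - 1| * (zz K F) ^ 2) ≤
        1 / M * (26 * a * (m:ℝ) * √(m:ℝ)) := mul_le_mul_of_nonneg_left e8 (by positivity)
    linarith
  have e10 : 1 / M * (26 * a * (m:ℝ) * √(m:ℝ)) = 26 / 250 * a * m := by
    rw [hM]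
    field_simp
  rw [e10, hM] at e9
  have e11 : a * m * (1/4 - 26/250) ≤ 500 * √(m:ℝ) * dd S K p := by linarith
  have e12 : a * m = (a * √(m:ℝ)) * √(m:ℝ) := by
    calc a * m = a * √(m:ℝ) ^ 2 := by rw [hs2]
      _ = _ := by ring
  rw [e12] at e11
  have e13 : (a * √(m:ℝ)) * (1/4 - 26/250) ≤ 500 * dd S K p := by
    have : ((a * √(m:ℝ)) * (1/4 - 26/250)) * √(m:ℝ) ≤ (500 * dd S K p) * √(m:ℝ) := by
      linarith
    exact le_of_mul_le_mul_right this hs
  rw [← ha]
  have : 0 ≤ a * √(m:ℝ) := by positivity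
  linarith

end K3h14.TV
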