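import Pool.Agent.K3h14.TV.TubePr
import Pool.Agent.Y985.ME.Top

/-!
Bounds for the natural time of the path at mesh `δ`.
-/

set_option autoImplicit false

namespace K3h14.TV

open H974 Finset H342P H984P H984N TH992.T

theorem pow_cancel {s : ℝ} (hs : 0 ≤ s) : (s ^ (4/3 : ℝ)) ^ (3/4 : ℝ) = s := by
  rw [← Real.rpow_mul hs]; norm_num

theorem pow_cancel' {s : ℝ} (hs : 0 ≤ s) : (s ^ (3/4 : ℝ)) ^ (4/3 : ℝ) = s := by
  rw [← Real.rpow_mul hs]; norm_num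

/-- Lower bound for the probability that the path is short. -/
theorem low_len (R : Rect) : ∃ C δ0 : ℝ, 0 < C ∧ 0 < δ0 ∧ ∀ δ : ℝ, 0 < δ → δ ≤ δ0 →
    ∀ s : ℝ, C * δ ^ (3/4 : ℝ) ≤ s → s ≤ 1 →
      Real.exp (-(C * s ^ (-(4/3) : ℝ))) ≤
        Pr (fun _ => (1/2:ℝ)) (R.dm δ).edges (fun F => R.time δ F ≤ s) := by
  obtain ⟨-, ⟨C0, hC0, hU⟩, -⟩ := Pool.Agent.Y985.ME.inputs
  obtain ⟨θ, K, hθ, hK, hsh⟩ := short_pr hC0 hU
  obtain ⟨κ, S, δ1, hκ, hS, hδ1, -, hshape⟩ := R.shape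
  have hT : 0 < R.t + R.A := by linarith [R.ht1]
  obtain ⟨ρ4, hρ4⟩ : ∃ ρ4, ρ4 = (1 / (θ * (2 * S + 1))) ^ (4/3 : ℝ) := ⟨_, rfl⟩
  have hρ40 : 0 < ρ4 := by rw [hρ4]; positivity
  obtain ⟨ρ, hρ⟩ : ∃ ρ, ρ = min (min 1 (κ * S)) (min ((R.t + R.A) / 2) ρ4) := ⟨_, rfl⟩
  have hρ0 : 0 < ρ := by
    rw [hρ]; exact lt_min (lt_min one_pos (by positivity)) (lt_min (by positivity) hρ40)
  have r1 : ρ ≤ 1 := by rw [hρ]; exact (min_le_left _ _).trans (min_le_left _ _)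
  have r2 : ρ ≤ κ * S := by rw [hρ]; exact (min_le_left _ _).trans (min_le_right _ _)
  have r3 : ρ ≤ (R.t + R.A) / 2 := by rw [hρ]; exact (min_le_right _ _).trans (min_le_left _ _)
  have r4 : ρ ≤ ρ4 := by rw [hρ]; exact (min_le_right _ _).trans (min_le_right _ _)
  have r5 : θ * (2 * S + 1) * ρ ^ (3/4 : ℝ) ≤ 1 := by
    have h1 : ρ ^ (3/4 : ℝ) ≤ ρ4 ^ (3/4 : ℝ) := Real.rpow_le_rpow hρ0.le r4 (by norm_num)
    rw [hρ4, pow_cancel (by positivity)] at h1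
    calc θ * (2 * S + 1) * ρ ^ (3/4 : ℝ) ≤ θ * (2 * S + 1) * (1 / (θ * (2 * S + 1))) :=
          mul_le_mul_of_nonneg_left h1 (by positivity)
      _ = 1 := by field_simp
  obtain ⟨C, hC⟩ : ∃ C, C = 1 / ρ + K * (2 * S / ρ + 1) := ⟨_, rfl⟩
  have hCρ : 1 / ρ ≤ C := by rw [hC]; linarith [show (0:ℝ) ≤ K * (2 * S / ρ + 1) by positivity]
  have hCK : K * (2 * S / ρ + 1) ≤ C := by rw [hC]; linarith [show (0:ℝ) ≤ 1 / ρ by positivity]
  have hρinv : 1 ≤ 1 / ρ := by rw [le_div_iff₀ hρ0]; linarith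
  have hC1 : 1 ≤ C := hρinv.trans hCρ
  refine ⟨C, min δ1 ((R.t + R.A) / 4), by linarith, lt_min hδ1 (by positivity), ?_⟩
  intro δ hδ hδδ s hs hs1
  have hδ1' : δ ≤ δ1 := hδδ.trans (min_le_left _ _)
  have hδ2 : δ ≤ (R.t + R.A) / 4 := hδδ.trans (min_le_right _ _)
  have hsh' := hshape δ hδ hδ1'
  have hD := hsh'.ok
  have hδ34 : 0 < δ ^ (3/4 : ℝ) := Real.rpow_pos_of_pos hδ _
  have hs0 : 0 < s := lt_of_lt_of_le (by positivity) hs
  obtain ⟨z, hz⟩ : ∃ z, z = ρ * s ^ (4/3 : ℝ) := ⟨_, rfl⟩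
  have hs43 : 0 < s ^ (4/3 : ℝ) := Real.rpow_pos_of_pos hs0 _
  have hs43' : s ^ (4/3 : ℝ) ≤ 1 := Real.rpow_le_one hs0.le hs1 (by norm_num)
  have hz0 : 0 < z := by rw [hz]; positivity
  have hzρ : z ≤ ρ := by
    rw [hz]
    calc ρ * s ^ (4/3 : ℝ) ≤ ρ * 1 := mul_le_mul_of_nonneg_left hs43' hρ0.le
      _ = ρ := mul_one _
  have hz1 : z ≤ 1 := hzρ.trans r1
  have hzδ : δ ≤ z := by
    have h1 : (C * δ ^ (3/4 : ℝ)) ^ (4/3 : ℝ) ≤ s ^ (4/3 : ℝ) :=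
      Real.rpow_le_rpow (by positivity) hs (by norm_num)
    rw [Real.mul_rpow (by positivity) hδ34.le, pow_cancel' hδ.le] at h1
    have h2 : 1 / ρ ≤ C ^ (4/3 : ℝ) := by
      calc 1 / ρ ≤ C := hCρ
        _ = C ^ (1 : ℝ) := (Real.rpow_one C).symm
        _ ≤ C ^ (4/3 : ℝ) := Real.rpow_le_rpow_of_exponent_le hC1 (by norm_num)
    have h3 : 1 / ρ * δ ≤ s ^ (4/3 : ℝ) := (mul_le_mul_of_nonneg_right h2 hδ.le).trans h1
    rw [hz]
    calc δ = ρ * (1 / ρ * δ) := by field_simp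
      _ ≤ ρ * s ^ (4/3 : ℝ) := mul_le_mul_of_nonneg_left h3 hρ0.le
  -- the width
  obtain ⟨w, hw⟩ : ∃ w : ℕ, w = ⌊z / δ⌋₊ := ⟨_, rfl⟩
  have hzd1 : 1 ≤ z / δ := by rw [le_div_iff₀ hδ]; linarith
  have w1 : (w:ℝ) ≤ z / δ := by rw [hw]; exact Nat.floor_le (by positivity)
  have w2 : z / δ < w + 1 := by rw [hw]; exact Nat.lt_floor_add_one _
  have w3 : 1 ≤ w := by
    rw [hw]
    exact (Nat.one_le_floor_iff _).mpr hzd1
  have w3r : (1:ℝ) ≤ w := by exact_mod_cast w3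
  have w4 : z / δ ≤ 2 * w := by linarith
  have wδ : δ * w ≤ z := by
    rw [le_div_iff₀ hδ] at w1; linarith
  have wδ2 : z ≤ 2 * (δ * w) := by
    rw [div_le_iff₀ hδ] at w4; linarith
  have hwn : (w:ℝ) ≤ κ * (S / δ) := by
    have : κ * (S / δ) = (κ * S) / δ := by ring
    rw [this]
    refine w1.trans ?_
    rw [div_le_div_iff_of_pos_right hδ]
    exact hzρ.trans r2
  have g1 : (w:ℤ) ≤ (R.dm δ).h := by
    have : ((w:ℤ):ℝ) ≤ ((R.dm δ).h : ℝ) := by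
      rw [Int.cast_natCast]; exact hwn.trans hsh'.h_ge
    exact_mod_cast this
  have g2 : (w:ℤ) ≤ (R.dm δ).r := by
    have : ((w:ℤ):ℝ) ≤ ((R.dm δ).r : ℝ) := by
      rw [Int.cast_natCast]; exact hwn.trans hsh'.r_ge
    exact_mod_cast this
  have g3 : (w:ℤ) ≤ -(R.dm δ).l := by
    have : ((w:ℤ):ℝ) ≤ ((-(R.dm δ).l : ℤ) : ℝ) := by
      rw [Int.cast_natCast]; push_cast; exact hwn.trans hsh'.l_ge
    exact_mod_cast this
  have g4 : (R.dm δ).l + w ≤ (R.dm δ).t := by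
    have e1 : ((R.dm δ).l : ℝ) ≤ -(R.A / δ) + 1 := by
      have : (R.dm δ).l = ⌊-(R.A / δ)⌋ + 1 := rfl
      rw [this]
      push_cast
      have := Int.floor_le (-(R.A / δ))
      linarith
    have e2 : R.t / δ - 1 ≤ ((R.dm δ).t : ℝ) := by
      have : (R.dm δ).t = ⌊R.t / δ⌋ := rfl
      rw [this]
      have := Int.lt_floor_add_one (R.t / δ)
      linarith
    have e3 : (w:ℝ) ≤ (R.t + R.A) / 2 / δ := by
      refine w1.trans ?_
      rw [div_le_div_iff_of_pos_right hδ]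
      exact hzρ.trans r3
    have e4 : 2 ≤ (R.t + R.A) / 2 / δ := by
      rw [le_div_iff₀ hδ]; linarith
    have e5 : (R.t + R.A) / 2 / δ + (R.t + R.A) / 2 / δ = R.t / δ + R.A / δ := by ring
    have : (((R.dm δ).l + w : ℤ) : ℝ) ≤ ((R.dm δ).t : ℝ) := by push_cast; linarith
    exact_mod_cast this
  -- the number of boxes
  obtain ⟨N, hN⟩ : ∃ N : ℕ, N = ⌊S / δ / w⌋₊ + 1 := ⟨_, rfl⟩
  have n1 : S / δ < N * w := by
    have := Nat.lt_floor_add_one (S / δ / w)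
    rw [div_lt_iff₀ (by linarith)] at this
    rw [hN]; push_cast; exact this
  have n2 : (N:ℝ) ≤ S / δ / w + 1 := by
    rw [hN]; push_cast
    have := Nat.floor_le (show 0 ≤ S / δ / w by positivity)
    linarith
  have n3 : (N:ℝ) ≤ 2 * S / z + 1 := by
    refine n2.trans ?_
    have : S / δ / w ≤ 2 * S / z := by
      rw [div_div, div_le_div_iff₀ (by positivity) hz0]
      have := mul_le_mul_of_nonneg_left wδ2 hS.le
      linarith
    linarith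
  have g5 : (R.dm δ).r - (R.dm δ).l < N * w := by
    have : (((R.dm δ).r - (R.dm δ).l : ℤ) : ℝ) < ((N * w : ℤ) : ℝ) := by
      have := hsh'.w_le
      push_cast at this ⊢
      linarith
    exact_mod_cast this
  have g6 : (R.dm δ).h < N * w := by
    have : ((R.dm δ).h : ℝ) < ((N * w : ℤ) : ℝ) := by
      have := hsh'.h_le
      push_cast
      linarith
    exact_mod_cast this
  have key := hsh (R.dm δ) hD w N w3 g1 g2 g3 g4 g5 g6
  refine le_trans ?_ (key.trans (Pr_mono two_ok fun F hF hx => ?_))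
  · apply Real.exp_le_exp.mpr
    apply neg_le_neg
    have e1 : s ^ (-(4/3) : ℝ) = (s ^ (4/3 : ℝ))⁻¹ := Real.rpow_neg hs0.le _
    have e2 : 1 ≤ (s ^ (4/3 : ℝ))⁻¹ := (one_le_inv₀ hs43).mpr hs43'
    have e3 : 2 * S / z + 1 ≤ (2 * S / ρ + 1) * (s ^ (4/3 : ℝ))⁻¹ := by
      have : 2 * S / z = 2 * S / ρ * (s ^ (4/3 : ℝ))⁻¹ := by
        rw [hz]; field_simp
      rw [this]
      linarith
    rw [e1]
    calc K * N ≤ K * ((2 * S / ρ + 1) * (s ^ (4/3 : ℝ))⁻¹) :=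
          mul_le_mul_of_nonneg_left (n3.trans e3) hK.le
      _ = (K * (2 * S / ρ + 1)) * (s ^ (4/3 : ℝ))⁻¹ := by ring
      _ ≤ C * (s ^ (4/3 : ℝ))⁻¹ := mul_le_mul_of_nonneg_right hCK (by positivity)
  · unfold Rect.time
    have hδ74 : 0 < δ ^ (7/4 : ℝ) := Real.rpow_pos_of_pos hδ _
    have hz34 : 0 < z ^ (3/4 : ℝ) := Real.rpow_pos_of_pos hz0 _
    have e1 : δ ^ (7/4 : ℝ) * (w:ℝ) ^ (7/4 : ℝ) ≤ z * z ^ (3/4 : ℝ) := by
      rw [← Real.mul_rpow hδ.le (by positivity)]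
      have e2 : z * z ^ (3/4 : ℝ) = z ^ (7/4 : ℝ) := by
        rw [show (7/4 : ℝ) = 1 + 3/4 by norm_num, Real.rpow_add hz0, Real.rpow_one]
      rw [e2]
      exact Real.rpow_le_rpow (by positivity) wδ (by norm_num)
    have e3 : z ^ (3/4 : ℝ) = ρ ^ (3/4 : ℝ) * s := by
      rw [hz, Real.mul_rpow hρ0.le hs43.le, pow_cancel hs0.le]
    calc δ ^ (7/4 : ℝ) * ((R.dm δ).len F : ℝ) ≤ δ ^ (7/4 : ℝ) * (θ * N * (w:ℝ) ^ (7/4 : ℝ)) :=
          mul_le_mul_of_nonneg_left hx hδ74.le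
      _ = θ * N * (δ ^ (7/4 : ℝ) * (w:ℝ) ^ (7/4 : ℝ)) := by ring
      _ ≤ θ * (2 * S / z + 1) * (z * z ^ (3/4 : ℝ)) := by
          apply mul_le_mul _ e1 (by positivity) (by positivity)
          exact mul_le_mul_of_nonneg_left n3 hθ.le
      _ = θ * (2 * S + z) * z ^ (3/4 : ℝ) := by field_simp
      _ ≤ θ * (2 * S + 1) * z ^ (3/4 : ℝ) := by
          apply mul_le_mul_of_nonneg_right _ hz34.le
          exact mul_le_mul_of_nonneg_left (by linarith) hθ.le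
      _ = (θ * (2 * S + 1) * ρ ^ (3/4 : ℝ)) * s := by rw [e3]; ring
      _ ≤ 1 * s := mul_le_mul_of_nonneg_right r5 hs0.le
      _ = s := one_mul s

/-- Upper bound for the probability that the path is short. -/
theorem up_len (R : Rect) : ∃ c C δ0 : ℝ, 0 < c ∧ 0 < C ∧ 0 < δ0 ∧ ∀ δ : ℝ, 0 < δ → δ ≤ δ0 →
    ∀ s : ℝ, C * δ ^ (3/4 : ℝ) ≤ s →
      Pr (fun _ => (1/2:ℝ)) (R.dm δ).edges (fun F => R.time δ F ≤ s) ≤
        C * Real.exp (-(c * s ^ (-(4/3) : ℝ))) := by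
  obtain ⟨κ, S, δ1, hκ, hS, hδ1, -, hshape⟩ := R.shape
  obtain ⟨c, C, hc, hC, hf⟩ := Pool.Agent.Y985.ME.s_fast κ hκ
  obtain ⟨u, hu⟩ : ∃ u, u = κ * S := ⟨_, rfl⟩
  have hu0 : 0 < u := by rw [hu]; positivity
  obtain ⟨s1, hs1⟩ : ∃ s1, s1 = u ^ (7/4 : ℝ) := ⟨_, rfl⟩
  have hs10 : 0 < s1 := by rw [hs1]; positivity
  obtain ⟨c', hc'⟩ : ∃ c', c' = c * s1 ^ (4/3 : ℝ) := ⟨_, rfl⟩
  have hc'0 : 0 < c' := by rw [hc']; positivity
  obtain ⟨C', hC'⟩ : ∃ C', C' = C * (1 / κ) ^ 2 + Real.exp (c' * s1 ^ (-(4/3) : ℝ)) +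
    C ^ (3/4 : ℝ) * u := ⟨_, rfl⟩
  have hC3 : 0 < C ^ (3/4 : ℝ) := Real.rpow_pos_of_pos hC _
  have k1 : C * (1 / κ) ^ 2 ≤ C' := by
    rw [hC']
    have := Real.exp_pos (c' * s1 ^ (-(4/3) : ℝ))
    have : 0 < C ^ (3/4 : ℝ) * u := by positivity
    linarith
  have k2 : Real.exp (c' * s1 ^ (-(4/3) : ℝ)) ≤ C' := by
    rw [hC']
    have : 0 < C ^ (3/4 : ℝ) * u := by positivity
    have : 0 < C * (1 / κ) ^ 2 := by positivity
    linarith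
  have k3 : C ^ (3/4 : ℝ) * u ≤ C' := by
    rw [hC']
    have := Real.exp_pos (c' * s1 ^ (-(4/3) : ℝ))
    have : 0 < C * (1 / κ) ^ 2 := by positivity
    linarith
  have hC'0 : 0 < C' := lt_of_lt_of_le (by positivity) k1
  refine ⟨c', C', δ1, hc'0, hC'0, hδ1, ?_⟩
  intro δ hδ hδδ s hs
  have hδ34 : 0 < δ ^ (3/4 : ℝ) := Real.rpow_pos_of_pos hδ _
  have hs0 : 0 < s := lt_of_lt_of_le (by positivity) hs
  rcases le_or_gt s s1 with hss | hss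
  · have hsh := hshape δ hδ hδδ
    have hD := hsh.ok
    obtain ⟨y, hy⟩ : ∃ y, y = κ * (S / δ) := ⟨_, rfl⟩
    have hyu : y = u / δ := by rw [hy, hu]; ring
    have hy0 : 0 < y := by rw [hyu]; positivity
    obtain ⟨x, hx⟩ : ∃ x, x = s / s1 := ⟨_, rfl⟩
    have hx0 : 0 < x := by rw [hx]; positivity
    have hx1 : x ≤ 1 := by rw [hx, div_le_one hs10]; exact hss
    have hxp : x ^ (-(4/3) : ℝ) = s1 ^ (4/3 : ℝ) * s ^ (-(4/3) : ℝ) := by
      rw [hx, Real.div_rpow hs0.le hs10.le, Real.rpow_neg hs10.le (4/3), div_inv_eq_mul, mul_comm]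
    have hyn : y ≤ S / δ := by
      rw [hy]; exact hsh.h_ge.trans hsh.h_le
    have hCy : C * x ^ (-(4/3) : ℝ) ≤ y := by
      have h1 : C ^ (3/4 : ℝ) * u * δ ^ (3/4 : ℝ) ≤ s :=
        (mul_le_mul_of_nonneg_right k3 hδ34.le).trans hs
      have h2 := Real.rpow_le_rpow (by positivity) h1 (show (0:ℝ) ≤ 4/3 by norm_num)
      rw [Real.mul_rpow (by positivity) hδ34.le, Real.mul_rpow hC3.le hu0.le, pow_cancel' hδ.le,
        pow_cancel' hC.le] at h2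
      have h3 : s1 ^ (4/3 : ℝ) = u * u ^ (4/3 : ℝ) := by
        rw [hs1, ← Real.rpow_mul hu0.le, show (7/4 * (4/3) : ℝ) = 1 + 4/3 by norm_num,
          Real.rpow_add hu0, Real.rpow_one]
      have hs43 : 0 < s ^ (4/3 : ℝ) := Real.rpow_pos_of_pos hs0 _
      rw [hxp, h3, Real.rpow_neg hs0.le, hyu, le_div_iff₀ hδ]
      calc C * (u * u ^ (4/3 : ℝ) * (s ^ (4/3 : ℝ))⁻¹) * δ =
            u * ((C * u ^ (4/3 : ℝ) * δ) * (s ^ (4/3 : ℝ))⁻¹) := by ring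
        _ ≤ u * (s ^ (4/3 : ℝ) * (s ^ (4/3 : ℝ))⁻¹) := by
            apply mul_le_mul_of_nonneg_left _ hu0.le
            exact mul_le_mul_of_nonneg_right h2 (by positivity)
        _ = u := by rw [mul_inv_cancel₀ hs43.ne', mul_one]
    have h := hf (R.dm δ) (S / δ) y x hsh hx0 hx1 hCy hyn
    refine le_trans (Pr_mono two_ok fun F hF hxs => ?_) (h.trans ?_)
    · refine ⟨0, (R.dm δ).len F, Nat.zero_le _, le_rfl, ?_, ?_⟩
      · rw [walk_zero, walk_len hD hF]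
        have e1 : (R.dm δ).h ≤ sd (R.dm δ).start.1 Dm.stop.1 := by
          unfold sd Dm.start Dm.stop
          simp only [sub_zero]
          exact (le_abs_self _).trans (le_max_right _ _)
        have e2 : ((R.dm δ).h : ℝ) ≤ ((sd (R.dm δ).start.1 Dm.stop.1 : ℤ) : ℝ) := by
          exact_mod_cast e1
        rw [hy]
        exact hsh.h_ge.trans e2
      · rw [Nat.sub_zero]
        unfold Rect.time at hxs
        have hδ74 : 0 < δ ^ (7/4 : ℝ) := Real.rpow_pos_of_pos hδ _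
        have e1 : x * y ^ (7/4 : ℝ) = s / δ ^ (7/4 : ℝ) := by
          rw [hx, hyu, Real.div_rpow hu0.le hδ.le, ← hs1]
          field_simp
        rw [e1, le_div_iff₀ hδ74]
        linarith
    · have e1 : (S / δ) / y = 1 / κ := by
        rw [hy]; field_simp
      have e2 : c * x ^ (-(4/3) : ℝ) = c' * s ^ (-(4/3) : ℝ) := by
        rw [hxp, hc']; ring
      rw [e1, e2]
      exact mul_le_mul_of_nonneg_right k1 (Real.exp_pos _).le
  · refine (Pr_le_one two_ok _ _).trans ?_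
    have e1 : s ^ (-(4/3) : ℝ) ≤ s1 ^ (-(4/3) : ℝ) :=
      Real.rpow_le_rpow_of_nonpos hs10 hss.le (by norm_num)
    calc (1:ℝ) = Real.exp (c' * s1 ^ (-(4/3) : ℝ)) * Real.exp (-(c' * s1 ^ (-(4/3) : ℝ))) := by
          rw [← Real.exp_add, add_neg_cancel, Real.exp_zero]
      _ ≤ C' * Real.exp (-(c' * s ^ (-(4/3) : ℝ))) := by
          apply mul_le_mul k2 _ (Real.exp_pos _).le hC'0.le
          apply Real.exp_le_exp.mpr
          apply neg_le_neg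
          exact mul_le_mul_of_nonneg_left e1 hc'0.le

/-- The expected number of steps. -/
theorem mean_len (R : Rect) : ∃ C δ0 : ℝ, 0 < C ∧ 0 < δ0 ∧ ∀ δ : ℝ, 0 < δ → δ ≤ δ0 →
    Ex (fun _ => (1/2:ℝ)) (R.dm δ).edges (fun F => ((R.dm δ).len F : ℝ)) ≤
      C * δ ^ (-(7/4) : ℝ) := by
  obtain ⟨-, ⟨C0, hC0, hU⟩, -⟩ := Pool.Agent.Y985.ME.inputs
  obtain ⟨C, hC, h⟩ := len_moment hC0 hU
  obtain ⟨κ, S, δ1, hκ, hS, hδ1, -, hshape⟩ := R.shape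
  refine ⟨C * S ^ (7/4 : ℝ), min δ1 S, by positivity, lt_min hδ1 hS, ?_⟩
  intro δ hδ hδδ
  have hsh := hshape δ hδ (hδδ.trans (min_le_left _ _))
  have h1 := h (R.dm δ) (S / δ) hsh.ok
    (by rw [le_div_iff₀ hδ]; linarith [hδδ.trans (min_le_right _ _)]) hsh.w_le hsh.h_le
  refine le_trans (Ex_mono two_ok fun F _ => ?_) (h1.trans (le_of_eq ?_))
  · beta_reduce; linarith
  · rw [Real.div_rpow hS.le hδ.le, Real.rpow_neg hδ.le]
    ring

end K3h14.TV
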