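import Pool.Agent.K3h14.TV.Lin
import Pool.Agent.H984R4.NP.Walk
import Pool.Agent.H984R4.NP.Clu
import Pool.Agent.H984R4.NP.PL
import Pool.Agent.H984R4.NP.ModelLem

/-!
The stopped exploration path as a stopping set.
-/

set_option autoImplicit false

namespace K3h14.TV

open H974 Finset H342P H984P H984N

/-- Number of steps of the path stopped after `m` steps. -/
noncomputable def nn (D : Dm) (m : ℕ) (F : Finset Edg) : ℕ := min m (D.len F)

open Classical in
/-- The examined random edges. -/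
noncomputable def Kw (D : Dm) (m : ℕ) (F : Finset Edg) : Finset Edg :=
  (Exm (D.cfg F) D.start (nn D m F)).filter (fun e => e ∈ D.edges ∧ e ∉ D.wir)

theorem mem_Kw {D : Dm} {m : ℕ} {F : Finset Edg} {e : Edg} :
    e ∈ Kw D m F ↔ e ∈ Exm (D.cfg F) D.start (nn D m F) ∧ e ∈ D.edges ∧ e ∉ D.wir := by
  classical
  unfold Kw
  rw [Finset.mem_filter]

theorem inter_iff {F F' K : Finset Edg} (h : F ∩ K = F' ∩ K) {e : Edg} (he : e ∈ K) :
    e ∈ F ↔ e ∈ F' := by
  have := congrArg (fun s : Finset Edg => e ∈ s) h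
  simpa only [Finset.mem_inter, he, and_true, eq_iff_iff] using this

theorem agree {D : Dm} {m : ℕ} {F F' : Finset Edg} (hF : F ⊆ D.edges) (hF' : F' ⊆ D.edges)
    (h : F ∩ Kw D m F = F' ∩ Kw D m F) :
    ∀ e ∈ Exm (D.cfg F) D.start (nn D m F), (e ∈ D.cfg F ↔ e ∈ D.cfg F') := by
  intro e he
  unfold Dm.cfg
  by_cases hw : e ∈ D.wir
  · exact ⟨fun _ => Or.inr hw, fun _ => Or.inr hw⟩
  by_cases hE : e ∈ D.edges
  · have hK : e ∈ Kw D m F := mem_Kw.mpr ⟨he, hE, hw⟩
    have h2 := inter_iff h hK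
    constructor
    · rintro (h1 | h1)
      · exact Or.inl (Finset.mem_coe.mpr (h2.mp (Finset.mem_coe.mp h1)))
      · exact absurd h1 hw
    · rintro (h1 | h1)
      · exact Or.inl (Finset.mem_coe.mpr (h2.mpr (Finset.mem_coe.mp h1)))
      · exact absurd h1 hw
  · constructor
    · rintro (h1 | h1)
      · exact absurd (hF (Finset.mem_coe.mp h1)) hE
      · exact absurd h1 hw
    · rintro (h1 | h1)
      · exact absurd (hF' (Finset.mem_coe.mp h1)) hE
      · exact absurd h1 hw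

theorem walk_agree {D : Dm} {m : ℕ} {F F' : Finset Edg} (hF : F ⊆ D.edges) (hF' : F' ⊆ D.edges)
    (h : F ∩ Kw D m F = F' ∩ Kw D m F) {s : ℕ} (hs : s ≤ nn D m F) :
    D.walk F' s = D.walk F s := orb_congr (agree hF hF' h) hs

theorem nn_agree {D : Dm} (hD : D.Ok) {m : ℕ} {F F' : Finset Edg} (hF : F ⊆ D.edges)
    (hF' : F' ⊆ D.edges) (h : F ∩ Kw D m F = F' ∩ Kw D m F) : nn D m F' = nn D m F := by
  rcases le_or_gt (D.len F) m with h1 | h1
  · have e0 : nn D m F = D.len F := min_eq_right h1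
    have e1 : D.walk F' (D.len F) = Dm.stop := by
      rw [walk_agree hF hF' h e0.ge, walk_len hD hF]
    have e2 : D.len F' ≤ D.len F := Nat.sInf_le e1
    have e3 : D.len F ≤ D.len F' := by
      by_contra hc
      push Not at hc
      have h3 := walk_len hD hF'
      rw [walk_agree hF hF' h (by omega)] at h3
      exact clu_ne_stop hc h3
    unfold nn
    rw [le_antisymm e2 e3]
  · have e0 : nn D m F = m := min_eq_left h1.le
    have e1 : m ≤ D.len F' := by
      by_contra hc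
      push Not at hc
      have h3 := walk_len hD hF'
      rw [walk_agree hF hF' h (by omega)] at h3
      exact clu_ne_stop (by omega) h3
    rw [e0]
    exact min_eq_left e1

theorem stp {D : Dm} (hD : D.Ok) (m : ℕ) : Stp D.edges (Kw D m) where
  sub F _ e he := (mem_Kw.mp he).2.1
  stop F F' hF hF' h := by
    ext e
    rw [mem_Kw, mem_Kw, nn_agree hD hF hF' h, Exm_congr (agree hF hF' h)]

theorem mes_nn {D : Dm} (hD : D.Ok) (m : ℕ) : Mes D.edges (Kw D m) (nn D m) :=
  fun _ _ hF hF' h => nn_agree hD hF hF' h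

/-- The event that the path has at least `m` steps is measurable for the stopped path. -/
theorem mes_short {D : Dm} (hD : D.Ok) (m : ℕ) : Mes D.edges (Kw D m) (fun F => D.len F < m) := by
  intro F F' hF hF' h
  have h1 := nn_agree hD hF hF' h
  unfold nn at h1
  simp only [eq_iff_iff]
  omega

theorem mes_le {D : Dm} (hD : D.Ok) {m k : ℕ} (hk : k < m) :
    Mes D.edges (Kw D m) (fun F => D.len F ≤ k) := by
  intro F F' hF hF' h
  have h1 := nn_agree hD hF hF' h
  unfold nn at h1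
  simp only [eq_iff_iff]
  omega

theorem nn_mono {D : Dm} {m m' : ℕ} (h : m ≤ m') (F : Finset Edg) : nn D m F ≤ nn D m' F := by
  unfold nn
  omega

theorem Exm_mono {F : Set Edg} {σ : St} {T T' : ℕ} (h : T ≤ T') : Exm F σ T ⊆ Exm F σ T' := by
  intro e he
  rw [mem_Exm] at he ⊢
  obtain ⟨s, hs, h2⟩ := he
  exact ⟨s, by omega, h2⟩

theorem Kw_mono {D : Dm} {m m' : ℕ} (h : m ≤ m') (F : Finset Edg) : Kw D m F ⊆ Kw D m' F := by
  intro e he
  rw [mem_Kw] at he ⊢
  exact ⟨Exm_mono (nn_mono h F) he.1, he.2⟩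

/-- Measurability for the shorter path implies measurability for the longer one. -/
theorem mes_up {D : Dm} {m m' : ℕ} (h : m ≤ m') {β : Type*}
    {g : Finset Edg → β} (hg : Mes D.edges (Kw D m) g) : Mes D.edges (Kw D m') g := by
  intro F F' hF hF' he
  apply hg F F' hF hF'
  have h1 := Kw_mono (D := D) h F
  have : ∀ G : Finset Edg, G ∩ Kw D m F = (G ∩ Kw D m' F) ∩ Kw D m F := by
    intro G
    rw [Finset.inter_assoc, Finset.inter_eq_right.mpr h1]
  rw [this F, this F', he]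

/-- Bound for all the lengths. -/
noncomputable def mx (D : Dm) : ℕ := D.edges.powerset.sup D.len

theorem len_le_mx {D : Dm} {F : Finset Edg} (hF : F ⊆ D.edges) : D.len F ≤ mx D :=
  Finset.le_sup (f := D.len) (Finset.mem_powerset.mpr hF)

theorem nn_mx {D : Dm} {F : Finset Edg} (hF : F ⊆ D.edges) : nn D (mx D) F = D.len F :=
  min_eq_right (len_le_mx hF)

/-! ### The curve and the path -/

theorem pl_congr {N : ℕ} {p q : ℕ → ℂ} (h : ∀ k ≤ N, p k = q k) : pl N p = pl N q := by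
  ext s
  rw [pl_apply', pl_apply', h 0 (Nat.zero_le _)]
  congr 1
  apply Finset.sum_congr rfl
  intro k hk
  rw [Finset.mem_range] at hk
  rw [h k hk.le, h (k + 1) hk]

theorem pl_at {N : ℕ} {p : ℕ → ℂ} {k : ℕ} (hk : k ≤ N) (hN : 0 < N) :
    pl N p ⟨(k : ℝ) / N, ⟨by positivity, by
      rw [div_le_one (by exact_mod_cast hN)]
      exact_mod_cast hk⟩⟩ = p k := by
  have hN' : (0:ℝ) < N := by exact_mod_cast hN
  rcases Nat.lt_or_ge k N with h | h
  · rw [pl_seg h (by simp only; rw [div_mul_cancel₀ _ hN'.ne'])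
      (by simp only; rw [div_mul_cancel₀ _ hN'.ne']; linarith)]
    simp only
    rw [div_mul_cancel₀ _ hN'.ne']
    simp
  · have e : k = N := le_antisymm hk h
    subst e
    have : (⟨(k : ℝ) / k, ⟨by positivity, by
      rw [div_le_one (by exact_mod_cast hN)]⟩⟩ : unitInterval) = 1 := by
      apply Subtype.ext
      simp only [Set.Icc.coe_one]
      exact div_self hN'.ne'
    rw [this, pl_one]

theorem pl_inj {N : ℕ} {p q : ℕ → ℂ} (h : pl N p = pl N q) {k : ℕ} (hk : k ≤ N) : p k = q k := by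
  rcases Nat.eq_zero_or_pos N with h0 | h0
  · have : k = 0 := by omega
    subst this
    have h1 := congrArg (fun f : C(unitInterval, ℂ) => f 0) h
    simp only [pl_zero] at h1
    exact h1
  · rw [← pl_at (p := p) hk h0, ← pl_at (p := q) hk h0, h]

theorem pos_inj {δ : ℝ} (hδ : 0 < δ) {σ τ : St} (h : pos δ σ = pos δ τ) : σ = τ := by
  have h1 := congrArg Complex.re h
  have h2 := congrArg Complex.im h
  rw [ML.pos_re, ML.pos_re] at h1
  rw [ML.pos_im, ML.pos_im] at h2
  have k1 := mul_left_cancel₀ hδ.ne' h1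
  have k2 := mul_left_cancel₀ hδ.ne' h2
  have q1 := abs_le.mp (ML.qx_sub σ.2 τ.2)
  have q2 := abs_le.mp (ML.qy_sub σ.2 τ.2)
  have x1 : σ.1.1 = τ.1.1 := by
    have a1 : ((σ.1.1 - τ.1.1 : ℤ) : ℝ) < 1 := by push_cast; linarith [q1.1, q1.2]
    have a2 : (-1 : ℝ) < ((σ.1.1 - τ.1.1 : ℤ) : ℝ) := by push_cast; linarith [q1.1, q1.2]
    have a3 : σ.1.1 - τ.1.1 < 1 := by exact_mod_cast a1
    have a4 : -1 < σ.1.1 - τ.1.1 := by exact_mod_cast a2
    omega
  have y1 : σ.1.2 = τ.1.2 := by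
    have a1 : ((σ.1.2 - τ.1.2 : ℤ) : ℝ) < 1 := by push_cast; linarith [q2.1, q2.2]
    have a2 : (-1 : ℝ) < ((σ.1.2 - τ.1.2 : ℤ) : ℝ) := by push_cast; linarith [q2.1, q2.2]
    have a3 : σ.1.2 - τ.1.2 < 1 := by exact_mod_cast a1
    have a4 : -1 < σ.1.2 - τ.1.2 := by exact_mod_cast a2
    omega
  rw [x1] at k1
  rw [y1] at k2
  have k1' : ML.qx σ.2 = ML.qx τ.2 := by linarith
  have k2' : ML.qy σ.2 = ML.qy τ.2 := by linarith
  obtain ⟨⟨x, y⟩, q⟩ := σ
  obtain ⟨⟨x', y'⟩, q'⟩ := τ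
  simp only at x1 y1 k1' k2'
  subst x1 y1
  cases q <;> cases q' <;> first
    | rfl
    | (exfalso; simp only [ML.qx, ML.qy] at k1' k2'; linarith)

theorem mes_ct {R : Rect} {δ : ℝ} (hD : (R.dm δ).Ok) :
    Mes (R.dm δ).edges (Kw (R.dm δ) (mx (R.dm δ)))
      (fun F => ((R.curve δ F, R.time δ F) : X)) := by
  intro F F' hF hF' h
  have h1 := nn_agree hD hF hF' h
  rw [nn_mx hF, nn_mx hF'] at h1
  have h2 : ∀ s ≤ (R.dm δ).len F, (R.dm δ).walk F' s = (R.dm δ).walk F s := by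
    intro s hs
    exact walk_agree hF hF' h (by rw [nn_mx hF]; exact hs)
  simp only [Prod.mk.injEq]
  refine ⟨?_, ?_⟩
  · unfold Rect.curve
    rw [h1]
    exact pl_congr (fun k hk => by rw [h2 k hk])
  · unfold Rect.time
    rw [h1]

theorem mv_ne_rt (σ : St) : mv σ ≠ rt σ := by
  obtain ⟨⟨x, y⟩, q⟩ := σ
  cases q <;> simp

/-- The curve and its time determine the explored part. -/
theorem ct_det {R : Rect} {δ : ℝ} (hδ : 0 < δ) {F F' : Finset Edg}
    (hF : F ⊆ (R.dm δ).edges) (hF' : F' ⊆ (R.dm δ).edges)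
    (hc : R.curve δ F' = R.curve δ F) (ht : R.time δ F' = R.time δ F) :
    F ∩ Kw (R.dm δ) (mx (R.dm δ)) F = F' ∩ Kw (R.dm δ) (mx (R.dm δ)) F := by
  have hlen : (R.dm δ).len F' = (R.dm δ).len F := by
    unfold Rect.time at ht
    have := mul_left_cancel₀ (Real.rpow_pos_of_pos hδ _).ne' ht
    exact_mod_cast this
  unfold Rect.curve at hc
  rw [hlen] at hc
  have hw : ∀ s ≤ (R.dm δ).len F, (R.dm δ).walk F' s = (R.dm δ).walk F s :=
    fun s hs => pos_inj hδ (pl_inj hc hs)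
  ext e
  simp only [Finset.mem_inter]
  constructor
  · rintro ⟨h1, h2⟩
    refine ⟨?_, h2⟩
    obtain ⟨h3, h4, h5⟩ := mem_Kw.mp h2
    rw [nn_mx hF, mem_Exm] at h3
    obtain ⟨s, hs, rfl⟩ := h3
    have e1 : (R.dm δ).walk F (s + 1) = mv ((R.dm δ).walk F s) := by
      rw [walk_succ]
      exact nxt_open (Or.inl (Finset.mem_coe.mpr h1))
    have e2 : (R.dm δ).walk F' (s + 1) = nxt ((R.dm δ).cfg F') ((R.dm δ).walk F' s) :=
      walk_succ _ _ _
    rw [hw _ (by omega), hw _ (by omega), e1] at e2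
    by_contra hn
    have h6 : ae ((R.dm δ).walk F s) ∉ (R.dm δ).cfg F' := by
      rintro (h7 | h7)
      · exact hn (Finset.mem_coe.mp h7)
      · exact h5 h7
    rw [nxt_closed h6] at e2
    exact mv_ne_rt _ e2
  · rintro ⟨h1, h2⟩
    refine ⟨?_, h2⟩
    obtain ⟨h3, h4, h5⟩ := mem_Kw.mp h2
    rw [nn_mx hF, mem_Exm] at h3
    obtain ⟨s, hs, rfl⟩ := h3
    have e1 : (R.dm δ).walk F' (s + 1) = mv ((R.dm δ).walk F' s) := by
      rw [walk_succ]
      apply nxt_open
      rw [hw _ (by omega)]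
      exact Or.inl (Finset.mem_coe.mpr h1)
    have e2 : (R.dm δ).walk F (s + 1) = nxt ((R.dm δ).cfg F) ((R.dm δ).walk F s) :=
      walk_succ _ _ _
    rw [hw _ (by omega), hw _ (by omega)] at e1
    rw [e1] at e2
    by_contra hn
    have h6 : ae ((R.dm δ).walk F s) ∉ (R.dm δ).cfg F := by
      rintro (h7 | h7)
      · exact hn (Finset.mem_coe.mp h7)
      · exact h5 h7
    rw [nxt_closed h6] at e2
    exact mv_ne_rt _ e2

end K3h14.TV
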