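import Pool.Agent.H974R2.Static

/-!
Stopping sets of product measures: change of the parameter, Wald's identity.
-/

set_option autoImplicit false

namespace K3h14.TV

open H974 Finset

variable {E : Type*} [DecidableEq E]

/-- Stopping set: the explored set `K F` is determined by the states of its elements. -/
structure Stp (S : Finset E) (K : Finset E → Finset E) : Prop where
  sub : ∀ F, F ⊆ S → K F ⊆ S
  stop : ∀ F F', F ⊆ S → F' ⊆ S → F ∩ K F = F' ∩ K F → K F' = K F

/-- The function is determined by the explored part. -/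
def Mes (S : Finset E) (K : Finset E → Finset E) {β : Type*} (g : Finset E → β) : Prop :=
  ∀ F F', F ⊆ S → F' ⊆ S → F ∩ K F = F' ∩ K F → g F' = g F

/-- The weight `a ^ open * b ^ closed` of the explored elements. -/
noncomputable def wt (K : Finset E → Finset E) (a b : ℝ) (F : Finset E) : ℝ :=
  a ^ (F ∩ K F).card * b ^ (K F \ F).card

theorem Stp.mesK {S : Finset E} {K : Finset E → Finset E} (h : Stp S K) : Mes S K K := h.stop

theorem sdiff_eq_of {F F' k : Finset E} (h : F ∩ k = F' ∩ k) : k \ F = k \ F' := by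
  ext x
  have := congrArg (fun s : Finset E => x ∈ s) h
  simp only [Finset.mem_inter, eq_iff_iff] at this
  simp only [Finset.mem_sdiff]
  tauto

theorem Stp.mes_wt {S : Finset E} {K : Finset E → Finset E} (h : Stp S K) (a b : ℝ) :
    Mes S K (wt K a b) := by
  intro F F' hF hF' he
  unfold wt
  rw [h.stop F F' hF hF' he, he, sdiff_eq_of he]

theorem Mes.mul {S : Finset E} {K : Finset E → Finset E} {f g : Finset E → ℝ} (hf : Mes S K f)
    (hg : Mes S K g) : Mes S K (fun F => f F * g F) := by
  intro F F' hF hF' he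
  simp only
  rw [hf F F' hF hF' he, hg F F' hF hF' he]

theorem Mes.ind {S : Finset E} {K : Finset E → Finset E} {A : Finset E → Prop}
    (hA : Mes S K A) : Mes S K (fun F => H974.ind (A F)) := by
  intro F F' hF hF' he
  simp only
  rw [hA F F' hF hF' he]

/-- The probability of a cylinder. -/
theorem cyl (p : ℝ) {S k o : Finset E} (hk : k ⊆ S) (ho : o ⊆ k) :
    Ex (fun _ => p) S (fun F => ind (F ∩ k = o)) = p ^ o.card * (1 - p) ^ (k \ o).card := by
  rw [Ex_local hk (f := fun F => ind (F ∩ k = o)) (by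
    intro F _
    apply ind_congr
    rw [Finset.inter_assoc, Finset.inter_self])]
  unfold Ex
  rw [Finset.sum_eq_single o]
  · beta_reduce
    rw [Finset.inter_eq_left.mpr ho, ind_of rfl, mul_one, Finset.prod_const, Finset.prod_const]
  · intro F hF hne
    beta_reduce
    rw [Finset.inter_eq_left.mpr (Finset.mem_powerset.mp hF), ind_not_of hne, mul_zero]
  · intro h
    exact absurd (Finset.mem_powerset.mpr ho) h

/-- Decomposition along the cylinders. -/
theorem decomp (p : ℝ) {S : Finset E} {K : Finset E → Finset E} (h : Stp S K)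
    (g : Finset E → ℝ) : Ex (fun _ => p) S g =
      ∑ ko ∈ S.powerset ×ˢ S.powerset,
        Ex (fun _ => p) S (fun F => ind (K F = ko.1 ∧ F ∩ ko.1 = ko.2) * g F) := by
  rw [← Ex_sum]
  apply Ex_congr
  intro F hF
  rw [← Finset.sum_mul]
  have h1 : ∑ ko ∈ S.powerset ×ˢ S.powerset, ind (K F = ko.1 ∧ F ∩ ko.1 = ko.2) = 1 := by
    rw [Finset.sum_eq_single (K F, F ∩ K F)]
    · exact ind_of ⟨rfl, rfl⟩
    · rintro ⟨k, o⟩ _ hne
      apply ind_not_of
      rintro ⟨h2, h3⟩
      apply hne
      simp only at h2 h3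
      rw [← h3, ← h2]
    · intro hne
      exfalso
      apply hne
      rw [Finset.mem_product, Finset.mem_powerset, Finset.mem_powerset]
      exact ⟨h.sub F hF, Finset.inter_subset_left.trans hF⟩
  rw [h1, one_mul]

/-- Change of the parameter. -/
theorem chg {S : Finset E} {K : Finset E → Finset E} (h : Stp S K) {g : Finset E → ℝ}
    (hg : Mes S K g) (p : ℝ) {r : ℝ} (hr0 : 0 < r) (hr1 : r < 1) :
    Ex (fun _ => p) S g =
      Ex (fun _ => r) S (fun F => wt K (p / r) ((1 - p) / (1 - r)) F * g F) := by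
  rw [decomp p h, decomp r h]
  apply Finset.sum_congr rfl
  rintro ⟨k, o⟩ hko
  rw [Finset.mem_product, Finset.mem_powerset, Finset.mem_powerset] at hko
  simp only at hko ⊢
  by_cases hgood : ∃ F0, F0 ⊆ S ∧ (K F0 = k ∧ F0 ∩ k = o)
  · obtain ⟨F0, hF0, hk0, ho0⟩ := hgood
    have key : ∀ F, F ⊆ S → ((K F = k ∧ F ∩ k = o) ↔ F ∩ k = o) := by
      intro F hF
      refine ⟨fun h => h.2, fun h' => ⟨?_, h'⟩⟩
      rw [← hk0]
      apply h.stop F0 F hF0 hF
      rw [hk0, ho0, h']
    have keyg : ∀ F, F ⊆ S → F ∩ k = o → g F = g F0 := by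
      intro F hF h'
      apply hg F0 F hF0 hF
      rw [hk0, ho0, h']
    have ho : o ⊆ k := by rw [← ho0]; exact Finset.inter_subset_right
    have e1 : ∀ (w : Finset E → ℝ), (∀ F, F ⊆ S → F ∩ k = o → w F = w F0) → ∀ q : ℝ,
        Ex (fun _ => q) S (fun F => ind (K F = k ∧ F ∩ k = o) * w F) =
          w F0 * (q ^ o.card * (1 - q) ^ (k \ o).card) := by
      intro w hw q
      rw [← cyl q hko.1 ho, ← Ex_mul_left]
      apply Ex_congr
      intro F hF
      by_cases h' : F ∩ k = o
      · rw [ind_of ((key F hF).mpr h'), ind_of h', hw F hF h']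
        ring
      · rw [ind_not_of h', ind_not_of (fun h2 => h' h2.2)]
        ring
    rw [e1 g keyg p, e1 (fun F => wt K (p / r) ((1 - p) / (1 - r)) F * g F) (by
      intro F hF h'
      beta_reduce
      rw [keyg F hF h']
      congr 1
      refine h.mes_wt _ _ F0 F hF0 hF ?_
      rw [hk0, ho0, h']) r]
    have e2 : wt K (p / r) ((1 - p) / (1 - r)) F0 =
        (p / r) ^ o.card * ((1 - p) / (1 - r)) ^ (k \ o).card := by
      unfold wt
      rw [hk0, ho0]
      congr 2
      congr 1
      have h3 : F0 ∩ k = o ∩ k := by rw [ho0, Finset.inter_eq_left.mpr ho]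
      exact sdiff_eq_of h3
    beta_reduce
    rw [e2]
    have hr1' : 1 - r ≠ 0 := by linarith
    rw [div_pow, div_pow]
    field_simp
  · have z : ∀ (w : Finset E → ℝ) (q : ℝ),
        Ex (fun _ => q) S (fun F => ind (K F = k ∧ F ∩ k = o) * w F) = 0 := by
      intro w q
      rw [Ex_congr (g := fun _ => (0:ℝ)), Ex_const]
      intro F hF
      rw [ind_not_of (fun h' => hgood ⟨F, hF, h'⟩), zero_mul]
    rw [z, z]

theorem wt_pos (K : Finset E → Finset E) {a b : ℝ} (ha : 0 < a) (hb : 0 < b) (F : Finset E) :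
    0 < wt K a b F := by
  unfold wt
  positivity

theorem card_split (K : Finset E → Finset E) (F : Finset E) :
    (F ∩ K F).card + (K F \ F).card = (K F).card := by
  rw [add_comm, Finset.inter_comm]
  exact Finset.card_sdiff_add_card_inter _ _

theorem wt_mul (K : Finset E → Finset E) (a b a' b' : ℝ) (F : Finset E) :
    wt K a b F * wt K a' b' F = wt K (a * a') (b * b') F := by
  unfold wt
  rw [mul_pow, mul_pow]
  ring

theorem wt_one (K : Finset E → Finset E) (F : Finset E) : wt K 1 1 F = 1 := by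
  unfold wt
  simp

theorem wt_scale (K : Finset E → Finset E) (a b c : ℝ) (F : Finset E) :
    wt K (c * a) (c * b) F = c ^ (K F).card * wt K a b F := by
  unfold wt
  rw [mul_pow, mul_pow, ← card_split K F, pow_add]
  ring

/-- The general form at `1/2`. -/
theorem chg_half {S : Finset E} {K : Finset E → Finset E} (h : Stp S K) {g : Finset E → ℝ}
    (hg : Mes S K g) {a b : ℝ} (ha : 0 < a) (hb : 0 < b) :
    Ex (fun _ => (1/2 : ℝ)) S (fun F => wt K a b F * g F) =
      Ex (fun _ => a / (a + b)) S (fun F => ((a + b) / 2) ^ (K F).card * g F) := by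
  have hab : 0 < a + b := by linarith
  have hm : Mes S K (fun F => ((a + b) / 2) ^ (K F).card * g F) := by
    apply Mes.mul _ hg
    intro F F' hF hF' he
    simp only
    rw [h.stop F F' hF hF' he]
  rw [chg h hm (a / (a + b)) (r := 1/2) (by norm_num) (by norm_num)]
  apply Ex_congr
  intro F _
  have e1 : wt K a b F = ((a + b) / 2) ^ (K F).card *
      wt K (a / (a + b) / (1/2)) ((1 - a / (a + b)) / (1 - 1/2)) F := by
    rw [← wt_scale]
    congr 1
    · field_simp
    · field_simp
      ring
  rw [e1]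
  ring

theorem ok_half : Ok (fun _ : E => (1/2 : ℝ)) := fun _ => ⟨by norm_num, by norm_num⟩

theorem ok_ab {a b : ℝ} (ha : 0 < a) (hb : 0 < b) : Ok (fun _ : E => a / (a + b)) := by
  intro e
  have hab : 0 < a + b := by linarith
  refine ⟨by positivity, ?_⟩
  rw [div_le_one hab]
  linarith

/-- Bound on the part with at most `m` explored elements. -/
theorem wt_le {S : Finset E} {K : Finset E → Finset E} (h : Stp S K) {A : Finset E → Prop}
    (hA : Mes S K A) {a b : ℝ} (ha : 0 < a) (hb : 0 < b) {M : ℝ} (hM : 0 ≤ M)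
    (hb2 : ∀ F, F ⊆ S → A F → ((a + b) / 2) ^ (K F).card ≤ M) :
    Ex (fun _ => (1/2 : ℝ)) S (fun F => wt K a b F * ind (A F)) ≤ M := by
  rw [chg_half h hA.ind ha hb]
  apply Ex_le_of_le (ok_ab ha hb)
  intro F hF
  by_cases hAF : A F
  · rw [ind_of hAF, mul_one]
    exact hb2 F hF hAF
  · rw [ind_not_of hAF, mul_zero]
    exact hM

theorem wt_total {S : Finset E} {K : Finset E → Finset E} (h : Stp S K) {a b : ℝ} (ha : 0 < a)
    (hb : 0 < b) (hab : a + b = 2) :
    Ex (fun _ => (1/2 : ℝ)) S (fun F => wt K a b F) = 1 := by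
  have h1 := chg_half h (g := fun _ => (1:ℝ)) (fun _ _ _ _ _ => rfl) ha hb
  simp only [mul_one] at h1
  rw [h1, hab, Ex_congr (g := fun _ => (1:ℝ)), Ex_const]
  intro F _
  norm_num

/-- An element is explored independently of its own state. -/
theorem own {S : Finset E} {K : Finset E → Finset E} (h : Stp S K) {e : E} (he : e ∈ S)
    {F : Finset E} (hF : F ⊆ S) : e ∈ K (insert e F) ↔ e ∈ K (F.erase e) := by
  have h1 : insert e F ⊆ S := Finset.insert_subset he hF
  have h2 : F.erase e ⊆ S := (Finset.erase_subset _ _).trans hF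
  have key : ∀ G G' : Finset E, G ⊆ S → G' ⊆ S → (∀ x, x ≠ e → (x ∈ G ↔ x ∈ G')) →
      e ∈ K G → e ∈ K G' := by
    intro G G' hG hG' hx hK
    by_contra hn
    apply hn
    rw [← h.stop G' G hG' hG]
    · exact hK
    · ext x
      simp only [Finset.mem_inter]
      by_cases hxe : x = e
      · subst hxe
        exact ⟨fun h => absurd h.2 hn, fun h => absurd h.2 hn⟩
      · rw [hx x hxe]
  have hx : ∀ x, x ≠ e → (x ∈ insert e F ↔ x ∈ F.erase e) := by
    intro x hx
    rw [Finset.mem_insert, Finset.mem_erase]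
    tauto
  exact ⟨key _ _ h1 h2 hx, key _ _ h2 h1 (fun x hxe => (hx x hxe).symm)⟩

/-- Wald's identity. -/
theorem wald {S : Finset E} {K : Finset E → Finset E} (h : Stp S K) (p : ℝ) :
    Ex (fun _ => p) S (fun F => ((F ∩ K F).card : ℝ)) =
      p * Ex (fun _ => p) S (fun F => ((K F).card : ℝ)) := by
  have c1 : ∀ F, F ⊆ S → ((F ∩ K F).card : ℝ) = ∑ e ∈ S, ind (e ∈ F) * ind (e ∈ K F) := by
    intro F hF
    rw [Finset.card_eq_sum_ones]
    push_cast
    rw [← Finset.sum_subset (Finset.inter_subset_left.trans hF) (s₁ := F ∩ K F)]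
    · apply Finset.sum_congr rfl
      intro e he
      rw [Finset.mem_inter] at he
      rw [ind_of he.1, ind_of he.2, mul_one]
    · intro e _ he
      rw [Finset.mem_inter] at he
      rw [← ind_and]
      exact ind_not_of he
  have c2 : ∀ F, F ⊆ S → ((K F).card : ℝ) = ∑ e ∈ S, ind (e ∈ K F) := by
    intro F hF
    rw [Finset.card_eq_sum_ones]
    push_cast
    rw [← Finset.sum_subset (h.sub F hF) (s₁ := K F)]
    · apply Finset.sum_congr rfl
      intro e he
      rw [ind_of he]
    · intro e _ he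
      exact ind_not_of he
  rw [Ex_congr c1, Ex_congr c2, Ex_sum, Ex_sum, Finset.mul_sum]
  apply Finset.sum_congr rfl
  intro e he
  have h1 := Ex_mul_indep (p := fun _ : E => p) (U := S) (S := {e}) (T := S.erase e)
    (Finset.singleton_subset_iff.mpr he) (Finset.erase_subset _ _)
    (by rw [Finset.disjoint_left]; intro x hx; rw [Finset.mem_singleton] at hx; subst hx; simp)
    (f := fun F => ind (e ∈ F)) (g := fun F => ind (e ∈ K F))
    (by intro F _; apply ind_congr; simp)
    (by
      intro F hF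
      apply ind_congr
      have e1 : F ∩ S.erase e = F.erase e := by
        ext x
        simp only [Finset.mem_inter, Finset.mem_erase]
        constructor
        · rintro ⟨a, b, c⟩; exact ⟨b, a⟩
        · rintro ⟨a, b⟩; exact ⟨b, a, hF b⟩
      rw [e1, ← own h he hF]
      by_cases hm : e ∈ F
      · rw [Finset.insert_eq_of_mem hm]
      · rw [own h he hF, Finset.erase_eq_of_notMem hm])
  rw [h1]
  congr 1
  have h2 : Ex (fun _ => p) S (fun F => ind (e ∈ F)) =
      Ex (fun _ => p) S (fun F => ind (F ∩ {e} = {e})) := by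
    apply Ex_congr
    intro F _
    apply ind_congr
    rw [Finset.inter_eq_right, Finset.singleton_subset_iff]
  rw [h2, cyl p (Finset.singleton_subset_iff.mpr he) (Finset.Subset.refl _)]
  simp

end K3h14.TV
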