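import Pool.Agent.K3h14.TV.Card
import Pool.Agent.TH992.T.Up
import Pool.Agent.TH992.T.Low1
import Pool.Agent.TH992.L.Slow3

/-!
The exploration path is confined to a tube along the dual boundary arc if there is an open path
in the tube; number of steps in this case.
-/

set_option autoImplicit false

namespace K3h14.TV

open H974 Finset H342P H984P H984N TH992.T

/-- The faces of the tube along the complementary arc. -/
def TubeF (D : Dm) (w : ℤ) (f : Vtx) : Prop :=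
  (D.t - w ≤ f.1 ∧ D.h - w ≤ f.2) ∨ D.r - w ≤ f.1 ∨ (-w ≤ f.1 ∧ f.2 < w)

/-- The edges of the tube. -/
noncomputable def TE (D : Dm) (w : ℤ) : Finset Edg :=
  RE (D.t - w) D.r (D.h - w) D.h ∪ (RE (D.r - w) D.r 0 D.h ∪ RE (-w) D.r 0 w)

/-- Dual path to the right. -/
theorem dmove {G : Set Edg} {y a : ℤ} (n : ℕ)
    (h : ∀ x, a < x → x ≤ a + n → ((x, y, false) : Edg) ∈ G) : DReach G (a, y) (a + n, y) := by
  induction n with
  | zero =>
    simp only [Nat.cast_zero, add_zero]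
    exact DReach.refl _ _
  | succ n ih =>
    refine (ih (fun x h1 h2 => h x h1 (by push_cast; omega))).trans
      (DAdj.reach ⟨(a + n + 1, y, false), h _ (by omega) (by push_cast; omega), ?_⟩)
    left
    simp only [dsrc_false, dtgt_mk, Prod.mk.injEq, and_true]
    push_cast
    omega

theorem dmove' {G : Set Edg} {y a b : ℤ} (hab : a ≤ b)
    (h : ∀ x, a < x → x ≤ b → ((x, y, false) : Edg) ∈ G) : DReach G (a, y) (b, y) := by
  obtain ⟨n, hn⟩ := Int.eq_ofNat_of_zero_le (sub_nonneg.mpr hab)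
  have e : b = a + n := by omega
  rw [e]
  exact dmove n (fun x h1 h2 => h x h1 (by omega))

/-- The confinement. -/
theorem confine {D : Dm} (hD : D.Ok) {F : Finset Edg} (hF : F ⊆ D.edges) {w : ℤ} (hw : 1 ≤ w)
    {x1 x2 : ℤ} (hx1 : D.l ≤ x1 ∧ x1 ≤ 0) (hx2 : D.l ≤ x2 ∧ x2 ≤ D.t)
    (h : Reach (↑F ∩ ↑(TE D w)) (x1, 0) (x2, D.h)) {f : Vtx} (hf : f ∈ D.dclu F) :
    TubeF D w f := by
  by_contra hc
  have hin := dclu_in hD hf
  obtain ⟨g, hg, hgf⟩ := hf
  obtain ⟨d1, d2, d3, d4, d5⟩ := hD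
  obtain ⟨f1, f2⟩ := f
  obtain ⟨g1, g2⟩ := g
  unfold TubeF at hc
  simp only at hc
  push Not at hc
  obtain ⟨c1, c2, c3⟩ := hc
  unfold Dm.outer at hg hin
  simp only [Set.mem_ofPred_eq] at hg hin
  have hfin : (D.l ≤ f1 ∧ f1 < D.r) ∧ 0 ≤ f2 ∧ f2 < D.h := by
    rcases hin with (h1 | h1 | h1) | h1
    · exfalso; have := c3 (by omega); omega
    · exfalso; omega
    · exfalso; have := c1 (by omega); omega
    · exact h1
  obtain ⟨G, hG⟩ : ∃ G : Set Edg, G = ((↑F : Set Edg) ∩ ↑(TE D w)) ∪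
    {((x1, -1, false) : Edg), (x2, D.h, false)} := ⟨_, rfl⟩
  have hT : ∀ e, e ∈ D.edges → e ∈ TBE D.l D.r (-1) (D.h + 1) := by
    rintro ⟨x, y, _ | _⟩ he
    · unfold Dm.edges at he
      rw [mem_RE_false] at he
      rw [mem_TBE_false]; omega
    · unfold Dm.edges at he
      rw [mem_RE_true] at he
      rw [mem_TBE_true]; omega
  -- the open path
  have p1 : Reach (G ∩ ↑(TBE D.l D.r (-1) (D.h + 1))) (x1, -1) (x1, 0) := by
    refine Adj.reach ⟨(x1, -1, false), ⟨?_, ?_⟩, ?_⟩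
    · rw [hG]; right; left; rfl
    · rw [Finset.mem_coe, mem_TBE_false]; omega
    · left; simp
  have p2 : Reach (G ∩ ↑(TBE D.l D.r (-1) (D.h + 1))) (x2, D.h) (x2, D.h + 1) := by
    refine Adj.reach ⟨(x2, D.h, false), ⟨?_, ?_⟩, ?_⟩
    · rw [hG]; right; right; rfl
    · rw [Finset.mem_coe, mem_TBE_false]; omega
    · left; simp
  have p3 : Reach (G ∩ ↑(TBE D.l D.r (-1) (D.h + 1))) (x1, 0) (x2, D.h) := by
    refine h.mono ?_
    rintro e ⟨he, he'⟩
    refine ⟨?_, ?_⟩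
    · rw [hG]; exact Or.inl ⟨he, he'⟩
    · exact Finset.mem_coe.mpr (hT e (hF (Finset.mem_coe.mp he)))
  -- vertical edges which are not in `G`
  have nG : ∀ x y : ℤ, ((x, y, false) : Edg) ∉ F ∨ ((x, y, false) : Edg) ∉ TE D w →
      ¬ (x = x1 ∧ y = -1) → ¬ (x = x2 ∧ y = D.h) → ((x, y, false) : Edg) ∈ Gᶜ := by
    intro x y h1 h2 h3 h4
    rw [hG] at h4
    rcases h4 with ⟨h5, h6⟩ | h5 | h5
    · rcases h1 with h1 | h1
      · exact h1 (Finset.mem_coe.mp h5)
      · exact h1 (Finset.mem_coe.mp h6)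
    · apply h2
      simp only [Prod.mk.injEq, and_true] at h5
      exact h5
    · apply h3
      simp only [Set.mem_singleton_iff, Prod.mk.injEq, and_true] at h5
      exact h5
  have nF : ∀ x y : ℤ, y < 0 ∨ D.h ≤ y → ((x, y, false) : Edg) ∉ F := by
    intro x y hy he
    have := hF he
    unfold Dm.edges at this
    rw [mem_RE_false] at this
    omega
  -- the dual path
  have q1 : DReach (Gᶜ ∩ ↑(TBE D.l D.r (-1) (D.h + 1))) (D.l - 1, f2) (f1, f2) := by
    apply dmove' (by omega)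
    intro x hx hx'
    refine ⟨nG x f2 (Or.inr ?_) (by omega) (by omega), ?_⟩
    · intro he
      unfold TE at he
      rw [Finset.mem_union, Finset.mem_union, mem_RE_false, mem_RE_false, mem_RE_false] at he
      rcases he with he | he | he
      · have := c1 (by omega); omega
      · omega
      · have := c3 (by omega); omega
    · rw [Finset.mem_coe, mem_TBE_false]; omega
  have q2 : DReach (Gᶜ ∩ ↑(TBE D.l D.r (-1) (D.h + 1))) (g1, g2) (f1, f2) := by
    refine hgf.mono ?_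
    rintro e ⟨he, he'⟩
    have heE := Finset.mem_coe.mp he
    refine ⟨?_, Finset.mem_coe.mpr (hT e heE)⟩
    intro hGe
    rw [hG] at hGe
    rcases hGe with ⟨h5, h6⟩ | h5 | h5
    · exact he' (Or.inl h5)
    · rw [h5] at heE
      unfold Dm.edges at heE
      rw [mem_RE_false] at heE
      omega
    · rw [Set.mem_singleton_iff] at h5
      rw [h5] at heE
      unfold Dm.edges at heE
      rw [mem_RE_false] at heE
      omega
  have q3 : DReach (Gᶜ ∩ ↑(TBE D.l D.r (-1) (D.h + 1))) (g1, g2) (D.r, g2) := by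
    rcases hg with ⟨h1, h2, h3⟩ | ⟨h1, h2, h3⟩ | ⟨h1, h2, h3⟩
    · apply dmove' h3
      intro x hx hx'
      refine ⟨nG x g2 (Or.inl (nF _ _ (by omega))) (by omega) (by omega), ?_⟩
      rw [Finset.mem_coe, mem_TBE_false]; omega
    · rw [h1]; exact DReach.refl _ _
    · apply dmove' h3
      intro x hx hx'
      refine ⟨nG x g2 (Or.inl (nF _ _ (by omega))) (by omega) (by omega), ?_⟩
      rw [Finset.mem_coe, mem_TBE_false]; omega
  exact no_both_TB (a := D.l) (b := D.r) (c := -1) (d := D.h + 1) (by omega)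
    (x := x1) (x' := x2) (y := f2) (y' := g2) (by omega) (by omega) ((p1.trans p3).trans p2)
    ((q1.trans q2.symm).trans q3)

/-- A horizontal and a vertical path through a common rectangle meet. -/
theorem cross_meet' {F W : Set Edg} {A B C D a b c d : ℤ} (hA : A ≤ a) (hab : a < b) (hB : b ≤ B)
    (hC : C ≤ c) (hcd : c < d) (hD : d ≤ D) {u v u' v' : Vtx}
    (h1 : Reach (F ∩ ↑(RE A B c d)) u v) (hu : u.1 ≤ a) (hv : b ≤ v.1)
    (h2 : Reach (F ∩ ↑(RE a b C D)) u' v') (hu' : u'.2 ≤ c) (hv' : d ≤ v'.2)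
    (hW1 : (↑(RE A B c d) : Set Edg) ⊆ W) (hW2 : (↑(RE a b C D) : Set Edg) ⊆ W) :
    Reach (F ∩ W) u u' := by
  obtain ⟨y1, y2, k1, k2, k3, k4⟩ := sub_LR (a := a) (b := b) (c := c) (d := d) hab
    (by rintro x y ⟨-, h⟩ _ _; simp only [mem_coe, mem_RE_true] at h; omega)
    (by rintro x y ⟨-, h⟩ _ _; simp only [mem_coe, mem_RE_false] at h; omega) h1 hu hv
  obtain ⟨x1, x2, l1, l2, l3, l4⟩ := sub_TB (a := a) (b := b) (c := c) (d := d) hcd
    (by rintro x y ⟨-, h⟩ _ _; simp only [mem_coe, mem_RE_false] at h; omega)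
    (by rintro x y ⟨-, h⟩ _ _; simp only [mem_coe, mem_RE_true] at h; omega) h2 hu' hv'
  have m := crossings_meet hab hcd.le (F := F) k2 l1
    (k3.mono (by rintro e ⟨⟨h7, -⟩, h8⟩; exact ⟨h7, h8⟩))
    (l3.mono (by rintro e ⟨⟨h7, -⟩, h8⟩; exact ⟨h7, h8⟩))
  have s3 : F ∩ ↑(RE a b c d) ⊆ F ∩ W :=
    Set.inter_subset_inter_right _ (Set.Subset.trans
      (by exact_mod_cast RE_subset hA hB le_rfl le_rfl) hW1)
  exact (k4.mono (Set.inter_subset_inter_right _ hW1)).trans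
    ((m.mono s3).trans (l4.symm.mono (Set.inter_subset_inter_right _ hW2)))

/-- The five crossings of the tube. -/
def TubeO (D : Dm) (w : ℤ) (F : Finset Edg) : Prop :=
  (TBc (D.t - w) D.t (D.h - w) D.h F ∧ LRc (D.t - w) D.r (D.h - w) D.h F) ∧
    TBc (D.r - w) D.r 0 D.h F ∧ (LRc (-w) D.r 0 w F ∧ TBc (-w) 0 0 w F)

theorem re_mono {F : Finset Edg} {a b c d : ℤ} {u v : Vtx}
    (h : Reach (↑F ∩ ↑(LRE a b c d)) u v) : Reach (↑F ∩ ↑(RE a b c d)) u v :=
  h.mono (Set.inter_subset_inter_right _ (by exact_mod_cast LRE_subset_RE))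

theorem te_mono {F : Finset Edg} {a b c d : ℤ} {u v : Vtx}
    (h : Reach (↑F ∩ ↑(TBE a b c d)) u v) : Reach (↑F ∩ ↑(RE a b c d)) u v :=
  h.mono (Set.inter_subset_inter_right _ (by exact_mod_cast TBE_subset_RE))

/-- The crossings form a path in the tube. -/
theorem tube_path {D : Dm} (hD : D.Ok) {w : ℤ} (hw : 1 ≤ w) (h1 : w ≤ D.h) (h2 : w ≤ D.r)
    (h3 : w ≤ -D.l) (h4 : D.l + w ≤ D.t) {F : Finset Edg} (hO : TubeO D w F) :
    ∃ x1 x2, (D.l ≤ x1 ∧ x1 ≤ 0) ∧ (D.l ≤ x2 ∧ x2 ≤ D.t) ∧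
      Reach (↑F ∩ ↑(TE D w)) (x1, 0) (x2, D.h) := by
  obtain ⟨⟨⟨a1, a2, ha1, ha2, hA⟩, ⟨b1, b2, hb1, hb2, hB⟩⟩, ⟨c1, c2, hc1, hc2, hC⟩,
    ⟨d1, d2, hd1, hd2, hDD⟩, ⟨e1, e2, he1, he2, hE⟩⟩ := hO
  obtain ⟨k1, k2, k3, k4, k5⟩ := hD
  have s1 : (↑(RE (D.t - w) D.r (D.h - w) D.h) : Set Edg) ⊆ ↑(TE D w) := by
    intro e he
    unfold TE
    rw [Finset.mem_coe] at he ⊢
    exact Finset.mem_union_left _ he
  have s2 : (↑(RE (D.r - w) D.r 0 D.h) : Set Edg) ⊆ ↑(TE D w) := by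
    intro e he
    unfold TE
    rw [Finset.mem_coe] at he ⊢
    exact Finset.mem_union_right _ (Finset.mem_union_left _ he)
  have s3 : (↑(RE (-w) D.r 0 w) : Set Edg) ⊆ ↑(TE D w) := by
    intro e he
    unfold TE
    rw [Finset.mem_coe] at he ⊢
    exact Finset.mem_union_right _ (Finset.mem_union_right _ he)
  have s1' : (↑(RE (D.t - w) D.t (D.h - w) D.h) : Set Edg) ⊆ ↑(TE D w) :=
    Set.Subset.trans (by exact_mod_cast RE_subset le_rfl k5 le_rfl le_rfl) s1
  have s3' : (↑(RE (-w) 0 0 w) : Set Edg) ⊆ ↑(TE D w) :=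
    Set.Subset.trans (by exact_mod_cast RE_subset le_rfl k2.le le_rfl le_rfl) s3
  have hB' := re_mono hB
  have hD' := re_mono hDD
  have hA' := te_mono hA
  have hC' := te_mono hC
  have hE' := te_mono hE
  -- top: the vertical crossing below `a` and the strip
  have m1 : Reach (↑F ∩ ↑(TE D w)) (D.t - w, b1) (a1, D.h - w) :=
    cross_meet' (a := D.t - w) (b := D.t) le_rfl (by omega) k5 le_rfl (by omega) le_rfl
      hB' (by simp) k5 hA' (by simp) (by simp) s1 s1'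
  have m2 : Reach (↑F ∩ ↑(TE D w)) (D.t - w, b1) (c1, 0) :=
    cross_meet' (a := D.r - w) (b := D.r) (by omega) (by omega) le_rfl (by omega) (by omega)
      le_rfl hB' (by simp only; omega) (by simp) hC' (by simp only; omega) (by simp) s1 s2
  have m3 : Reach (↑F ∩ ↑(TE D w)) (-w, d1) (c1, 0) :=
    cross_meet' (a := D.r - w) (b := D.r) (by omega) (by omega) le_rfl le_rfl (by omega)
      h1 hD' (by simp only; omega) (by simp) hC' (by simp) (by simp only; omega) s3 s2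
  have m4 : Reach (↑F ∩ ↑(TE D w)) (-w, d1) (e1, 0) :=
    cross_meet' (a := -w) (b := 0) le_rfl (by omega) k2.le le_rfl (by omega)
      le_rfl hD' (by simp) k2.le hE' (by simp) (by simp) s3 s3'
  have m5 : Reach (↑F ∩ ↑(TE D w)) (a1, D.h - w) (a2, D.h) :=
    hA'.mono (Set.inter_subset_inter_right _ s1')
  refine ⟨e1, a2, by omega, by omega, ?_⟩
  exact (m4.symm.trans m3).trans ((m2.symm.trans m1).trans m5)

theorem xs_nonneg (D : Dm) (s : ℕ) (v : Vtx) (F : Finset Edg) : 0 ≤ xs D s v F := by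
  unfold xs
  refine sum_nonneg fun q _ => ?_
  split_ifs
  · exact ind_nonneg _
  · exact le_refl _

theorem len_tube {D : Dm} (hD : D.Ok) {F : Finset Edg} (hF : F ⊆ D.edges) {w N : ℕ} (hw : 1 ≤ w)
    (h1 : (w:ℤ) ≤ D.h) (h2 : (w:ℤ) ≤ D.r) (h3 : (w:ℤ) ≤ -D.l) (h4 : D.l + w ≤ D.t)
    (hN1 : D.r - D.l < N * w) (hN2 : D.h < N * w) (hO : TubeO D w F) :
    (D.len F : ℝ) ≤
      ∑ q ∈ range (N + 1) ×ˢ range 2, Nb (xs D) w (D.t - w + q.1 * w) (D.h - w + q.2 * w) F +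
      (∑ q ∈ range 2 ×ˢ range (N + 1), Nb (xs D) w (D.r - w + q.1 * w) (0 + q.2 * w) F +
        ∑ q ∈ range (N + 1) ×ˢ range 2, Nb (xs D) w (-w + q.1 * w) (0 + q.2 * w) F) := by
  classical
  have hwz : (1:ℤ) ≤ w := by exact_mod_cast hw
  obtain ⟨x1, x2, hx1, hx2, hr⟩ := tube_path hD hwz h1 h2 h3 h4 hO
  have e := Moments_sum hD hF (fun _ => (1 : ℝ))
  simp only [sum_const, card_range, nsmul_eq_mul, mul_one] at e
  have e2 : (D.len F : ℝ) + 1 = ∑ σ ∈ D.states, ind (D.Vis F σ) := by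
    rw [← e]; push_cast; ring
  obtain ⟨V, hV⟩ : ∃ V : Finset Vtx, V = Finset.Icc D.l D.r ×ˢ Finset.Icc 0 D.h := ⟨_, rfl⟩
  have hVm : ∀ v : Vtx, v ∈ V ↔ (D.l ≤ v.1 ∧ v.1 ≤ D.r) ∧ (0 ≤ v.2 ∧ v.2 ≤ D.h) := by
    intro v
    rw [hV, mem_product, mem_Icc, mem_Icc]
  obtain ⟨W1, hW1⟩ : ∃ W1 : Finset Vtx, W1 = V.filter (fun v => D.t - w ≤ v.1 ∧ D.h - w ≤ v.2) :=
    ⟨_, rfl⟩
  obtain ⟨W2, hW2⟩ : ∃ W2 : Finset Vtx, W2 = V.filter (fun v => D.r - w ≤ v.1) := ⟨_, rfl⟩
  obtain ⟨W3, hW3⟩ : ∃ W3 : Finset Vtx, W3 = V.filter (fun v => -(w:ℤ) ≤ v.1 ∧ v.2 ≤ (w:ℤ)) :=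
    ⟨_, rfl⟩
  have hstep : (D.len F : ℝ) + 1 ≤ ∑ v ∈ W1, xs D w v F + (∑ v ∈ W2, xs D w v F +
      ∑ v ∈ W3, xs D w v F) := by
    rw [e2, hW1, hW2, hW3, sum_filter, sum_filter, sum_filter, ← sum_add_distrib,
      ← sum_add_distrib]
    unfold Dm.states
    rw [sum_product, ← hV]
    refine sum_le_sum fun v hv => ?_
    have hv' := (hVm v).mp hv
    have hx := xs_nonneg D w v F
    by_cases hvis : ∃ q, D.Vis F (v, q)
    · obtain ⟨q, k, hk, hkw⟩ := hvis
      have hcl := (walk_clu hD hF hk).2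
      rw [hkw] at hcl
      have hT := confine hD hF hwz hx1 hx2 hr hcl
      have hin : (D.t - w ≤ v.1 ∧ D.h - w ≤ v.2) ∨ D.r - w ≤ v.1 ∨ (-(w:ℤ) ≤ v.1 ∧ v.2 ≤ (w:ℤ)) := by
        unfold TubeF at hT
        obtain ⟨x, y⟩ := v
        cases q <;> simp only [face_ne, face_nw, face_sw, face_se] at hT ⊢ <;> omega
      have h5 : ∑ q : Q4, ind (D.Vis F (v, q)) ≤ xs D w v F := by
        unfold xs
        refine sum_le_sum fun q _ => ?_
        rw [if_pos (xs_mem' q hv')]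
        refine ind_mono fun h => ?_
        rcases le_or_gt (min (w : ℤ) (D.bd v)) 0 with hm | hm
        · exact Or.inl hm
        · exact Or.inr (vis_two hD hF h hm (min_le_right _ _))
      have i1 : 0 ≤ (if D.t - w ≤ v.1 ∧ D.h - w ≤ v.2 then xs D w v F else 0) := by
        split_ifs <;> linarith
      have i2 : 0 ≤ (if D.r - w ≤ v.1 then xs D w v F else 0) := by
        split_ifs <;> linarith
      have i3 : 0 ≤ (if -(w:ℤ) ≤ v.1 ∧ v.2 ≤ (w:ℤ) then xs D w v F else 0) := by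
        split_ifs <;> linarith
      rcases hin with hin | hin | hin
      · rw [if_pos hin] at i1 ⊢; linarith
      · rw [if_pos hin] at i2 ⊢; linarith
      · rw [if_pos hin] at i3 ⊢; linarith
    · push Not at hvis
      have : ∑ q : Q4, ind (D.Vis F (v, q)) = 0 := by
        apply sum_eq_zero
        intro q _
        exact ind_not_of (hvis q)
      rw [this]
      have i1 : 0 ≤ (if D.t - w ≤ v.1 ∧ D.h - w ≤ v.2 then xs D w v F else 0) := by
        split_ifs <;> linarith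
      have i2 : 0 ≤ (if D.r - w ≤ v.1 then xs D w v F else 0) := by
        split_ifs <;> linarith
      have i3 : 0 ≤ (if -(w:ℤ) ≤ v.1 ∧ v.2 ≤ (w:ℤ) then xs D w v F else 0) := by
        split_ifs <;> linarith
      linarith
  have j1 := TH992.L.cover (f := fun v => xs D w v F) (fun v => xs_nonneg _ _ _ _) (W := W1) hw
    (b0 := D.t - w) (c0 := D.h - w) (n1 := N + 1) (n2 := 2) (by
      intro v hv
      rw [hW1, mem_filter, hVm] at hv
      have := hD.l_le
      push_cast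
      have e1 : ((N:ℤ) + 1) * w = N * w + w := by ring
      rw [e1]
      omega)
  have j2 := TH992.L.cover (f := fun v => xs D w v F) (fun v => xs_nonneg _ _ _ _) (W := W2) hw
    (b0 := D.r - w) (c0 := 0) (n1 := 2) (n2 := N + 1) (by
      intro v hv
      rw [hW2, mem_filter, hVm] at hv
      push_cast
      have e1 : ((N:ℤ) + 1) * w = N * w + w := by ring
      rw [e1]
      omega)
  have j3 := TH992.L.cover (f := fun v => xs D w v F) (fun v => xs_nonneg _ _ _ _) (W := W3) hw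
    (b0 := -(w:ℤ)) (c0 := 0) (n1 := N + 1) (n2 := 2) (by
      intro v hv
      rw [hW3, mem_filter, hVm] at hv
      have := hD.l_neg
      push_cast
      have e1 : ((N:ℤ) + 1) * w = N * w + w := by ring
      rw [e1]
      omega)
  unfold Nb
  linarith

end K3h14.TV
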