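import Pool.Agent.K3h14.TV.Tube
import Pool.Agent.TH992.L.Fast
import Pool.Agent.H984R4.NP.ModelLem

/-!
The path is short with probability at least `exp (- C s ^ (-4/3))`.
-/

set_option autoImplicit false

namespace K3h14.TV

open H974 Finset H342P H984P H984N TH992.T

/-- exponential moments of the number in a box -/
theorem xs_mom {C : ℝ} (hC : 0 < C) (hU : TwoUp C (1/4)) : ∃ M : ℝ, 1 ≤ M ∧
    ∀ (D : Dm) (s : ℕ) (b c : ℤ), 1 ≤ s →
      Ex (fun _ => (1/2:ℝ)) D.edges (fun F =>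
        Real.exp (Yb (1/4) (xs D) s b c F / 2)) ≤ M := by
  obtain ⟨u0, h0⟩ := tail0 (a := 1/4) (C0 := 4 * (C + 1) * (1 + 8 * (1 + 1 / (1 - 1/4))))
    (by norm_num) (by norm_num) 4 (by positivity)
  refine ⟨max (Real.exp (u0 + 1 / 2) * (1 - Real.exp (-(1/2)))⁻¹) 1, le_max_right _ _,
    fun D s b c hs => ?_⟩
  have hf := xs_fam hC hU D
  refine (expmom two_ok _ (fun F => Yb_nonneg hf s b c F) (u0 := u0)
    (fun u hu => h0 _ _ _ hf s b c u hs hu) ⌈4 * (s : ℝ) ^ (1/4 : ℝ)⌉₊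
    (fun F _ => (Yb_le hf hs b c F).trans (Nat.le_ceil _))).trans (le_max_left _ _)

/-- The upper tail of the number in a strip of boxes. -/
theorem cnt_pr {M : ℝ} (hM1 : 1 ≤ M) {C : ℝ} (hC : 0 < C) (hU : TwoUp C (1/4))
    (hM : ∀ (D : Dm) (s : ℕ) (b c : ℤ), 1 ≤ s →
      Ex (fun _ => (1/2:ℝ)) D.edges (fun F => Real.exp (Yb (1/4) (xs D) s b c F / 2)) ≤ M)
    (D : Dm) {a : ℕ} (ha : 1 ≤ a) (b c : ℤ) (n1 n2 : ℕ) (t : ℝ) :
    Pr (fun _ => (1/2:ℝ)) D.edges (fun F => 18 * t * (a : ℝ) ^ (7/4 : ℝ) ≤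
      ∑ q ∈ range n1 ×ˢ range n2, Nb (xs D) a (b + q.1 * a) (c + q.2 * a) F) ≤
      9 * (Real.exp (-t) * M ^ (n1 * n2)) := by
  have hf := xs_fam hC hU D
  have ha0 : (0 : ℝ) < a := by exact_mod_cast ha
  have hpos : 0 < (a : ℝ) ^ (7/4 : ℝ) := Real.rpow_pos_of_pos ha0 _
  have h1 := TH992.L.chernG two_ok (S := D.edges) (range n1 ×ˢ range n2)
    (fun q => Tb D.edges a (b + q.1 * a) (c + q.2 * a))
    (fun q => inter_subset_right) (fun q q' hqq h1 h2 => Tb_disj ha hqq h1 h2)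
    (fun q F => Yb (1/4) (xs D) a (b + q.1 * a) (c + q.2 * a) F / 2)
    (fun q F hF => by
      simp only [Yb]
      rw [← Nb_local hf a _ _ F hF])
    hM1 (fun q => hM D a _ _ ha) t
  refine le_trans (Pr_mono two_ok fun F hF hx => ?_) (h1.trans (le_of_eq ?_))
  · have e2 : ∑ q ∈ range n1 ×ˢ range n2, Nb (xs D) a (b + q.1 * a) (c + q.2 * a) F =
        (2 * (a : ℝ) ^ (7/4 : ℝ)) *
        ∑ q ∈ range n1 ×ˢ range n2, Yb (1/4) (xs D) a (b + q.1 * a) (c + q.2 * a) F / 2 := by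
      rw [mul_sum]
      refine sum_congr rfl fun q _ => ?_
      unfold Yb
      have e2 : (2 - 1/4 : ℝ) = 7/4 := by norm_num
      rw [e2]
      field_simp
    rw [e2] at hx
    have h2 : (2 * (a : ℝ) ^ (7/4 : ℝ)) * (9 * t) ≤ (2 * (a : ℝ) ^ (7/4 : ℝ)) *
        ∑ q ∈ range n1 ×ˢ range n2, Yb (1/4) (xs D) a (b + q.1 * a) (c + q.2 * a) F / 2 := by
      linarith
    exact le_of_mul_le_mul_left h2 (by positivity)
  · rw [card_product, card_range, card_range]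

theorem lr_pr {S : Finset Edg} {a b c d : ℤ} {N : ℕ} (hab : a < b) (hcd : c < d)
    (hS : LRE a b c d ⊆ S) (hN : b - a ≤ (N + 1) * (d - c)) :
    q0 ^ (2 * N + 1) ≤ Pr (fun _ => (1/2:ℝ)) S (LRc a b c d) := by
  rw [pr_LRc _ hS]
  apply hh_wide (by omega) (by omega)
  nlinarith

theorem tb_pr {S : Finset Edg} {a b c d : ℤ} {N : ℕ} (hab : a < b) (hcd : c < d)
    (hS : TBE a b c d ⊆ S) (hN : d - c ≤ (N + 1) * (b - a)) :
    q0 ^ (2 * N + 1) ≤ Pr (fun _ => (1/2:ℝ)) S (TBc a b c d) := by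
  rw [pr_TBc _ hS]
  apply hh_wide (by omega) (by omega)
  nlinarith

/-- Probability of the tube. -/
theorem tubeO_pr {D : Dm} (hD : D.Ok) {w N : ℕ} (hw : 1 ≤ w)
    (h1 : (w:ℤ) ≤ D.h) (h2 : (w:ℤ) ≤ D.r) (h3 : (w:ℤ) ≤ -D.l) (h4 : D.l + w ≤ D.t)
    (hN1 : D.r - D.l < N * w) (hN2 : D.h < N * w) :
    q0 ^ (5 * (2 * N + 1)) ≤ Pr (fun _ => (1/2:ℝ)) D.edges (fun F => TubeO D w F) := by
  have hwz : (1:ℤ) ≤ w := by exact_mod_cast hw
  obtain ⟨k1, k2, k3, k4, k5⟩ := hD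
  have e0 : ((N:ℤ) + 1) * w = N * w + w := by ring
  have sub : ∀ a b c d : ℤ, D.l ≤ a → b ≤ D.r → 0 ≤ c → d ≤ D.h → RE a b c d ⊆ D.edges :=
    fun a b c d h1 h2 h3 h4 => RE_subset h1 h2 h3 h4
  have p1 : q0 ^ (2 * N + 1) ≤ Pr (fun _ => (1/2:ℝ)) D.edges
      (TBc (D.t - w) D.t (D.h - w) D.h) :=
    tb_pr (by omega) (by omega)
      (TBE_subset_RE.trans (sub _ _ _ _ (by omega) (by omega) (by omega) (by omega)))
      (by have : D.t - (D.t - (w:ℤ)) = w := by ring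
          rw [this, e0]; omega)
  have p2 : q0 ^ (2 * N + 1) ≤ Pr (fun _ => (1/2:ℝ)) D.edges
      (LRc (D.t - w) D.r (D.h - w) D.h) :=
    lr_pr (by omega) (by omega)
      (LRE_subset_RE.trans (sub _ _ _ _ (by omega) (by omega) (by omega) (by omega)))
      (by have : D.h - (D.h - (w:ℤ)) = w := by ring
          rw [this, e0]; omega)
  have p3 : q0 ^ (2 * N + 1) ≤ Pr (fun _ => (1/2:ℝ)) D.edges
      (TBc (D.r - w) D.r 0 D.h) :=
    tb_pr (by omega) (by omega)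
      (TBE_subset_RE.trans (sub _ _ _ _ (by omega) (by omega) (by omega) (by omega)))
      (by have : D.r - (D.r - (w:ℤ)) = w := by ring
          rw [this, e0]; omega)
  have p4 : q0 ^ (2 * N + 1) ≤ Pr (fun _ => (1/2:ℝ)) D.edges
      (LRc (-w) D.r 0 w) :=
    lr_pr (by omega) (by omega)
      (LRE_subset_RE.trans (sub _ _ _ _ (by omega) (by omega) (by omega) (by omega)))
      (by rw [sub_zero, e0]; omega)
  have p5 : q0 ^ (2 * N + 1) ≤ Pr (fun _ => (1/2:ℝ)) D.edges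
      (TBc (-w) 0 0 w) :=
    tb_pr (by omega) (by omega)
      (TBE_subset_RE.trans (sub _ _ _ _ (by omega) (by omega) (by omega) (by omega)))
      (by have : 0 - (-(w:ℤ)) = w := by ring
          rw [this, e0]; omega)
  have ok := two_ok
  have i1 := Pr_harris ok (TBc_incr D.edges (D.t - w) D.t (D.h - w) D.h)
    (LRc_incr D.edges (D.t - w) D.r (D.h - w) D.h)
  have i2 := Pr_harris ok (LRc_incr D.edges (-w) D.r 0 w) (TBc_incr D.edges (-w) 0 0 w)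
  have i3 := Pr_harris ok (TBc_incr D.edges (D.r - w) D.r 0 D.h)
    (B := fun F => LRc (-w) D.r 0 w F ∧ TBc (-w) 0 0 w F)
    (fun F G h h' hF => ⟨LRc_incr D.edges _ _ _ _ F G h h' hF.1,
      TBc_incr D.edges _ _ _ _ F G h h' hF.2⟩)
  have i4 := Pr_harris ok (S := D.edges)
    (A := fun F => TBc (D.t - w) D.t (D.h - w) D.h F ∧ LRc (D.t - w) D.r (D.h - w) D.h F)
    (B := fun F => TBc (D.r - w) D.r 0 D.h F ∧ (LRc (-w) D.r 0 w F ∧ TBc (-w) 0 0 w F))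
    (fun F G h h' hF => ⟨TBc_incr D.edges _ _ _ _ F G h h' hF.1,
      LRc_incr D.edges _ _ _ _ F G h h' hF.2⟩)
    (fun F G h h' hF => ⟨TBc_incr D.edges _ _ _ _ F G h h' hF.1,
      LRc_incr D.edges _ _ _ _ F G h h' hF.2.1, TBc_incr D.edges _ _ _ _ F G h h' hF.2.2⟩)
  obtain ⟨Q, hQ⟩ : ∃ Q, Q = q0 ^ (2 * N + 1) := ⟨_, rfl⟩
  have hQ0 : 0 ≤ Q := by rw [hQ]; exact pow_nonneg q0_pos.le _
  rw [← hQ] at p1 p2 p3 p4 p5
  have e1 : q0 ^ (5 * (2 * N + 1)) = Q * Q * (Q * (Q * Q)) := by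
    rw [hQ, mul_comm 5, pow_mul]
    ring
  rw [e1]
  have j1 := (mul_le_mul p1 p2 hQ0 (hQ0.trans p1)).trans i1
  have j2 := (mul_le_mul p4 p5 hQ0 (hQ0.trans p4)).trans i2
  have j3 := (mul_le_mul p3 j2 (by positivity) (hQ0.trans p3)).trans i3
  exact (mul_le_mul j1 j3 (by positivity) ((by positivity : (0:ℝ) ≤ Q * Q).trans j1)).trans i4

/-- The path is short with a probability which is exponentially small in the number of boxes. -/
theorem short_pr {C : ℝ} (hC : 0 < C) (hU : TwoUp C (1/4)) : ∃ θ K : ℝ, 0 < θ ∧ 0 < K ∧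
    ∀ (D : Dm), D.Ok → ∀ w N : ℕ, 1 ≤ w → (w:ℤ) ≤ D.h → (w:ℤ) ≤ D.r → (w:ℤ) ≤ -D.l →
      D.l + w ≤ D.t → D.r - D.l < N * w → D.h < N * w →
      Real.exp (-(K * N)) ≤ Pr (fun _ => (1/2:ℝ)) D.edges
        (fun F => (D.len F : ℝ) ≤ θ * N * (w:ℝ) ^ (7/4 : ℝ)) := by
  obtain ⟨M, hM1, hM⟩ := xs_mom hC hU
  have hM0 : 0 < M := by linarith
  have hlM : 0 ≤ Real.log M := Real.log_nonneg hM1
  have hlq : Real.log q0 ≤ 0 := Real.log_nonpos q0_pos.le q0_le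
  obtain ⟨t0, ht0⟩ : ∃ t0, t0 = 5 + 4 * Real.log M - 15 * Real.log q0 := ⟨_, rfl⟩
  have ht00 : 0 < t0 := by rw [ht0]; linarith
  refine ⟨54 * t0, 1 - 15 * Real.log q0, by positivity, by linarith, ?_⟩
  intro D hD w N hw h1 h2 h3 h4 hN1 hN2
  have hwz : (1:ℤ) ≤ w := by exact_mod_cast hw
  have hN : 1 ≤ N := by
    rcases Nat.eq_zero_or_pos N with h | h
    · exfalso
      rw [h] at hN2
      have := hD.h_pos
      push_cast at hN2
      omega
    · exact h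
  have hNr : (1:ℝ) ≤ N := by exact_mod_cast hN
  have hO := tubeO_pr hD hw h1 h2 h3 h4 hN1 hN2
  have c1 := cnt_pr hM1 hC hU hM D hw (D.t - w) (D.h - w) (N + 1) 2 (t0 * N)
  have c2 := cnt_pr hM1 hC hU hM D hw (D.r - w) 0 2 (N + 1) (t0 * N)
  have c3 := cnt_pr hM1 hC hU hM D hw (-w) 0 (N + 1) 2 (t0 * N)
  obtain ⟨B1, hB1⟩ : ∃ B1 : Finset Edg → Prop, B1 = fun F =>
    18 * (t0 * N) * (w : ℝ) ^ (7/4 : ℝ) ≤ ∑ q ∈ range (N + 1) ×ˢ range 2,
      Nb (xs D) w (D.t - w + q.1 * w) (D.h - w + q.2 * w) F := ⟨_, rfl⟩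
  obtain ⟨B2, hB2⟩ : ∃ B2 : Finset Edg → Prop, B2 = fun F =>
    18 * (t0 * N) * (w : ℝ) ^ (7/4 : ℝ) ≤ ∑ q ∈ range 2 ×ˢ range (N + 1),
      Nb (xs D) w (D.r - w + q.1 * w) (0 + q.2 * w) F := ⟨_, rfl⟩
  obtain ⟨B3, hB3⟩ : ∃ B3 : Finset Edg → Prop, B3 = fun F =>
    18 * (t0 * N) * (w : ℝ) ^ (7/4 : ℝ) ≤ ∑ q ∈ range (N + 1) ×ˢ range 2,
      Nb (xs D) w (-w + q.1 * w) (0 + q.2 * w) F := ⟨_, rfl⟩
  have c1' : Pr (fun _ => (1/2:ℝ)) D.edges B1 ≤
      9 * (Real.exp (-(t0 * N)) * M ^ ((N + 1) * 2)) := by rw [hB1]; exact c1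
  have c2' : Pr (fun _ => (1/2:ℝ)) D.edges B2 ≤
      9 * (Real.exp (-(t0 * N)) * M ^ (2 * (N + 1))) := by rw [hB2]; exact c2
  have c3' : Pr (fun _ => (1/2:ℝ)) D.edges B3 ≤
      9 * (Real.exp (-(t0 * N)) * M ^ ((N + 1) * 2)) := by rw [hB3]; exact c3
  have hmain : Pr (fun _ => (1/2:ℝ)) D.edges (fun F => TubeO D w F) ≤
      Pr (fun _ => (1/2:ℝ)) D.edges (fun F => (D.len F : ℝ) ≤ 54 * t0 * N * (w:ℝ) ^ (7/4 : ℝ)) +
      (Pr (fun _ => (1/2:ℝ)) D.edges B1 + (Pr (fun _ => (1/2:ℝ)) D.edges B2 +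
        Pr (fun _ => (1/2:ℝ)) D.edges B3)) := by
    unfold Pr
    rw [← Ex_add, ← Ex_add, ← Ex_add]
    refine Ex_mono two_ok fun F hF => ?_
    have i1 := ind_nonneg (B1 F)
    have i2 := ind_nonneg (B2 F)
    have i3 := ind_nonneg (B3 F)
    have i4 := ind_nonneg ((D.len F : ℝ) ≤ 54 * t0 * N * (w:ℝ) ^ (7/4 : ℝ))
    by_cases hT : TubeO D w F
    · rw [ind_of hT]
      by_cases b1 : B1 F
      · rw [ind_of b1]; linarith
      by_cases b2 : B2 F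
      · rw [ind_of b2]; linarith
      by_cases b3 : B3 F
      · rw [ind_of b3]; linarith
      have hlen := len_tube hD hF hw h1 h2 h3 h4 hN1 hN2 hT
      rw [hB1] at b1
      rw [hB2] at b2
      rw [hB3] at b3
      rw [not_le] at b1 b2 b3
      have : (D.len F : ℝ) ≤ 54 * t0 * N * (w:ℝ) ^ (7/4 : ℝ) := by linarith
      rw [ind_of this]
      linarith
    · rw [ind_not_of hT]
      linarith
  have hsmall : 27 * (Real.exp (-(t0 * N)) * M ^ (2 * (N + 1))) ≤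
      1 / 2 * Real.exp (15 * Real.log q0 * N) := by
    have e1 : M ^ (2 * (N + 1)) ≤ Real.exp (4 * Real.log M * N) := by
      have e2 : Real.exp (4 * Real.log M * N) = M ^ (4 * N) := by
        have : 4 * Real.log M * N = ((4 * N : ℕ) : ℝ) * Real.log M := by push_cast; ring
        rw [this, Real.exp_nat_mul, Real.exp_log hM0]
      rw [e2]
      exact pow_le_pow_right₀ hM1 (by omega)
    have e3 : Real.exp (-(t0 * N)) * M ^ (2 * (N + 1)) ≤
        Real.exp (15 * Real.log q0 * N) * Real.exp (-(5 * N)) := by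
      calc Real.exp (-(t0 * N)) * M ^ (2 * (N + 1)) ≤
            Real.exp (-(t0 * N)) * Real.exp (4 * Real.log M * N) :=
            mul_le_mul_of_nonneg_left e1 (Real.exp_pos _).le
        _ = Real.exp (15 * Real.log q0 * N) * Real.exp (-(5 * N)) := by
            rw [← Real.exp_add, ← Real.exp_add]
            congr 1
            rw [ht0]; ring
    have e4 : 27 * Real.exp (-(5 * (N:ℝ))) ≤ 1 / 2 := by
      have e5 : Real.exp (-(5 * (N:ℝ))) ≤ Real.exp (-5) := Real.exp_le_exp.mpr (by linarith)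
      have e6 : Real.exp (-5) ≤ 1/54 := by
        have e7 : (54:ℝ) ≤ Real.exp 5 := by
          have e8 : Real.exp 5 = Real.exp 1 ^ 5 := by rw [← Real.exp_nat_mul]; norm_num
          have e9 := Real.exp_one_gt_d9
          rw [e8]
          have e10 : (2.7 : ℝ) ^ 5 ≤ Real.exp 1 ^ 5 :=
            pow_le_pow_left₀ (by norm_num) (by linarith) 5
          norm_num at e10 ⊢
          linarith
        rw [Real.exp_neg, ← one_div]
        exact one_div_le_one_div_of_le (by norm_num) e7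
      linarith
    have e7 := Real.exp_pos (15 * Real.log q0 * N)
    calc 27 * (Real.exp (-(t0 * N)) * M ^ (2 * (N + 1))) ≤
          27 * (Real.exp (15 * Real.log q0 * N) * Real.exp (-(5 * N))) := by linarith
      _ = Real.exp (15 * Real.log q0 * N) * (27 * Real.exp (-(5 * (N:ℝ)))) := by ring
      _ ≤ Real.exp (15 * Real.log q0 * N) * (1 / 2) := mul_le_mul_of_nonneg_left e4 e7.le
      _ = _ := by ring
  have hlow : Real.exp (15 * Real.log q0 * N) ≤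
      Pr (fun _ => (1/2:ℝ)) D.edges (fun F => TubeO D w F) := by
    refine le_trans ?_ hO
    have e1 : q0 ^ (5 * (2 * N + 1)) = Real.exp (((5 * (2 * N + 1) : ℕ) : ℝ) * Real.log q0) := by
      rw [Real.exp_nat_mul, Real.exp_log q0_pos]
    rw [e1]
    apply Real.exp_le_exp.mpr
    push_cast
    nlinarith
  have hm2 : (N + 1) * 2 = 2 * (N + 1) := by ring
  rw [hm2] at c1' c3'
  have hfin : 1 / 2 * Real.exp (15 * Real.log q0 * N) ≤
      Pr (fun _ => (1/2:ℝ)) D.edges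
        (fun F => (D.len F : ℝ) ≤ 54 * t0 * N * (w:ℝ) ^ (7/4 : ℝ)) := by linarith
  refine le_trans ?_ hfin
  have e1 : -((1 - 15 * Real.log q0) * (N:ℝ)) = 15 * Real.log q0 * N + -N := by ring
  rw [e1, Real.exp_add]
  have e2 : Real.exp (-(N:ℝ)) ≤ 1/2 := by
    have h11 : Real.exp (-(N : ℝ)) ≤ Real.exp (-1) := Real.exp_le_exp.mpr (by linarith)
    have h12 := Real.exp_neg_one_lt_d9
    linarith
  have e3 := Real.exp_pos (15 * Real.log q0 * N)
  nlinarith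

end K3h14.TV
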